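import Mathlib
import Pool.Agent.H17R2.Windmill

set_option autoImplicit false
set_option linter.unusedSectionVars false

/-!
# Windmills with values (a Cohen-Lyndon type theorem)

We extend the windmill construction of `Pool.Agent.H17R2.Windmill` by a homomorphism to a group `P`:
the group `N` generated by the translations along the lines retracts to the group generated by
the translations along finitely many lines through the base point, and the translations along
the other lines are killed.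
-/

namespace Pool.Agent.H17R2

namespace Lines

variable {Γ V I : Type*} [Group Γ] [MulAction Γ V] [MulAction Γ I] (S : Lines Γ V I)
variable {P : Type*} [Group P]

namespace Mill

variable {S} (M : Mill S)

lemma rep_ne_one {x : Γ} {i : I} {h : Γ} {t : List (I × Γ)} (hr : M.Rep x ((i, h) :: t)) :
    x ≠ 1 := by
  have hi : i ∈ M.J1 := M.rep_head hr i h t rfl
  have hh : h ∈ S.H i ∧ h ≠ 1 := by
    cases hr with
    | cons _ _ g _ _ hh h1 _ _ => exact ⟨hh, h1⟩
  rintro rfl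
  have hb := M.ping hr i h t rfl S.v0 M.w0
  have hm := M.move hb hh.1 hh.2 S.v0 M.w0
  rw [smul_inv_smul, one_smul, sub_self, abs_zero, mul_zero] at hm
  have hK := S.hK
  have hL := L_pos (S := S) i
  nlinarith

/-- Normal forms with values. -/
inductive VRep (Φ : Subgroup (Γ × P)) (val : I → Γ → P) : Γ → P → List (I × Γ) → Prop
  | base (n : Γ) (p : P) (h : (n, p) ∈ Φ) : VRep Φ val n p []
  | cons (i : I) (h g : Γ) (q : P) (l : List (I × Γ)) (hi : i ∈ M.J1) (hh : h ∈ S.H i) (h1 : h ≠ 1)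
      (hr : VRep Φ val g q l) (hne : ∀ j k t, l = (j, k) :: t → ¬ S.Same i j) :
      VRep Φ val (h * g) (val i h * q) ((i, h) :: l)

/-- The graph of the extension. -/
def nxt (Φ : Subgroup (Γ × P)) (val : I → Γ → P) : Subgroup (Γ × P) :=
  Subgroup.closure ((Φ : Set (Γ × P)) ∪ {x | ∃ i ∈ M.J1, x.1 ∈ S.H i ∧ x.2 = val i x.1})

/-- Compatible values. -/
structure Val (Φ : Subgroup (Γ × P)) (val : I → Γ → P) : Prop where
  mul : ∀ i ∈ M.J1, ∀ h ∈ S.H i, ∀ h' ∈ S.H i, val i (h * h') = val i h * val i h'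
  eqv : ∀ i ∈ M.J1, ∀ h ∈ S.H i, ∀ n p, (n, p) ∈ Φ → val (n • i) (n * h * n⁻¹) = p * val i h * p⁻¹
  same : ∀ i j, S.Same i j → ∀ h ∈ S.H i, val i h = val j h

/-- The graph of a homomorphism on `M.N`. -/
structure Gr (M : Mill S) (Φ : Subgroup (Γ × P)) : Prop where
  g1 : ∀ x ∈ Φ, x.1 ∈ M.N
  g2 : ∀ n ∈ M.N, ∃ p, (n, p) ∈ Φ
  g3 : ∀ p, ((1 : Γ), p) ∈ Φ → p = 1

variable {Φ : Subgroup (Γ × P)} {val : I → Γ → P}

lemma Val.one (hv : M.Val Φ val) {i : I} (hi : i ∈ M.J1) : val i 1 = 1 := by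
  have := hv.mul i hi 1 (S.H i).one_mem 1 (S.H i).one_mem
  rw [one_mul] at this
  exact (left_eq_mul.1 this)

lemma Val.inv (hv : M.Val Φ val) {i : I} (hi : i ∈ M.J1) {h : Γ} (hh : h ∈ S.H i) :
    val i h⁻¹ = (val i h)⁻¹ := by
  have := hv.mul i hi h⁻¹ ((S.H i).inv_mem hh) h hh
  rw [inv_mul_cancel, Val.one M hv hi] at this
  exact eq_inv_of_mul_eq_one_left this.symm

lemma vrep_rep (hg : M.Gr Φ) {x : Γ} {p : P} {l : List (I × Γ)} (h : M.VRep Φ val x p l) :
    M.Rep x l := by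
  induction h with
  | base n p h => exact Rep.base n (hg.g1 _ h)
  | cons i h g q l hi hh h1 hr hne ih => exact Rep.cons i h g l hi hh h1 ih hne

lemma vrep_mul_N (hg : M.Gr Φ) (hv : M.Val Φ val) {g : Γ} {q : P} {l : List (I × Γ)}
    (h : M.VRep Φ val g q l) : ∀ n p, (n, p) ∈ Φ →
      M.VRep Φ val (n * g) (p * q) (l.map fun x => (n • x.1, n * x.2 * n⁻¹)) := by
  induction h with
  | base m r hm => intro n p hn; exact VRep.base _ _ (Φ.mul_mem hn hm)
  | cons i h g q l hi hh h1 hr hne ih =>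
    intro n p hn
    have hnN := hg.g1 _ hn
    have e : n * (h * g) = (n * h * n⁻¹) * (n * g) := by group
    have e2 : p * (val i h * q) = val (n • i) (n * h * n⁻¹) * (p * q) := by
      rw [hv.eqv i hi h hh n p hn]; group
    rw [e, e2, List.map_cons]
    refine VRep.cons _ _ _ _ _ (M.J1_smul n hnN i hi) (S.H_smul n i h hh) ?_ (ih n p hn) ?_
    · intro h2
      apply h1
      have := congrArg (fun z => n⁻¹ * z * n) h2
      simpa [mul_assoc] using this
    · intro j k t hl hs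
      cases l with
      | nil => simp at hl
      | cons x t' =>
        obtain ⟨j', k'⟩ := x
        simp only [List.map_cons, List.cons.injEq, Prod.mk.injEq] at hl
        obtain ⟨⟨rfl, _⟩, _⟩ := hl
        refine hne j' k' t' rfl ?_
        have := Same.smul S hs n⁻¹
        rwa [inv_smul_smul, inv_smul_smul] at this

lemma vrep_mul_H (hv : M.Val Φ val) {g : Γ} {q : P} {l : List (I × Γ)}
    (h : M.VRep Φ val g q l) (i : I) (hi : i ∈ M.J1) (x : Γ)
    (hx : x ∈ S.H i) : ∃ l', M.VRep Φ val (x * g) (val i x * q) l' := by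
  by_cases hx1 : x = 1
  · subst hx1
    rw [Val.one M hv hi, one_mul, one_mul]
    exact ⟨l, h⟩
  cases h with
  | base n p hn =>
    exact ⟨_, VRep.cons i x _ _ [] hi hx hx1 (VRep.base _ _ hn) (by simp)⟩
  | cons j k g' q' t hj hk hk1 hr hne =>
    by_cases hs : S.Same i j
    · have hx' : x ∈ S.H j := hs.1 ▸ hx
      have e : val i x * (val j k * q') = val j (x * k) * q' := by
        rw [hv.same i j hs x hx, hv.mul j hj x hx' k hk, mul_assoc]
      rw [← mul_assoc, e]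
      by_cases hxk : x * k = 1
      · refine ⟨t, ?_⟩
        rw [hxk, Val.one M hv hj, one_mul, one_mul]; exact hr
      · exact ⟨(j, x * k) :: t, VRep.cons j (x * k) g' q' t hj ((S.H j).mul_mem hx' hk) hxk hr hne⟩
    · refine ⟨(i, x) :: (j, k) :: t, ?_⟩
      refine VRep.cons i x _ _ _ hi hx hx1 (VRep.cons j k g' q' t hj hk hk1 hr hne) ?_
      intro j' k' t' hl
      simp only [List.cons.injEq, Prod.mk.injEq] at hl
      obtain ⟨⟨rfl, _⟩, _⟩ := hl
      exact hs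

lemma exists_vrep (hg : M.Gr Φ) (hv : M.Val Φ val) {z : Γ × P} (hz : z ∈ M.nxt Φ val) :
    ∃ l, M.VRep Φ val z.1 z.2 l := by
  unfold nxt at hz
  induction hz using Subgroup.closure_induction_left with
  | one => exact ⟨[], VRep.base 1 1 Φ.one_mem⟩
  | mul_left a ha y hy ih =>
    obtain ⟨l, hl⟩ := ih
    rcases ha with ha | ⟨i, hi, h1, h2⟩
    · exact ⟨_, M.vrep_mul_N hg hv hl a.1 a.2 ha⟩
    · obtain ⟨l', hl'⟩ := M.vrep_mul_H hv hl i hi a.1 h1
      refine ⟨l', ?_⟩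
      rw [Prod.fst_mul, Prod.snd_mul, h2]
      exact hl'
  | inv_mul_cancel a ha y hy ih =>
    obtain ⟨l, hl⟩ := ih
    rcases ha with ha | ⟨i, hi, h1, h2⟩
    · exact ⟨_, M.vrep_mul_N hg hv hl a⁻¹.1 a⁻¹.2 (Φ.inv_mem ha)⟩
    · obtain ⟨l', hl'⟩ := M.vrep_mul_H hv hl i hi a.1⁻¹ ((S.H i).inv_mem h1)
      refine ⟨l', ?_⟩
      rw [Prod.fst_mul, Prod.snd_mul, Prod.fst_inv, Prod.snd_inv, h2, ← Val.inv M hv hi h1]
      exact hl'

/-- One step of the construction. -/
lemma nxt_gr (hg : M.Gr Φ) (hv : M.Val Φ val) : Gr M.next (M.nxt Φ val) := by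
  refine ⟨?_, ?_, ?_⟩
  · intro x hx
    obtain ⟨l, hl⟩ := M.exists_vrep hg hv hx
    exact M.rep_mem (M.vrep_rep hg hl)
  · intro n hn
    change n ∈ M.N' at hn
    unfold N' at hn
    induction hn using Subgroup.closure_induction_left with
    | one => exact ⟨1, Subgroup.one_mem _⟩
    | mul_left a ha y hy ih =>
      obtain ⟨q, hq⟩ := ih
      rcases ha with ha | ha
      · obtain ⟨p, hp⟩ := hg.g2 a ha
        exact ⟨p * q, (M.nxt Φ val).mul_mem
          (show (a, p) ∈ M.nxt Φ val from Subgroup.subset_closure (Or.inl hp)) hq⟩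
      · obtain ⟨i, hi, ha⟩ := Set.mem_iUnion₂.mp ha
        exact ⟨val i a * q, (M.nxt Φ val).mul_mem
          (show (a, val i a) ∈ M.nxt Φ val from
            Subgroup.subset_closure (Or.inr ⟨i, hi, ha, rfl⟩)) hq⟩
    | inv_mul_cancel a ha y hy ih =>
      obtain ⟨q, hq⟩ := ih
      rcases ha with ha | ha
      · obtain ⟨p, hp⟩ := hg.g2 a ha
        exact ⟨p⁻¹ * q, (M.nxt Φ val).mul_mem
          (show (a⁻¹, p⁻¹) ∈ M.nxt Φ val from
            Subgroup.subset_closure (Or.inl (Φ.inv_mem hp))) hq⟩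
      · obtain ⟨i, hi, ha⟩ := Set.mem_iUnion₂.mp ha
        exact ⟨val i a⁻¹ * q, (M.nxt Φ val).mul_mem
          (show (a⁻¹, val i a⁻¹) ∈ M.nxt Φ val from
            Subgroup.subset_closure (Or.inr ⟨i, hi, (S.H i).inv_mem ha, rfl⟩)) hq⟩
  · intro p hp
    obtain ⟨l, hl⟩ := M.exists_vrep hg hv hp
    cases l with
    | nil =>
      generalize h1 : ((1 : Γ), p).1 = x at hl
      generalize h2 : ((1 : Γ), p).2 = y at hl
      cases hl with
      | base _ _ h =>
        simp only at h1 h2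
        subst h1; subst h2
        exact hg.g3 _ h
    | cons x t =>
      exact absurd rfl (M.rep_ne_one (M.vrep_rep hg hl))

lemma le_nxt : Φ ≤ M.nxt Φ val := fun _ hx => Subgroup.subset_closure (Or.inl hx)

lemma mem_nxt {i : I} (hi : i ∈ M.J1) {h : Γ} (hh : h ∈ S.H i) : (h, val i h) ∈ M.nxt Φ val :=
  Subgroup.subset_closure (Or.inr ⟨i, hi, hh, rfl⟩)

end Mill

/-- The first windmill, starting with a ball. -/
def start2 (r0 : ℤ) (hr0 : 0 ≤ r0) (hr : ∀ i, S.K * (2 * r0) ≤ 5 * S.L i) : Mill S where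
  W := {q | S.d S.v0 q ≤ r0}
  N := ⊥
  J := ∅
  w0 := by show S.d S.v0 S.v0 ≤ r0; rw [S.d_self]; exact hr0
  w1 := by
    intro n hn p hp
    rw [Subgroup.mem_bot] at hn
    subst hn
    simpa using hp
  w2 := by simp
  w4 := by
    rintro i - p hp q hq
    have h1 := (S.c_lip i S.v0 p).trans hp
    have h2 := (S.c_lip i S.v0 q).trans hq
    have h3 : |S.c i p - S.c i q| ≤ 2 * r0 := by
      have := abs_sub_le (S.c i p) (S.c i S.v0) (S.c i q)
      rw [abs_sub_comm (S.c i p) (S.c i S.v0)] at this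
      linarith
    have hK := S.hK
    exact (mul_le_mul_of_nonneg_left h3 (by omega)).trans (hr i)
  w5 := by simp
  w6 := by
    intro h hh h1
    exact absurd (Subgroup.mem_bot.mp hh) h1
  w7 := by simp

section main

variable {β : Type*} (bs : β → I) (τ : β → Γ → P)

/-- The induction hypothesis. -/
structure OK (M : Mill S) (Φ : Subgroup (Γ × P)) : Prop where
  gr : M.Gr Φ
  v0 : ∀ b, bs b ∈ M.J
  v1 : ∀ b, ∀ h ∈ S.H (bs b), (h, τ b h) ∈ Φ
  v2 : ∀ j ∈ M.J, (∀ b, ∀ n ∈ M.N, ¬ S.Same (n • bs b) j) → ∀ h ∈ S.H j, (h, (1 : P)) ∈ Φ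

variable {S}

lemma conj_one {Φ : Subgroup (Γ × P)} {n : Γ} {p : P} (hn : (n, p) ∈ Φ) {h : Γ}
    (hh : (h, (1 : P)) ∈ Φ) : (n * h * n⁻¹, (1 : P)) ∈ Φ := by
  have := Φ.mul_mem (Φ.mul_mem hn hh) (Φ.inv_mem hn)
  simpa using this

lemma OK.next {M : Mill S} {Φ : Subgroup (Γ × P)} (h : S.OK bs τ M Φ) :
    S.OK bs τ M.next (M.nxt Φ (fun _ _ => 1)) := by
  have hv : M.Val Φ (fun _ _ => (1 : P)) := ⟨by simp, by simp, by simp⟩
  have hgr := M.nxt_gr h.gr hv
  refine ⟨hgr, fun b => M.subset_J' (Or.inl (h.v0 b)), fun b x hx => M.le_nxt (h.v1 b x hx), ?_⟩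
  rintro j ⟨n, hn, i, hi, hs⟩ hj x hx
  obtain ⟨p, hp⟩ := hgr.g2 n hn
  have hx2 : n⁻¹ * x * n ∈ S.H i := by
    rw [← hs.1, S.mem_H_smul] at hx
    exact hx
  have key : (n⁻¹ * x * n, (1 : P)) ∈ M.nxt Φ (fun _ _ => 1) := by
    rcases hi with hi | hi
    · refine M.le_nxt (h.v2 i hi ?_ _ hx2)
      intro b m hm hsm
      refine hj b (n * m) (M.N'.mul_mem hn (M.le_N' hm)) ?_
      rw [mul_smul]
      exact Same.trans S (Same.smul S hsm n) hs
    · exact M.mem_nxt hi hx2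
  have := conj_one hp key
  have e : n * (n⁻¹ * x * n) * n⁻¹ = x := by group
  rwa [e] at this

lemma OK.start (r0 : ℤ) (hr0 : 0 ≤ r0) (hr : ∀ i, S.K * (2 * r0) ≤ 5 * S.L i)
    (hbs : ∀ b, ∃ p q, S.d S.v0 p ≤ r0 ∧ S.d S.v0 q ≤ r0 ∧
      S.L (bs b) ≤ S.K * |S.c (bs b) p - S.c (bs b) q|)
    (hE : ∀ g b b', S.Same (g • bs b) (bs b') → b = b' ∧ g ∈ S.H (bs b))
    (hτ : ∀ b, ∀ h ∈ S.H (bs b), ∀ h' ∈ S.H (bs b), τ b (h * h') = τ b h * τ b h') :
    ∃ Φ : Subgroup (Γ × P), S.OK bs τ (S.start2 r0 hr0 hr).next Φ := by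
  classical
  set M := S.start2 r0 hr0 hr with hM
  have hMN : M.N = ⊥ := rfl
  let val : I → Γ → P := fun i h =>
    if H : ∃ b, S.Same (bs b) i then τ (Classical.choose H) h else 1
  have hval : ∀ b i, S.Same (bs b) i → ∀ h, val i h = τ b h := by
    intro b i hb h
    have H : ∃ b, S.Same (bs b) i := ⟨b, hb⟩
    have h1 := Classical.choose_spec H
    have h2 : S.Same ((1 : Γ) • bs b) (bs (Classical.choose H)) := by
      rw [one_smul]; exact Same.trans S hb (Same.symm S h1)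
    have h3 := (hE 1 _ _ h2).1
    simp only [val]
    rw [dif_pos H, ← h3]
  have hval0 : ∀ i, (∀ b, ¬ S.Same (bs b) i) → ∀ h, val i h = 1 := by
    intro i hi h
    simp only [val]
    rw [dif_neg (by push Not; exact hi)]
  have hgr : M.Gr (⊥ : Subgroup (Γ × P)) := by
    refine ⟨?_, ?_, ?_⟩
    · intro x hx
      rw [Subgroup.mem_bot] at hx
      subst hx
      exact M.N.one_mem
    · intro n hn
      rw [hMN, Subgroup.mem_bot] at hn
      subst hn
      exact ⟨1, Subgroup.one_mem _⟩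
    · intro p hp
      rw [Subgroup.mem_bot] at hp
      exact (Prod.ext_iff.1 hp).2
  have hv : M.Val ⊥ val := by
    refine ⟨?_, ?_, ?_⟩
    · intro i _ h hh h' hh'
      by_cases H : ∃ b, S.Same (bs b) i
      · obtain ⟨b, hb⟩ := H
        rw [hval b i hb, hval b i hb, hval b i hb]
        rw [← hb.1] at hh hh'
        exact hτ b h hh h' hh'
      · push Not at H
        rw [hval0 i H, hval0 i H, hval0 i H, one_mul]
    · intro i _ h hh n p hn
      rw [Subgroup.mem_bot] at hn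
      obtain ⟨h1, h2⟩ := Prod.ext_iff.1 hn
      simp only at h1 h2
      subst h1; subst h2
      simp
    · intro i j hij h _
      by_cases H : ∃ b, S.Same (bs b) i
      · obtain ⟨b, hb⟩ := H
        rw [hval b i hb, hval b j (Same.trans S hb hij)]
      · push Not at H
        rw [hval0 i H, hval0 j (fun b hb => H b (Same.trans S hb (Same.symm S hij)))]
  have hgr' := M.nxt_gr hgr hv
  have hJ1 : ∀ b, bs b ∈ M.J1 := by
    intro b
    obtain ⟨p, q, hp, hq, h⟩ := hbs b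
    exact ⟨Set.notMem_empty _, p, hp, q, hq, h⟩
  refine ⟨M.nxt ⊥ val, hgr', fun b => M.subset_J' (Or.inr (hJ1 b)), ?_, ?_⟩
  · intro b h hh
    have := M.mem_nxt (Φ := ⊥) (val := val) (hJ1 b) hh
    rwa [hval b _ (Same.refl S _)] at this
  · rintro j ⟨n, hn, i, hi, hs⟩ hj x hx
    obtain ⟨p, hp⟩ := hgr'.g2 n hn
    have hx2 : n⁻¹ * x * n ∈ S.H i := by
      rw [← hs.1, S.mem_H_smul] at hx
      exact hx
    rcases hi with hi | hi
    · exact absurd hi (Set.notMem_empty _)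
    have hi0 : ∀ b, ¬ S.Same (bs b) i := by
      intro b hb
      exact hj b n hn (Same.trans S (Same.smul S hb n) hs)
    have key := M.mem_nxt (Φ := ⊥) (val := val) hi hx2
    rw [hval0 i hi0] at key
    have := conj_one hp key
    have e : n * (n⁻¹ * x * n) * n⁻¹ = x := by group
    rwa [e] at this

/-- The sequence of windmills with their graphs. -/
def vmill (M : Mill S) (Φ : Subgroup (Γ × P)) : ℕ → Σ _ : Mill S, Subgroup (Γ × P)
  | 0 => ⟨M, Φ⟩
  | n + 1 => ⟨(vmill M Φ n).1.next, (vmill M Φ n).1.nxt (vmill M Φ n).2 (fun _ _ => 1)⟩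

/-- **Cohen-Lyndon type theorem.** -/
theorem exists_hom (r0 : ℤ) (hr0 : 0 ≤ r0) (hr : ∀ i, S.K * (2 * r0) ≤ 5 * S.L i)
    (hbs : ∀ b, ∃ p q, S.d S.v0 p ≤ r0 ∧ S.d S.v0 q ≤ r0 ∧
      S.L (bs b) ≤ S.K * |S.c (bs b) p - S.c (bs b) q|)
    (hE : ∀ g b b', S.Same (g • bs b) (bs b') → b = b' ∧ g ∈ S.H (bs b))
    (hτ : ∀ b, ∀ h ∈ S.H (bs b), ∀ h' ∈ S.H (bs b), τ b (h * h') = τ b h * τ b h') :
    ∃ ρ : Γ → P, (∀ x ∈ ⨆ i, S.H i, ∀ y ∈ ⨆ i, S.H i, ρ (x * y) = ρ x * ρ y) ∧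
      (∀ b, ∀ h ∈ S.H (bs b), ρ h = τ b h) ∧
      (∀ g, g ∉ ⨆ i, S.H i → ∀ b, ∀ h ∈ S.H (bs b), ρ (g * h * g⁻¹) = 1) := by
  classical
  obtain ⟨Φ, hΦ⟩ := OK.start (S := S) bs τ r0 hr0 hr hbs hE hτ
  obtain ⟨M, hM⟩ : ∃ M, M = (S.start2 r0 hr0 hr).next := ⟨_, rfl⟩
  rw [← hM] at hΦ
  let A := fun n => (vmill M Φ n).1
  let B := fun n => (vmill M Φ n).2
  have hOK : ∀ n, S.OK bs τ (A n) (B n) := by
    intro n
    induction n with
    | zero => exact hΦ
    | succ n ih => exact OK.next bs τ ih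
  have hB : ∀ n, B n ≤ B (n + 1) := by
    intro n
    show (vmill M Φ n).2 ≤ (vmill M Φ n).1.nxt (vmill M Φ n).2 (fun _ _ => 1)
    exact (vmill M Φ n).1.le_nxt
  have hmono : Monotone B := monotone_nat_of_le_succ hB
  have hANmono : Monotone (fun n => (A n).N) := by
    apply monotone_nat_of_le_succ
    intro n
    show (A n).N ≤ (A n).N'
    exact (A n).le_N'
  have hball : ∀ n : ℕ, ∀ q, S.d S.v0 q ≤ n → q ∈ (A n).W := by
    intro n
    induction n with
    | zero =>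
      intro q hq
      have := S.d_zero q (by simpa using hq)
      subst this
      exact (A 0).w0
    | succ n ih =>
      intro q hq
      obtain ⟨p, hp, hpq⟩ := S.d_step n q (by simpa using hq)
      exact ⟨1, (A n).N'.one_mem, p, ih p hp, by rwa [one_smul]⟩
  have hJ : ∀ i, ∃ n, i ∈ (A n).J := by
    intro i
    obtain ⟨p, q, hpq⟩ := S.c_unb i
    obtain ⟨n, hn1, hn2⟩ : ∃ n : ℕ, S.d S.v0 p ≤ n ∧ S.d S.v0 q ≤ n := by
      refine ⟨(S.d S.v0 p).toNat + (S.d S.v0 q).toNat, ?_, ?_⟩ <;> push_cast <;> omega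
    refine ⟨n + 1, ?_⟩
    refine (A n).subset_J' ?_
    by_cases h : i ∈ (A n).J
    · exact Or.inl h
    · exact Or.inr ⟨h, p, hball n p hn1, q, hball n q hn2, hpq⟩
  have hN1 : ∀ n, (A n).N ≤ ⨆ i, S.H i := by
    have hN0 : ∀ M' : Mill S, M'.N ≤ ⨆ i, S.H i → M'.next.N ≤ ⨆ i, S.H i := by
      intro M' hM'
      show M'.N' ≤ _
      unfold Mill.N'
      rw [Subgroup.closure_le]
      rintro x (hx | hx)
      · exact hM' hx
      · obtain ⟨i, hi, hx⟩ := Set.mem_iUnion₂.mp hx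
        exact Subgroup.mem_iSup_of_mem i hx
    intro n
    induction n with
    | zero =>
      show M.N ≤ _
      rw [hM]
      apply hN0
      show (⊥ : Subgroup Γ) ≤ _
      exact bot_le
    | succ n ih => exact hN0 _ ih
  have hN2 : ∀ x ∈ ⨆ i, S.H i, ∃ n, x ∈ (A n).N := by
    intro x hx
    have hle : (⨆ i, S.H i) ≤ ⨆ n, (A n).N := by
      refine iSup_le fun i => ?_
      obtain ⟨n, hn⟩ := hJ i
      exact ((A n).w2 i hn).trans (le_iSup (fun n => (A n).N) n)
    exact (Subgroup.mem_iSup_of_directed hANmono.directed_le).mp (hle hx)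
  have hex : ∀ x ∈ ⨆ i, S.H i, ∃ n p, (x, p) ∈ B n := by
    intro x hx
    obtain ⟨n, hn⟩ := hN2 x hx
    obtain ⟨p, hp⟩ := (hOK n).gr.g2 x hn
    exact ⟨n, p, hp⟩
  have hun : ∀ x n p n' p', (x, p) ∈ B n → (x, p') ∈ B n' → p = p' := by
    intro x n p n' p' h h'
    have h1 := hmono (le_max_left n n') h
    have h2 := hmono (le_max_right n n') h'
    have h3 := (B (max n n')).mul_mem h1 ((B (max n n')).inv_mem h2)
    have h4 : ((1 : Γ), p * p'⁻¹) ∈ B (max n n') := by simpa using h3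
    have := (hOK _).gr.g3 _ h4
    exact mul_inv_eq_one.1 this
  let ρ : Γ → P := fun x => if H : ∃ p n, (x, p) ∈ B n then Classical.choose H else 1
  have hρ : ∀ x n p, (x, p) ∈ B n → ρ x = p := by
    intro x n p h
    have H : ∃ p n, (x, p) ∈ B n := ⟨p, n, h⟩
    simp only [ρ]
    rw [dif_pos H]
    obtain ⟨n', h'⟩ := Classical.choose_spec H
    exact hun x n' _ n p h' h
  refine ⟨ρ, ?_, ?_, ?_⟩
  · intro x hx y hy
    obtain ⟨n, p, hp⟩ := hex x hx
    obtain ⟨n', p', hp'⟩ := hex y hy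
    have h1 := hmono (le_max_left n n') hp
    have h2 := hmono (le_max_right n n') hp'
    have h3 := (B (max n n')).mul_mem h1 h2
    rw [hρ x n p hp, hρ y n' p' hp']
    exact hρ _ _ _ h3
  · intro b h hh
    exact hρ h 0 _ ((hOK 0).v1 b h hh)
  · intro g hg b h hh
    obtain ⟨n, hn⟩ := hJ (g • bs b)
    refine hρ _ n 1 ((hOK n).v2 _ hn ?_ _ (S.H_smul g _ h hh))
    intro b' m hm hs
    apply hg
    have h1 : S.Same ((g⁻¹ * m) • bs b') (bs b) := by
      have := Same.smul S hs g⁻¹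
      rwa [inv_smul_smul, smul_smul] at this
    obtain ⟨rfl, h2⟩ := hE _ _ _ h1
    have h3 : g⁻¹ * m ∈ ⨆ i, S.H i := Subgroup.mem_iSup_of_mem (bs b') h2
    have h4 := Subgroup.mul_mem _ (hN1 n hm) (Subgroup.inv_mem _ h3)
    have e : m * (g⁻¹ * m)⁻¹ = g := by group
    rwa [e] at h4

end main

end Lines

end Pool.Agent.H17R2
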