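import Mathlib
import Pool.Agent.H17R2.TorsionFree
import Pool.Agent.TH74.RS.Mill2

set_option autoImplicit false

/-!
# Eight semipositive small cancellation words in a free group of rank two
-/

namespace Pool.Agent.TH74.RS

open FreeGroup Pool.Agent.H17R2

/-- Period of the `i`-th word. -/
def per (i : ℤ) : ℤ := 60 * (359 + i)

/-- Position of the `j`-th letter `y`. -/
def pos (i j : ℤ) : ℤ := (j / 60) * per i + (j % 60) * (239 + 2 * (j % 60) + i)

lemma pos_succ (i j : ℤ) : pos i (j + 1) = pos i j + (241 + 4 * (j % 60) + i) := by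
  unfold pos per
  by_cases h : j % 60 + 1 < 60
  · have e1 : (j + 1) % 60 = j % 60 + 1 := by omega
    have e2 : (j + 1) / 60 = j / 60 := by omega
    rw [e1, e2]; ring
  · have h5 : j % 60 = 59 := by omega
    have e1 : (j + 1) % 60 = 0 := by omega
    have e2 : (j + 1) / 60 = j / 60 + 1 := by omega
    rw [e1, e2, h5]; ring

lemma pos_add (i j m : ℤ) : pos i (j + m * 60) = pos i j + m * per i := by
  unfold pos
  have e1 : (j + m * 60) % 60 = j % 60 := by omega
  have e2 : (j + m * 60) / 60 = j / 60 + m := by omega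
  rw [e1, e2]; ring

section pos

variable {i : ℤ} (hi : 0 ≤ i) (hi3 : i ≤ 3)

include hi hi3

lemma pos_lt_succ (j : ℤ) : pos i j + 240 < pos i (j + 1) := by
  rw [pos_succ]
  omega

lemma pos_succ_le (j : ℤ) : pos i (j + 1) ≤ pos i j + 480 := by
  rw [pos_succ]
  omega

lemma pos_strictMono : StrictMono (pos i) := by
  apply strictMono_int_of_lt_succ
  intro j
  have := pos_lt_succ hi hi3 j
  omega

omit hi hi3 in
/-- Occurrence of the letter `y`. -/
def isY (i : ℤ) (z : ℤ) : Prop := ∃ j, pos i j = z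

omit hi hi3 in
lemma isY_add (i z m : ℤ) : isY i (z + m * per i) ↔ isY i z := by
  constructor
  · rintro ⟨j, hj⟩
    refine ⟨j + (-m) * 60, ?_⟩
    rw [pos_add, hj]; ring
  · rintro ⟨j, hj⟩
    exact ⟨j + m * 60, by rw [pos_add, hj]⟩

lemma exists_pos (a : ℤ) : ∃ j, a ≤ pos i j ∧ pos i j ≤ a + 479 := by
  have hlow : ∀ k : ℕ, pos i (-(k : ℤ)) ≤ -k := by
    intro k
    induction k with
    | zero => simp [pos]
    | succ k ih =>
      have := pos_lt_succ hi hi3 (-((k + 1 : ℕ) : ℤ))
      rw [show -((k + 1 : ℕ) : ℤ) + 1 = -(k : ℤ) by push_cast; ring] at this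
      push_cast at this ⊢
      omega
  have hhigh : ∀ k : ℕ, (k : ℤ) ≤ pos i k := by
    intro k
    induction k with
    | zero => simp [pos]
    | succ k ih =>
      have := pos_lt_succ hi hi3 k
      push_cast at this ⊢
      omega
  obtain ⟨j, hj1, hj2⟩ := Int.exists_least_of_bdd (P := fun j => a ≤ pos i j)
    ⟨-|a| - 1, by
      intro z hz
      by_contra hlt
      push Not at hlt
      have h1 := hlow (|a| + 1).toNat
      have h2 : ((|a| + 1).toNat : ℤ) = |a| + 1 := Int.toNat_of_nonneg (by positivity)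
      rw [h2] at h1
      have h3 := (pos_strictMono hi hi3).monotone (show z ≤ -(|a| + 1) by omega)
      have h4 := neg_abs_le a
      omega⟩
    ⟨|a|, by
      have h1 := hhigh |a|.toNat
      have h2 : (|a|.toNat : ℤ) = |a| := Int.toNat_of_nonneg (by positivity)
      rw [h2] at h1
      have := le_abs_self a
      omega⟩
  refine ⟨j, hj1, ?_⟩
  have h1 : ¬ a ≤ pos i (j - 1) := fun h => by
    have := hj2 _ h
    omega
  have h2 := pos_succ_le hi hi3 (j - 1)
  rw [sub_add_cancel] at h2
  omega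

/-- A window of length `960` determines the word and the position modulo the period. -/
lemma window {i' : ℤ} (hi' : 0 ≤ i') (hi3' : i' ≤ 3) (a b : ℤ)
    (h : ∀ k : ℤ, 0 ≤ k → k < 960 → (isY i (a + k) ↔ isY i' (b + k))) :
    i = i' ∧ ∃ m : ℤ, b = a + m * per i := by
  obtain ⟨j, hj1, hj2⟩ := exists_pos hi hi3 a
  have hj3 := pos_succ_le hi hi3 j
  have hj4 := pos_lt_succ hi hi3 j
  have y0 : isY i' (b + (pos i j - a)) := by
    rw [← h (pos i j - a) (by omega) (by omega)]
    exact ⟨j, by ring⟩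
  have y1 : isY i' (b + (pos i (j + 1) - a)) := by
    rw [← h (pos i (j + 1) - a) (by omega) (by omega)]
    exact ⟨j + 1, by ring⟩
  obtain ⟨j', hj'⟩ := y0
  obtain ⟨j'', hj''⟩ := y1
  have hlt : j' < j'' := (pos_strictMono hi' hi3').lt_iff_lt.1 (by omega)
  have heq : j'' = j' + 1 := by
    by_contra hne
    have h1 : pos i' (j' + 1) < pos i' j'' := pos_strictMono hi' hi3' (by omega)
    have h2 : pos i' j' < pos i' (j' + 1) := pos_strictMono hi' hi3' (by omega)
    have h3 : isY i (a + (pos i' (j' + 1) - b)) := by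
      rw [h (pos i' (j' + 1) - b) (by omega) (by omega)]
      exact ⟨j' + 1, by ring⟩
    obtain ⟨r, hr⟩ := h3
    have h4 : j < r := (pos_strictMono hi hi3).lt_iff_lt.1 (by omega)
    have h5 : r < j + 1 := (pos_strictMono hi hi3).lt_iff_lt.1 (by omega)
    omega
  rw [heq, pos_succ] at hj''
  have hs := pos_succ i j
  have hmod : 4 * (j' % 60) + i' = 4 * (j % 60) + i := by omega
  have hii : i = i' := by omega
  subst hii
  have hmod' : j' % 60 = j % 60 := by omega
  refine ⟨rfl, j' / 60 - j / 60, ?_⟩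
  have h6 : pos i j' = pos i j + (j' / 60 - j / 60) * per i := by
    unfold pos
    rw [hmod']; ring
  linarith

lemma not_isY_succ (z : ℤ) (h : isY i z) : ¬ isY i (z + 1) := by
  rintro ⟨r, hr⟩
  obtain ⟨j, hj⟩ := h
  have h1 : j < r := (pos_strictMono hi hi3).lt_iff_lt.1 (by omega)
  have h2 := pos_lt_succ hi hi3 j
  have h3 := (pos_strictMono hi hi3).monotone (show j + 1 ≤ r by omega)
  omega

end pos

open Classical in
/-- The biinfinite word: `x` everywhere except for `y` (or its inverse) at the positions `pos i j`. -/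
noncomputable def wd (i : ℤ) (σ : Bool) (z : ℤ) : Bool × Bool :=
  if isY i z then (true, σ) else (false, true)

lemma wd_pos {i : ℤ} {σ : Bool} {z : ℤ} (h : isY i z) : wd i σ z = (true, σ) := if_pos h
lemma wd_neg {i : ℤ} {σ : Bool} {z : ℤ} (h : ¬ isY i z) : wd i σ z = (false, true) := if_neg h

lemma wd_eq_iff {i i' : ℤ} {σ σ' : Bool} {z z' : ℤ} (h : wd i σ z = wd i' σ' z') :
    (isY i z ↔ isY i' z') ∧ (isY i z → σ = σ') := by
  by_cases h1 : isY i z
  · by_cases h2 : isY i' z'
    · rw [wd_pos h1, wd_pos h2] at h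
      simp at h
      exact ⟨by simp [h1, h2], fun _ => h⟩
    · rw [wd_pos h1, wd_neg h2] at h
      simp at h
  · by_cases h2 : isY i' z'
    · rw [wd_neg h1, wd_pos h2] at h
      simp at h
    · exact ⟨by simp [h1, h2], fun h3 => absurd h3 h1⟩

lemma wd_per (i : ℤ) (σ : Bool) (z m : ℤ) :
    wd i σ (z + m * per i) = wd i σ z := by
  by_cases h : isY i z
  · rw [wd_pos h, wd_pos ((isY_add i z m).2 h)]
  · rw [wd_neg h, wd_neg (fun h' => h ((isY_add i z m).1 h'))]

lemma wd_inv2 (i i' : ℤ) (σ σ' : Bool) (z z' : ℤ) (hz : ¬ isY i z) :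
    wd i σ z ≠ inv2 (wd i' σ' z') := by
  rw [wd_neg hz]
  by_cases h : isY i' z'
  · rw [wd_pos h]; simp [inv2]
  · rw [wd_neg h]; simp [inv2]

lemma wd_red (i : ℤ) (σ : Bool) (z z' : ℤ) : wd i σ z ≠ inv2 (wd i σ z') := by
  by_cases hz : isY i z
  · rw [wd_pos hz]
    by_cases h : isY i z'
    · rw [wd_pos h]; cases σ <;> simp [inv2]
    · rw [wd_neg h]; simp [inv2]
  · exact wd_inv2 i i σ σ z z' hz

lemma nonY {i : ℤ} (hi : 0 ≤ i) (hi3 : i ≤ 3) (a : ℤ) :
    ∃ k : ℤ, 0 ≤ k ∧ k < 2 ∧ ¬ isY i (a + k) := by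
  by_cases h : isY i a
  · exact ⟨1, by norm_num, by norm_num, not_isY_succ hi hi3 a h⟩
  · exact ⟨0, le_rfl, by norm_num, by simpa using h⟩

/-- Comparison of long subwords. -/
lemma wd_key {i i' : ℤ} (hi : 0 ≤ i) (hi3 : i ≤ 3) (hi' : 0 ≤ i') (hi3' : i' ≤ 3)
    {σ σ' : Bool} {t : ℤ} (ht : 960 ≤ t) (a b : ℤ)
    (hab : ∀ k : ℤ, 0 ≤ k → k < t → wd i σ (a + k) = wd i' σ' (b + k)) :
    i = i' ∧ σ = σ' ∧ ∃ m, b = a + m * per i := by
  obtain ⟨h1, h2⟩ := window hi hi3 hi' hi3' a b (fun k hk hk' =>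
    (wd_eq_iff (hab k hk (by omega))).1)
  refine ⟨h1, ?_, h2⟩
  obtain ⟨j, hj1, hj2⟩ := exists_pos hi hi3 a
  have h3 := hab (pos i j - a) (by omega) (by omega)
  exact (wd_eq_iff h3).2 ⟨j, by ring⟩

/-- The words of the example. -/
noncomputable def words : Words Bool where
  B := {b | ∃ (i : ℤ) (σ : Bool), 0 ≤ i ∧ i ≤ 3 ∧ b = (wd i σ, per i)}
  K := 20
  hK := le_rfl
  per := by
    rintro _ ⟨i, σ, hi, hi3, rfl⟩ k
    have := wd_per i σ k 1
    simpa using this
  red := by
    rintro _ ⟨i, σ, hi, hi3, rfl⟩ k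
    exact wd_red i σ _ _
  KL := by
    rintro _ ⟨i, σ, hi, hi3, rfl⟩
    show 20 ≤ per i
    unfold per; omega
  sc := by
    rintro _ ⟨i, σ, hi, hi3, rfl⟩ _ ⟨i', σ', hi', hi3', rfl⟩ s s' ε ε' t h1 h2
    simp only at h1 h2
    have ht : 960 ≤ (t : ℤ) := by
      unfold per at h2
      omega
    cases ε with
    | true =>
      cases ε' with
      | true =>
        obtain ⟨e1, e2, m, hm⟩ := wd_key hi hi3 hi' hi3' ht s s' (fun k hk hk' => by
          have := h1 k.toNat (by omega)
          simp only [lab, Int.toNat_of_nonneg hk] at this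
          exact this)
        subst e1; subst e2
        refine ⟨fun k => ?_, rfl⟩
        simp only [lab]
        rw [hm, show s + m * per i + k = s + k + m * per i by ring, wd_per]
      | false =>
        exfalso
        obtain ⟨k, hk, hk', hky⟩ := nonY hi hi3 s
        have := h1 k.toNat (by omega)
        simp only [lab, Int.toNat_of_nonneg hk] at this
        exact wd_inv2 i i' σ σ' _ _ hky this
    | false =>
      cases ε' with
      | true =>
        exfalso
        obtain ⟨k, hk, hk', hky⟩ := nonY hi' hi3' s'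
        have := h1 k.toNat (by omega)
        simp only [lab, Int.toNat_of_nonneg hk] at this
        exact wd_inv2 i' i σ' σ _ _ hky this.symm
      | false =>
        obtain ⟨e1, e2, m, hm⟩ := wd_key hi hi3 hi' hi3' ht (s - t) (s' - t) (fun k hk hk' => by
          have := h1 (t - 1 - k).toNat (by omega)
          simp only [lab, Int.toNat_of_nonneg (show 0 ≤ (t : ℤ) - 1 - k by omega)] at this
          have := inv2_injective this
          rw [show s - t + k = s - (t - 1 - k) - 1 by ring,
            show s' - t + k = s' - (t - 1 - k) - 1 by ring]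
          exact this)
        subst e1; subst e2
        refine ⟨fun k => ?_, rfl⟩
        simp only [lab]
        rw [show s' - k - 1 = s - k - 1 + m * per i by linarith, wd_per]

lemma prim : words.Prim := by
  rintro _ ⟨i, σ, hi, hi3, rfl⟩ m h0 h1
  by_contra hcon
  push Not at hcon
  simp only at hcon h1
  obtain ⟨-, r, hr⟩ := window hi hi3 hi hi3 0 m (fun k _ _ => by
    have := (wd_eq_iff (hcon k)).1
    rw [zero_add, add_comm m k]
    exact this.symm)
  rw [zero_add] at hr
  rw [hr] at h0 h1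
  have h2 : 0 < per i := by unfold per; omega
  have h3 : 0 < r := by
    by_contra h
    push Not at h
    nlinarith
  have h4 : r < 1 := by
    by_contra h
    push Not at h
    nlinarith
  omega

end Pool.Agent.TH74.RS
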