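import Mathlib
import Pool.Agent.TH74.RS.Wrd

set_option autoImplicit false

/-!
# The eight words generate a free retract of their normal closure
-/

namespace Pool.Agent.TH74.RS

open FreeGroup Pool.Agent.H17R2

/-- The index type of the relators. -/
abbrev Ix := Fin 4 × Bool

/-- The biinfinite words. -/
noncomputable def ww (b : Ix) : ℤ → Bool × Bool := wd ((b.1 : ℕ) : ℤ) b.2

/-- Their periods. -/
def pp (b : Ix) : ℤ := per ((b.1 : ℕ) : ℤ)

/-- The relators. -/
noncomputable def Wb (b : Ix) : FreeGroup Bool := zw (ww b) (pp b)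

lemma hb0 (b : Ix) : 0 ≤ ((b.1 : ℕ) : ℤ) := by positivity

lemma hb3 (b : Ix) : ((b.1 : ℕ) : ℤ) ≤ 3 := by
  have := b.1.2
  omega

lemma ww_mem (b : Ix) : (ww b, pp b) ∈ words.B := ⟨_, b.2, hb0 b, hb3 b, rfl⟩

lemma pp_lb (b : Ix) : 21540 ≤ pp b := by
  have := hb0 b
  unfold pp per; omega

lemma pp_ub (b : Ix) : pp b ≤ 21720 := by
  have := hb3 b
  unfold pp per; omega

/-- The basic lines. -/
noncomputable def bl (b : Ix) : words.toFam.fam :=
  ⟨(Words.ln (ww b) 1 0 true, pp b), (ww b, pp b), ww_mem b, 1, 0, true, rfl⟩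

lemma bl_fst (b : Ix) (k : ℤ) : (bl b).1.1 k = zw (ww b) k := by
  show 1 * zw (ww b) (0 + 1 * k) = _
  rw [one_mul, zero_add, one_mul]

lemma zw_per (b : Ix) (m k : ℤ) : zw (ww b) (k + m * pp b) = Wb b ^ m * zw (ww b) k :=
  zp_mul_period (fun k => (FreeGroup.mk [ww b k] : FreeGroup Bool)) (pp b)
    (words.per_f (ww b, pp b) (ww_mem b)) m k

lemma mem_H (b : Ix) (h : FreeGroup Bool) :
    h ∈ words.toFam.toLines.H (bl b) ↔ ∃ m : ℤ, h = Wb b ^ m := by
  constructor
  · rintro ⟨m, hm⟩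
    refine ⟨m, ?_⟩
    have h1 := hm 0
    change h * (bl b).1.1 0 = (bl b).1.1 (0 + m * pp b) at h1
    rw [bl_fst, bl_fst, zw_per, zw_zero, mul_one, mul_one] at h1
    exact h1
  · rintro ⟨m, rfl⟩
    refine ⟨m, fun k => ?_⟩
    change Wb b ^ m * (bl b).1.1 k = (bl b).1.1 (k + m * pp b)
    rw [bl_fst, bl_fst, zw_per]

lemma Wb_zpow_inj (b : Ix) {m n : ℤ} (h : Wb b ^ m = Wb b ^ n) : m = n := by
  have h1 := isLine_zw (ww b) (words.red _ (ww_mem b)) (m * pp b) (n * pp b)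
  have h2 := zw_per b m 0
  have h3 := zw_per b n 0
  rw [zero_add] at h2 h3
  rw [h2, h3, h] at h1
  change fd _ _ = _ at h1
  rw [fd_self] at h1
  have h4 := abs_eq_zero.1 h1.symm
  have h5 := pp_lb b
  have h6 : (m - n) * pp b = 0 := by linarith
  rcases mul_eq_zero.1 h6 with h7 | h7 <;> omega

open Classical in
/-- The values on the powers of the relators. -/
noncomputable def tau (b : Ix) (h : FreeGroup Bool) : FreeGroup Ix :=
  if H : ∃ m : ℤ, h = Wb b ^ m then FreeGroup.of b ^ (Classical.choose H) else 1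

lemma tau_zpow (b : Ix) (m : ℤ) : tau b (Wb b ^ m) = FreeGroup.of b ^ m := by
  have H : ∃ n : ℤ, Wb b ^ m = Wb b ^ n := ⟨m, rfl⟩
  unfold tau
  rw [dif_pos H]
  have := Wb_zpow_inj b (Classical.choose_spec H)
  rw [← this]

/-- Two basic lines have different translates. -/
lemma same_bl (g : FreeGroup Bool) (b b' : Ix)
    (h : words.toFam.toLines.Same (g • bl b) (bl b')) :
    b = b' ∧ g ∈ words.toFam.toLines.H (bl b) := by
  obtain ⟨-, -, h3⟩ := h
  have hx := words.toFam.line _ (g • bl b).2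
  have hy := words.toFam.line _ (bl b').2
  obtain ⟨s, t, hst, hlt⟩ : ∃ s t : ℤ, |s - t| = 1000 ∧
      words.toFam.T.pr (g • bl b).1.1 ((bl b').1.1 s) <
      words.toFam.T.pr (g • bl b).1.1 ((bl b').1.1 t) := by
    have h4 := h3 ((bl b').1.1 0) ((bl b').1.1 1000)
    change |words.toFam.T.pr (g • bl b).1.1 ((bl b').1.1 0) -
      words.toFam.T.pr (g • bl b).1.1 ((bl b').1.1 1000)| =
      |words.toFam.T.pr (bl b').1.1 ((bl b').1.1 0) -
      words.toFam.T.pr (bl b').1.1 ((bl b').1.1 1000)| at h4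
    rw [hy.pr_self, hy.pr_self] at h4
    norm_num at h4
    rcases lt_trichotomy (words.toFam.T.pr (g • bl b).1.1 ((bl b').1.1 0))
      (words.toFam.T.pr (g • bl b).1.1 ((bl b').1.1 1000)) with h5 | h5 | h5
    · exact ⟨0, 1000, by norm_num, h5⟩
    · rw [h5] at h4; simp at h4
    · exact ⟨1000, 0, by norm_num, h5⟩
  have h4 := h3 ((bl b').1.1 s) ((bl b').1.1 t)
  change |words.toFam.T.pr (g • bl b).1.1 ((bl b').1.1 s) -
      words.toFam.T.pr (g • bl b).1.1 ((bl b').1.1 t)| =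
      |words.toFam.T.pr (bl b').1.1 ((bl b').1.1 s) -
      words.toFam.T.pr (bl b').1.1 ((bl b').1.1 t)| at h4
  rw [hy.pr_self, hy.pr_self, hst] at h4
  obtain ⟨c, ε, hε, hk⟩ := hx.overlap hy s t hlt
  rw [abs_sub_comm, abs_of_pos (sub_pos.2 hlt)] at h4
  rw [h4] at hk
  generalize words.toFam.T.pr (g • bl b).1.1 ((bl b').1.1 s) = a at hk
  have hk' : ∀ k, 0 ≤ k → k ≤ 1000 → g * zw (ww b) (a + k) = zw (ww b') (c + ε * k) := by
    intro k h0 h1
    have := hk k h0 h1
    change g * (bl b).1.1 (a + k) = (bl b').1.1 (c + ε * k) at this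
    rwa [bl_fst, bl_fst] at this
  rcases hε with rfl | rfl
  · have hlab : ∀ k, 0 ≤ k → k < 1000 → ww b (a + k) = ww b' (c + k) := by
      intro k h0 h1
      have e1 := hk' k h0 h1.le
      have e2 := hk' (k + 1) (by omega) (by omega)
      rw [← add_assoc, one_mul, ← add_assoc, zw_succ, zw_succ, ← mul_assoc, e1, one_mul] at e2
      exact Words.mk_single_inj (mul_left_cancel e2)
    obtain ⟨e1, e2, m, hm⟩ := wd_key (hb0 b) (hb3 b) (hb0 b') (hb3 b') (by norm_num) a c hlab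
    have hbb : b = b' := by
      refine Prod.ext (Fin.ext ?_) e2
      exact_mod_cast e1
    subst hbb
    refine ⟨rfl, (mem_H b g).2 ⟨m, ?_⟩⟩
    have h5 := hk' 0 le_rfl (by norm_num)
    rw [add_zero, mul_zero, add_zero, hm, show per ((b.1 : ℕ) : ℤ) = pp b from rfl, zw_per] at h5
    exact mul_right_cancel h5
  · exfalso
    obtain ⟨k, h0, h1, hk2⟩ := nonY (hb0 b) (hb3 b) a
    have e1 := hk' k h0 (by omega)
    have e2 := hk' (k + 1) (by omega) (by omega)
    have e3 := zw_succ (ww b') (c + -1 * (k + 1))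
    rw [show c + -1 * (k + 1) + 1 = c + -1 * k by ring] at e3
    rw [← add_assoc, zw_succ, ← mul_assoc, e1, e3, mul_assoc] at e2
    have e4 : (mk [ww b' (c + -1 * (k + 1))] * mk [ww b (a + k)] : FreeGroup Bool) = 1 := by
      rw [← mul_right_inj (zw (ww b') (c + -1 * (k + 1))), mul_one]
      exact e2
    have e5 : (mk [ww b (a + k)] : FreeGroup Bool) = mk [inv2 (ww b' (c + -1 * (k + 1)))] := by
      rw [mk_inv2]
      exact eq_inv_of_mul_eq_one_right e4
    exact wd_inv2 _ _ _ _ _ _ hk2 (Words.mk_single_inj e5)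

/-- The normal closure of the relators. -/
noncomputable def NN : Subgroup (FreeGroup Bool) := words.toFam.N

theorem exists_rho : ∃ ρ : FreeGroup Bool → FreeGroup Ix,
    (∀ x ∈ NN, ∀ y ∈ NN, ρ (x * y) = ρ x * ρ y) ∧ (∀ b, ρ (Wb b) = FreeGroup.of b) ∧
    (∀ g, g ∉ NN → ∀ b, ρ (g * Wb b * g⁻¹) = 1) := by
  obtain ⟨ρ, h1, h2, h3⟩ := Lines.exists_hom (S := words.toFam.toLines) bl tau 1100 (by norm_num)
    (by
      rintro ⟨_, _, ⟨i, σ, hi, hi3, rfl⟩, g, s, ε, rfl⟩
      show 20 * (2 * 1100) ≤ 5 * per i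
      unfold per; omega)
    (by
      intro b
      refine ⟨(bl b).1.1 0, (bl b).1.1 1100, ?_, ?_, ?_⟩
      · show words.toFam.T.d 1 ((bl b).1.1 0) ≤ 1100
        rw [bl_fst, zw_zero, ZTree.d_self]
        norm_num
      · show words.toFam.T.d 1 ((bl b).1.1 1100) ≤ 1100
        have h1 := words.toFam.line _ (bl b).2 0 1100
        rw [bl_fst, zw_zero] at h1
        rw [h1]; norm_num
      · show pp b ≤ 20 * |words.toFam.T.pr (bl b).1.1 ((bl b).1.1 0) -
          words.toFam.T.pr (bl b).1.1 ((bl b).1.1 1100)|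
        rw [(words.toFam.line _ (bl b).2).pr_self, (words.toFam.line _ (bl b).2).pr_self]
        have := pp_ub b
        norm_num
        omega)
    same_bl
    (by
      intro b h hh h' hh'
      obtain ⟨m, rfl⟩ := (mem_H b h).1 hh
      obtain ⟨n, rfl⟩ := (mem_H b h').1 hh'
      rw [← zpow_add, tau_zpow, tau_zpow, tau_zpow, zpow_add])
  have hW : ∀ b, Wb b ∈ words.toFam.toLines.H (bl b) := fun b => (mem_H b _).2 ⟨1, by simp⟩
  refine ⟨ρ, h1, ?_, ?_⟩
  · intro b
    rw [h2 b _ (hW b)]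
    have := tau_zpow b 1
    rwa [zpow_one, zpow_one] at this
  · intro g hg b
    exact h3 g hg b _ (hW b)

end Pool.Agent.TH74.RS
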