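import Mathlib
import Pool.Agent.TH74.RS.Base
import Pool.Agent.H139R3.BO.FreeInj

set_option autoImplicit false

/-!
# Retracts of normal subgroups, bi-orders, and elliptic elements
-/

namespace Pool.Agent.TH74.RS

open Pool.Agent.H17R2

/-- A subgroup `P` of `A` together with a retraction from a normal subgroup `N` containing it which
kills the conjugates of `P` by the elements outside of `N`. -/
structure Datum (A P : Type) [Group A] [Group P] where
  N : Subgroup A
  nN : N.Normal
  φ : P →* A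
  φN : ∀ p, φ p ∈ N
  ρ : A → P
  ρmul : ∀ x ∈ N, ∀ y ∈ N, ρ (x * y) = ρ x * ρ y
  ρφ : ∀ p, ρ (φ p) = p
  ρ1 : ∀ g, g ∉ N → ∀ p, ρ (g * φ p * g⁻¹) = 1
  tf : ∀ g, ∀ n : ℕ, 0 < n → g ^ n ∈ N → g ∈ N

/-- The normal positive cone of a bi-order. -/
structure Cone (A : Type) [Group A] where
  P : Set A
  mul : ∀ x ∈ P, ∀ y ∈ P, x * y ∈ P
  conj : ∀ g, ∀ x ∈ P, g * x * g⁻¹ ∈ P
  one : 1 ∉ P
  tot : ∀ x, x ≠ 1 → x ∈ P ∨ x⁻¹ ∈ P

namespace Cone

variable {A : Type} [Group A]

/-- The opposite cone. -/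
def op (K : Cone A) : Cone A where
  P := {x | x⁻¹ ∈ K.P}
  mul x hx y hy := by
    show (x * y)⁻¹ ∈ K.P
    rw [mul_inv_rev]
    exact K.mul _ hy _ hx
  conj g x hx := by
    show (g * x * g⁻¹)⁻¹ ∈ K.P
    have := K.conj g _ hx
    have e : (g * x * g⁻¹)⁻¹ = g * x⁻¹ * g⁻¹ := by group
    rwa [e]
  one := by
    show ¬ ((1 : A)⁻¹ ∈ K.P)
    rw [inv_one]; exact K.one
  tot x hx := by
    show x⁻¹ ∈ K.P ∨ x⁻¹⁻¹ ∈ K.P
    rw [inv_inv]
    exact (K.tot x hx).symm

lemma prod_mem (K : Cone A) (l : List A) (h : ∀ x ∈ l, x ∈ K.P) : l ≠ [] → l.prod ∈ K.P := by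
  induction l with
  | nil => intro h; exact absurd rfl h
  | cons a t ih =>
    intro _
    rw [List.prod_cons]
    by_cases ht : t = []
    · subst ht
      simpa using h a (by simp)
    · exact K.mul _ (h a (by simp)) _ (ih (fun x hx => h x (by simp [hx])) ht)

/-- A bi-orderable group is an `R*`-group. -/
lemma rstar (K : Cone A) (g : A) (hg : g ≠ 1) (l : List A) (hl : l ≠ []) :
    (l.map (fun h => h * g * h⁻¹)).prod ≠ 1 := by
  have key : ∀ K : Cone A, g ∈ K.P → (l.map (fun h => h * g * h⁻¹)).prod ≠ 1 := by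
    intro K hK h1
    have := K.prod_mem (l.map (fun h => h * g * h⁻¹)) (by
      intro x hx
      simp only [List.mem_map] at hx
      obtain ⟨h, -, rfl⟩ := hx
      exact K.conj h g hK) (by simpa using hl)
    rw [h1] at this
    exact K.one this
  rcases K.tot g hg with h | h
  · exact key K h
  · exact key K.op h

end Cone

/-- The free group of rank two is bi-orderable. -/
theorem exists_cone : Nonempty (Cone (FreeGroup Bool)) := by
  let e : FreeGroup Bool ≃* FreeGroup (Fin 2) := FreeGroup.freeGroupCongr finTwoEquiv.symm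
  refine ⟨⟨{x | 1 < e x}, ?_, ?_, ?_, ?_⟩⟩
  · intro x hx y hy
    simp only [Set.mem_ofPred_eq] at hx hy ⊢
    have h1 := H139R3.BO.free_mul_lt_left (e x) _ _ hy
    rw [mul_one] at h1
    rw [map_mul]
    exact hx.trans h1
  · intro g x hx
    simp only [Set.mem_ofPred_eq] at hx ⊢
    have h1 := H139R3.BO.free_mul_lt_left (e g) _ _ hx
    have h2 := H139R3.BO.free_mul_lt_right (e g)⁻¹ _ _ h1
    rw [mul_one, mul_inv_cancel] at h2
    rwa [map_mul, map_mul, map_inv]
  · simp
  · intro x hx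
    simp only [Set.mem_ofPred_eq]
    have h1 : e x ≠ 1 := by
      intro h
      exact hx (e.map_eq_one_iff.1 h)
    rcases lt_or_gt_of_ne h1 with h | h
    · right
      have h2 := H139R3.BO.free_mul_lt_left (e x)⁻¹ _ _ h
      rwa [inv_mul_cancel, mul_one, ← map_inv] at h2
    · left; exact h

/-- Elements moving the points of an ordered set upwards are not generalised torsion. -/
lemma not_gt_of_act {G X : Type*} [Group G] (θ : G →* Equiv.Perm X) (R : X → X → Prop)
    (hrefl : ∀ x, R x x) (htrans : ∀ x y z, R x y → R y z → R x z)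
    (hanti : ∀ x y, R x y → R y x → x = y) (hpres : ∀ g x y, R x y → R (θ g x) (θ g y)) (a : G)
    (hup : ∀ x, R x (θ a x)) (x0 : X) (hx0 : θ a x0 ≠ x0) (l : List G) (hl : l ≠ []) :
    (l.map (fun h => h * a * h⁻¹)).prod ≠ 1 := by
  have hc : ∀ h x, R x (θ (h * a * h⁻¹) x) := by
    intro h x
    have h1 := hpres h _ _ (hup (θ h⁻¹ x))
    rw [map_mul, map_mul, Equiv.Perm.mul_apply, Equiv.Perm.mul_apply]
    have h2 : θ h (θ h⁻¹ x) = x := by
      rw [← Equiv.Perm.mul_apply, ← map_mul, mul_inv_cancel, map_one]; rfl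
    rwa [h2] at h1
  have hp : ∀ l : List G, ∀ x, R x (θ (l.map (fun h => h * a * h⁻¹)).prod x) := by
    intro l
    induction l with
    | nil => intro x; simpa using hrefl x
    | cons h t ih =>
      intro x
      rw [List.map_cons, List.prod_cons, map_mul, Equiv.Perm.mul_apply]
      exact htrans _ _ _ (ih x) (hc h _)
  intro h1
  rcases List.eq_nil_or_concat l with h | ⟨t, h, hth⟩
  · exact hl h
  · rw [List.concat_eq_append] at hth
    subst hth
    rw [List.map_append, List.prod_append] at h1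
    simp only [List.map_cons, List.map_nil, List.prod_cons, List.prod_nil, mul_one] at h1
    have h2 : θ (h * a * h⁻¹) (θ h x0) = θ h (θ a x0) := by
      rw [← Equiv.Perm.mul_apply, ← Equiv.Perm.mul_apply, ← map_mul, ← map_mul]
      congr 2
      group
    have h3 : θ (h * a * h⁻¹) (θ h x0) ≠ θ h x0 := by
      rw [h2]
      intro h
      exact hx0 ((θ _).injective h)
    clear h2
    generalize θ h x0 = u at h3
    have h4 := hp t (θ (h * a * h⁻¹) u)
    rw [← Equiv.Perm.mul_apply (θ (t.map (fun h => h * a * h⁻¹)).prod), ← map_mul, h1, map_one] at h4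
    exact h3 (hanti _ _ h4 (hc _ _))

/-- Permutation representation from an action by functions. -/
def permHom {H X : Type*} [Group H] (act : H → X → X) (h1 : ∀ x, act 1 x = x)
    (h2 : ∀ g h x, act (g * h) x = act g (act h x)) : H →* Equiv.Perm X where
  toFun g := ⟨act g, act g⁻¹, fun x => by rw [← h2, inv_mul_cancel, h1],
    fun x => by rw [← h2, mul_inv_cancel, h1]⟩
  map_one' := by ext x; exact h1 x
  map_mul' g h := by ext x; exact h2 g h x

section ell

open Classical

variable {A P : Type} [Group A] [Group P] (D E : Datum A P)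

/-- Section of the quotient map. -/
noncomputable def sec (t : A ⧸ E.N) : A := if t = ((1 : A) : A ⧸ E.N) then 1 else Quotient.out t

lemma sec_mk (t : A ⧸ E.N) : ((sec E t : A) : A ⧸ E.N) = t := by
  unfold sec
  split_ifs with h
  · exact h.symm
  · exact Quotient.out_eq' t

lemma sec_one : sec E ((1 : A) : A ⧸ E.N) = 1 := if_pos rfl

/-- The cocycle. -/
noncomputable def coc (b : A) (t : A ⧸ E.N) : A := (sec E (b • t))⁻¹ * b * sec E t

lemma coc_mem (b : A) (t : A ⧸ E.N) : coc E b t ∈ E.N := by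
  unfold coc
  have h1 : ((sec E (b • t) : A) : A ⧸ E.N) = ((b * sec E t : A) : A ⧸ E.N) := by
    rw [sec_mk]
    conv_lhs => rw [← sec_mk E t]
    rfl
  rw [QuotientGroup.eq] at h1
  rwa [mul_assoc]

lemma coc_mul (b b' : A) (t : A ⧸ E.N) : coc E (b * b') t = coc E b (b' • t) * coc E b' t := by
  unfold coc
  rw [mul_smul]
  group

lemma Datum.ρ_one : E.ρ 1 = 1 := by
  have := E.ρφ 1
  rwa [map_one] at this

lemma Datum.ρ_inv (x : A) (hx : x ∈ E.N) : E.ρ x⁻¹ = (E.ρ x)⁻¹ := by
  rw [eq_inv_iff_mul_eq_one, ← E.ρmul _ (E.N.inv_mem hx) _ hx, inv_mul_cancel, E.ρ_one]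

/-- Action of the second factor. -/
noncomputable def actB : A →* Equiv.Perm ((A ⧸ E.N) × A) :=
  permHom (fun b x => (b • x.1, D.φ (E.ρ (coc E b x.1)) * x.2))
    (by
      rintro ⟨t, z⟩
      have : coc E 1 t = 1 := by unfold coc; rw [one_smul]; group
      simp [this, E.ρ_one])
    (by
      rintro g h ⟨t, z⟩
      refine Prod.ext (mul_smul g h t) ?_
      show D.φ (E.ρ (coc E (g * h) t)) * z = D.φ (E.ρ (coc E g (h • t))) * (D.φ (E.ρ (coc E h t)) * z)
      rw [coc_mul, E.ρmul _ (coc_mem E _ _) _ (coc_mem E _ _), map_mul, mul_assoc])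

/-- Action of the first factor. -/
noncomputable def actA : A →* Equiv.Perm ((A ⧸ E.N) × A) :=
  permHom (fun a x => (x.1, (if x.1 = ((1 : A) : A ⧸ E.N) then a else 1) * x.2))
    (by
      rintro ⟨t, z⟩
      simp)
    (by
      rintro g h ⟨t, z⟩
      simp only
      split_ifs with h
      · rw [mul_assoc]
      · simp)

lemma smul_of_mem {n : A} (hn : n ∈ E.N) (t : A ⧸ E.N) : n • t = t := by
  have := E.nN
  induction t using QuotientGroup.induction_on with
  | H z =>
    show ((n * z : A) : A ⧸ E.N) = z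
    rw [QuotientGroup.mk_mul, (QuotientGroup.eq_one_iff n).2 hn, one_mul]

lemma act_comp : (actB D E).comp E.φ = (actA E).comp D.φ := by
  refine MonoidHom.ext fun p => Equiv.ext ?_
  rintro ⟨t, z⟩
  refine Prod.ext ?_ ?_
  · exact smul_of_mem E (E.φN p) t
  · show D.φ (E.ρ (coc E (E.φ p) t)) * z = (if t = ((1 : A) : A ⧸ E.N) then D.φ p else 1) * z
    congr 1
    unfold coc
    rw [smul_of_mem E (E.φN p) t]
    split_ifs with h
    · subst h
      rw [sec_one]
      simp [E.ρφ]
    · have h1 : (sec E t)⁻¹ ∉ E.N := by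
        intro h2
        apply h
        rw [← sec_mk E t]
        rw [QuotientGroup.eq]
        simpa using h2
      have h2 := E.ρ1 _ h1 p
      rw [inv_inv] at h2
      rw [h2, map_one]

/-- Elliptic elements are not generalised torsion. -/
theorem elliptic (K : Cone A) {G : Type*} [Group G] (iA : A →* G)
    (hU : ∀ (f g : A →* Equiv.Perm ((A ⧸ E.N) × A)), f.comp D.φ = g.comp E.φ →
      ∃ h : G →* Equiv.Perm ((A ⧸ E.N) × A), h.comp iA = f ∧
        ∀ (Q : Subgroup (Equiv.Perm ((A ⧸ E.N) × A))), f.range ≤ Q → g.range ≤ Q → h.range ≤ Q)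
    (a : A) (ha : a ≠ 1) (l : List G) (hl : l ≠ []) :
    (l.map (fun h => h * iA a * h⁻¹)).prod ≠ 1 := by
  obtain ⟨θ, hθ1, hθ2⟩ := hU (actA E) (actB D E) (act_comp D E).symm
  have key : ∀ K : Cone A, a ∈ K.P → (l.map (fun h => h * iA a * h⁻¹)).prod ≠ 1 := by
    intro K hK
    let R : (A ⧸ E.N) × A → (A ⧸ E.N) × A → Prop := fun x y => x.1 = y.1 ∧
      (x.2 = y.2 ∨ x.2⁻¹ * y.2 ∈ K.P)
    let Q : Subgroup (Equiv.Perm ((A ⧸ E.N) × A)) :=
      { carrier := {s | ∀ x y, R x y ↔ R (s x) (s y)}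
        mul_mem' := by
          intro s t hs ht x y
          rw [ht x y, hs (t x) (t y)]; rfl
        one_mem' := by
          intro x y; rfl
        inv_mem' := by
          intro s hs x y
          rw [hs (s⁻¹ x) (s⁻¹ y)]
          rw [← Equiv.Perm.mul_apply, ← Equiv.Perm.mul_apply, mul_inv_cancel]; rfl }
    have hQA : (actA E).range ≤ Q := by
      rintro _ ⟨g, rfl⟩ ⟨t, z⟩ ⟨t', z'⟩
      show (t = t' ∧ _) ↔ (t = t' ∧ _)
      refine and_congr_right ?_
      rintro rfl
      show (z = z' ∨ z⁻¹ * z' ∈ K.P) ↔ ((if t = _ then g else 1) * z = (if t = _ then g else 1) * z' ∨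
        ((if t = _ then g else 1) * z)⁻¹ * ((if t = _ then g else 1) * z') ∈ K.P)
      rw [mul_right_inj, mul_inv_rev, mul_assoc, inv_mul_cancel_left]
    have hQB : (actB D E).range ≤ Q := by
      rintro _ ⟨g, rfl⟩ ⟨t, z⟩ ⟨t', z'⟩
      show (t = t' ∧ _) ↔ (g • t = g • t' ∧ _)
      rw [smul_left_cancel_iff]
      refine and_congr_right ?_
      rintro rfl
      show (z = z' ∨ z⁻¹ * z' ∈ K.P) ↔ (D.φ (E.ρ (coc E g t)) * z = D.φ (E.ρ (coc E g t)) * z' ∨
        (D.φ (E.ρ (coc E g t)) * z)⁻¹ * (D.φ (E.ρ (coc E g t)) * z') ∈ K.P)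
      rw [mul_right_inj, mul_inv_rev, mul_assoc, inv_mul_cancel_left]
    have hQ := hθ2 Q hQA hQB
    have hθa : ∀ t z, θ (iA a) (t, z) = (t, (if t = ((1 : A) : A ⧸ E.N) then a else 1) * z) := by
      intro t z
      have := congrArg (fun f => f a (t, z)) hθ1
      exact this
    refine not_gt_of_act θ R ?_ ?_ ?_ ?_ (iA a) ?_ (((1 : A) : A ⧸ E.N), 1) ?_ l hl
    · intro x; exact ⟨rfl, Or.inl rfl⟩
    · rintro ⟨t, x⟩ ⟨t', y⟩ ⟨t'', z⟩ ⟨h1, h2⟩ ⟨h3, h4⟩
      simp only at h1 h2 h3 h4
      refine ⟨h1.trans h3, ?_⟩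
      simp only
      rcases h2 with rfl | h2
      · exact h4
      · rcases h4 with rfl | h4
        · exact Or.inr h2
        · right
          have := K.mul _ h2 _ h4
          rwa [mul_assoc, mul_inv_cancel_left] at this
    · rintro ⟨t, x⟩ ⟨t', y⟩ ⟨h1, h2⟩ ⟨h3, h4⟩
      simp only at h1 h2 h3 h4
      refine Prod.ext h1 ?_
      rcases h2 with h2 | h2
      · exact h2
      · rcases h4 with h4 | h4
        · exact h4.symm
        · exfalso
          have := K.mul _ h2 _ h4
          rw [mul_assoc, mul_inv_cancel_left, inv_mul_cancel] at this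
          exact K.one this
    · intro g x y h
      exact ((hQ ⟨g, rfl⟩) x y).1 h
    · rintro ⟨t, z⟩
      rw [hθa]
      refine ⟨rfl, ?_⟩
      show z = _ ∨ z⁻¹ * ((if t = _ then a else 1) * z) ∈ K.P
      split_ifs with h
      · right
        have := K.conj z⁻¹ a hK
        rwa [inv_inv, mul_assoc] at this
      · left; simp
    · rw [hθa, if_pos rfl]
      intro h
      have := (Prod.ext_iff.1 h).2
      simp only [mul_one] at this
      exact ha this
  rcases K.tot a ha with h | h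
  · exact key K h
  · exact key K.op h

end ell

end Pool.Agent.TH74.RS
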