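import Mathlib

set_option autoImplicit false

/-!
# Length functions of tree actions, and products of conjugates

`LenFn G` : an integer valued length function (displacement of a base point in a simplicial tree)
on a group, satisfying the Gromov `0`-hyperbolicity axiom, a divisibility axiom and a parity axiom.
The main result is `LenFn.prod_ne_one`: if `X` is a conjugation invariant set of hyperbolic elements
such that the product of two elements of `X` whose axes overlap with opposite directions is again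
in `X`, then no nonempty product of elements of `X` is trivial.
-/

namespace Pool.Agent.TH74.RS

/-- A based length function. -/
structure LenFn (G : Type*) [Group G] where
  L : G → ℕ
  one : L 1 = 0
  inv : ∀ x, L x⁻¹ = L x
  hyp : ∀ x y z, min ((L x : ℤ) + L y - L (x⁻¹ * y)) ((L y : ℤ) + L z - L (y⁻¹ * z)) ≤
    (L x : ℤ) + L z - L (x⁻¹ * z)
  pre : ∀ x (q : ℕ), q ≤ L x → ∃ u, L u = q ∧ L (u⁻¹ * x) + q = L x
  par : ∀ x z (k : ℕ), 1 ≤ k → k < L x → k < L z → (L x : ℤ) + L z - L (x⁻¹ * z) ≠ 2 * k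

namespace LenFn

variable {G : Type*} [Group G] (S : LenFn G)

/-- Distance. -/
def d (x y : G) : ℤ := S.L (x⁻¹ * y)

lemma d_comm (x y : G) : S.d x y = S.d y x := by
  unfold d
  rw [← S.inv (x⁻¹ * y)]
  simp

lemma d_mul (g x y : G) : S.d (g * x) (g * y) = S.d x y := by
  unfold d
  congr 2; group

lemma d_nonneg (x y : G) : 0 ≤ S.d x y := by unfold d; positivity

lemma d_self (x : G) : S.d x x = 0 := by unfold d; simp [S.one]

lemma d_one (x : G) : S.d 1 x = S.L x := by unfold d; simp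

lemma hyp0 (x y z : G) : S.d 1 y + S.d x z ≤ max (S.d 1 x + S.d y z) (S.d 1 z + S.d x y) := by
  have h := S.hyp x y z
  simp only [d_one]
  unfold d
  rcases min_le_iff.1 h with h | h
  · exact le_max_of_le_right (by linarith)
  · exact le_max_of_le_left (by linarith)

lemma four (w x y z : G) :
    S.d w y + S.d x z ≤ max (S.d w x + S.d y z) (S.d w z + S.d x y) := by
  have h := S.hyp0 (w⁻¹ * x) (w⁻¹ * y) (w⁻¹ * z)
  have e : ∀ y, S.d 1 (w⁻¹ * y) = S.d w y := fun y => by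
    have := S.d_mul w⁻¹ w y
    rw [← this]; simp
  rw [S.d_mul, S.d_mul, S.d_mul, e, e, e] at h
  exact h

/-- Twice the Gromov product at the identity. -/
def gp (x y : G) : ℤ := S.L x + S.L y - S.L (x⁻¹ * y)

lemma gp_comm (x y : G) : S.gp x y = S.gp y x := by
  have := S.d_comm x y
  unfold d at this
  unfold gp
  rw [this]; ring

lemma ultra (x y z : G) : min (S.gp x y) (S.gp y z) ≤ S.gp x z := S.hyp x y z

lemma gp_one (x : G) : S.gp x 1 = 0 := by
  unfold gp; simp [S.one, S.inv]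

lemma gp_nonneg (x y : G) : 0 ≤ S.gp x y := by
  have h1 := S.ultra x 1 y
  rw [S.gp_one, S.gp_comm 1 y, S.gp_one] at h1
  simpa using h1

lemma L_mul_le (x y : G) : S.L (x * y) ≤ S.L x + S.L y := by
  have := S.gp_nonneg x⁻¹ y
  unfold gp at this
  rw [S.inv, inv_inv] at this
  omega

lemma gp_le_left (x y : G) : S.gp x y ≤ 2 * S.L x := by
  have := S.L_mul_le x (x⁻¹ * y)
  unfold gp
  rw [mul_inv_cancel_left] at this
  omega

lemma gp_le_right (x y : G) : S.gp x y ≤ 2 * S.L y := by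
  rw [gp_comm]; exact S.gp_le_left _ _

/-- Displacement of the base point under the square. -/
lemma sq_le (x z : G) : (S.L (x * x) : ℤ) ≤ S.L x + S.L (z⁻¹ * x * z) := by
  have h := S.four 1 x (x * x) (x * z)
  -- d 1 (xx) + d x (xz) ≤ max (d 1 x + d (xx) (xz)) (d 1 (xz) + d x (xx))
  have e1 : S.d x (x * z) = S.L z := by unfold d; simp
  have e2 : S.d (x * x) (x * z) = S.L (x⁻¹ * z) := by unfold d; congr 2; group
  have e3 : S.d x (x * x) = S.L x := by unfold d; simp
  rw [e1, e2, e3, S.d_one, S.d_one, S.d_one] at h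
  have h1 := S.L_mul_le z (z⁻¹ * x * z)
  have h2 : z * (z⁻¹ * x * z) = x * z := by group
  rw [h2] at h1
  have h5 : S.L (x⁻¹ * z) ≤ S.L (z⁻¹ * x * z) + S.L z := by
    have e5 : x⁻¹ * z = z * (z⁻¹ * x * z)⁻¹ := by group
    rw [e5]
    have := S.L_mul_le z (z⁻¹ * x * z)⁻¹
    rw [S.inv] at this
    omega
  rcases le_max_iff.1 h with h | h <;> omega

/-- The pair lemma. -/
lemma pair (x y : G) (hx : S.L x + 2 ≤ S.L (x * x)) (hy : S.L y + 2 ≤ S.L (y * y))
    (hP : (S.L x : ℤ) ≤ S.gp y⁻¹ x ∨ (S.L y : ℤ) < S.gp y⁻¹ x)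
    (m1 : S.L y ≤ S.L (x⁻¹ * y * x)) (m1' : S.L (x⁻¹ * y * x) = S.L y → S.L y ≤ S.L x)
    (m2 : S.L x ≤ S.L (y * x * y⁻¹)) :
    ∃ u, S.L (u⁻¹ * x * u) + S.L x = S.L (x * x) ∧ S.L (u⁻¹ * y * u) + S.L y = S.L (y * y) ∧
      S.L (u⁻¹ * (y * x) * u) < S.L (u⁻¹ * y * u) + S.L (u⁻¹ * x * u) := by
  have eP : S.gp y⁻¹ x = S.L y + S.L x - S.L (y * x) := by
    unfold gp; rw [S.inv, inv_inv]
  have eDx : S.gp x x⁻¹ = 2 * S.L x - S.L (x * x) := by
    unfold gp
    rw [S.inv, ← S.inv (x⁻¹ * x⁻¹)]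
    simp only [mul_inv_rev, inv_inv]; ring
  have eDy : S.gp y y⁻¹ = 2 * S.L y - S.L (y * y) := by
    unfold gp
    rw [S.inv, ← S.inv (y⁻¹ * y⁻¹)]
    simp only [mul_inv_rev, inv_inv]; ring
  have eyx : S.L (x⁻¹ * y⁻¹) = S.L (y * x) := by
    rw [← S.inv (y * x)]; simp
  have cP : S.gp x y⁻¹ = S.gp y⁻¹ x := S.gp_comm _ _
  have nDx := S.gp_nonneg x x⁻¹
  have nDy := S.gp_nonneg y y⁻¹
  -- first four point inequality
  have F1 : (S.L (x⁻¹ * y * x) : ℤ) + S.L y ≤
      max (2 * (S.L x : ℤ)) ((S.L x + S.L y - S.gp x y) + S.L (y * x)) := by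
    have h := S.four x 1 (y * x) y
    have e1 : S.d x (y * x) = S.L (x⁻¹ * y * x) := by unfold d; congr 2; group
    have e2 : S.d x 1 = S.L x := by rw [d_comm, d_one]
    have e3 : S.d (y * x) y = S.L x := by
      unfold d; rw [← S.inv x]; congr 2; group
    have e4 : S.d x y = S.L x + S.L y - S.gp x y := by unfold d gp; ring
    rw [e1, e2, e3, e4, S.d_one, S.d_one] at h
    convert h using 2; ring
  have F2 : (S.L (y * x * y⁻¹) : ℤ) + S.L x ≤
      max (2 * (S.L y : ℤ)) (S.L (y * x) + (S.L x + S.L y - S.gp x⁻¹ y⁻¹)) := by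
    have h := S.four y⁻¹ 1 (x * y⁻¹) x
    have e1 : S.d y⁻¹ (x * y⁻¹) = S.L (y * x * y⁻¹) := by unfold d; congr 2; group
    have e2 : S.d y⁻¹ 1 = S.L y := by rw [d_comm, d_one, S.inv]
    have e3 : S.d (x * y⁻¹) x = S.L y := by
      unfold d; congr 2; group
    have e4 : S.d y⁻¹ x = S.L (y * x) := by unfold d; simp
    have e5 : S.d 1 (x * y⁻¹) = S.L x + S.L y - S.gp x⁻¹ y⁻¹ := by
      rw [d_one]; unfold gp; rw [S.inv, S.inv, inv_inv]; ring
    rw [e1, e2, e3, e4, e5, S.d_one] at h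
    convert h using 2; ring
  have U1 := S.ultra x y⁻¹ y
  have U2 := S.ultra x⁻¹ x y⁻¹
  have c1 : S.gp y⁻¹ y = S.gp y y⁻¹ := S.gp_comm _ _
  have c2 : S.gp x⁻¹ x = S.gp x x⁻¹ := S.gp_comm _ _
  rw [c1] at U1
  rw [c2] at U2
  have hDyP : S.gp y y⁻¹ < S.gp y⁻¹ x := by
    by_contra hcon
    push Not at hcon
    rcases hP with h | h
    · have hU : S.gp y⁻¹ x ≤ S.gp x y := by
        rcases min_le_iff.1 U1 with h' | h' <;> omega
      rcases le_max_iff.1 F1 with h' | h'
      · omega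
      · have := m1' (by omega)
        omega
    · omega
  have hDxP : S.gp x x⁻¹ < S.gp y⁻¹ x := by
    by_contra hcon
    push Not at hcon
    rcases hP with h | h
    · omega
    · have hU : S.gp y⁻¹ x ≤ S.gp x⁻¹ y⁻¹ := by
        rcases min_le_iff.1 U2 with h' | h' <;> omega
      rcases le_max_iff.1 F2 with h' | h' <;> omega
  have hDya : S.gp y y⁻¹ ≤ S.L x := by
    by_contra hcon
    push Not at hcon
    have hU : S.gp y y⁻¹ ≤ S.gp x y := by
      rcases min_le_iff.1 U1 with h' | h' <;> omega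
    rcases le_max_iff.1 F1 with h' | h' <;> omega
  have hDxb : S.gp x x⁻¹ ≤ S.L y := by
    by_contra hcon
    push Not at hcon
    have hU : S.gp x x⁻¹ ≤ S.gp x⁻¹ y⁻¹ := by
      rcases min_le_iff.1 U2 with h' | h' <;> omega
    rcases le_max_iff.1 F2 with h' | h' <;> omega
  -- the base point on the common edge
  obtain ⟨q, hq1, hq2, hq3⟩ : ∃ q : ℕ, S.gp x x⁻¹ ≤ 2 * q ∧ S.gp y y⁻¹ ≤ 2 * q ∧
      (2 * q ≤ S.gp x x⁻¹ + 1 ∨ 2 * q ≤ S.gp y y⁻¹ + 1) := by
    refine ⟨((max (S.gp x x⁻¹) (S.gp y y⁻¹) + 1) / 2).toNat, ?_, ?_, ?_⟩ <;>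
    rcases le_total (S.gp x x⁻¹) (S.gp y y⁻¹) with h | h <;>
    first
      | rw [max_eq_right h]; omega
      | rw [max_eq_left h]; omega
  have hqP : 2 * (q : ℤ) ≤ S.gp y⁻¹ x := by omega
  have hPa := S.gp_le_right y⁻¹ x
  obtain ⟨u, hu1, hu2⟩ := S.pre x q (by omega)
  have gux : S.gp u x = 2 * q := by unfold gp; omega
  have guy : S.gp u y⁻¹ = 2 * q := by
    have h1 := S.ultra u x y⁻¹
    have h2 := S.gp_le_left u y⁻¹
    rw [cP, gux, min_eq_left hqP] at h1
    omega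
  have huy : (S.L (u⁻¹ * y⁻¹) : ℤ) = S.L y - q := by
    have := guy
    unfold gp at this
    rw [S.inv] at this
    omega
  have hP2 : 2 * (q : ℤ) < S.gp y⁻¹ x := by
    rcases hqP.lt_or_eq with h | h
    · exact h
    · exfalso
      rcases Nat.eq_zero_or_pos q with h0 | h0
      · omega
      · have := S.par x y⁻¹ q h0 (by omega) (by rw [S.inv]; omega)
        apply this
        have h3 := cP
        unfold gp at h3 h
        omega
  have Lx : (S.L (u⁻¹ * x * u) : ℤ) = S.L x - S.gp x x⁻¹ := by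
    apply le_antisymm
    · have h := S.four u 1 (x * u) x
      have e1 : S.d u (x * u) = S.L (u⁻¹ * x * u) := by unfold d; congr 2; group
      have e2 : S.d u 1 = S.L u := by rw [d_comm, d_one]
      have e3 : S.d (x * u) x = S.L u := by
        unfold d; rw [← S.inv u]; congr 2; group
      have e4 : S.d u x = S.L x - q := by unfold d; omega
      have e5 : S.d 1 (x * u) = S.L x + S.L u - S.gp x⁻¹ u := by
        rw [d_one]; unfold gp; rw [S.inv, inv_inv]; ring
      rw [e1, e2, e3, e4, e5, S.d_one] at h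
      have h5 := S.ultra x⁻¹ x u
      rw [c2, S.gp_comm x u, gux, min_eq_left hq1] at h5
      rcases le_max_iff.1 h with h' | h' <;> omega
    · have := S.sq_le x u
      omega
  have Ly : (S.L (u⁻¹ * y * u) : ℤ) = S.L y - S.gp y y⁻¹ := by
    apply le_antisymm
    · have h := S.four u 1 (y⁻¹ * u) y⁻¹
      have e1 : S.d u (y⁻¹ * u) = S.L (u⁻¹ * y * u) := by
        unfold d; rw [← S.inv (u⁻¹ * y * u)]; congr 2; group
      have e2 : S.d u 1 = S.L u := by rw [d_comm, d_one]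
      have e3 : S.d (y⁻¹ * u) y⁻¹ = S.L u := by
        unfold d; rw [← S.inv u]; congr 2; group
      have e4 : S.d u y⁻¹ = S.L y - q := by unfold d; omega
      have e5 : S.d 1 (y⁻¹ * u) = S.L y + S.L u - S.gp y u := by
        rw [d_one]; unfold gp; ring
      rw [e1, e2, e3, e4, e5, S.d_one, S.inv] at h
      have h5 := S.ultra y y⁻¹ u
      rw [S.gp_comm y⁻¹ u, guy, min_eq_left hq2] at h5
      rcases le_max_iff.1 h with h' | h' <;> omega
    · have := S.sq_le y u
      omega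
  refine ⟨u, by omega, by omega, ?_⟩
  have Lyi : S.L (u⁻¹ * y⁻¹ * u) = S.L (u⁻¹ * y * u) := by
    rw [← S.inv (u⁻¹ * y * u)]; congr 1; group
  have g1 : S.gp (u⁻¹ * x * u) (u⁻¹ * x) = 2 * S.L x - S.gp x x⁻¹ - 2 * q := by
    have e : (u⁻¹ * x * u)⁻¹ * (u⁻¹ * x) = u⁻¹ := by group
    have : S.gp (u⁻¹ * x * u) (u⁻¹ * x) = S.L (u⁻¹ * x * u) + S.L (u⁻¹ * x) - S.L u := by
      unfold gp; rw [e, S.inv]
    omega
  have g2 : S.gp (u⁻¹ * x) (u⁻¹ * y⁻¹) = S.gp y⁻¹ x - 2 * q := by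
    have e : (u⁻¹ * x)⁻¹ * (u⁻¹ * y⁻¹) = x⁻¹ * y⁻¹ := by group
    have : S.gp (u⁻¹ * x) (u⁻¹ * y⁻¹) = S.L (u⁻¹ * x) + S.L (u⁻¹ * y⁻¹) - S.L (y * x) := by
      unfold gp; rw [e, eyx]
    omega
  have g3 : S.gp (u⁻¹ * y⁻¹) (u⁻¹ * y⁻¹ * u) = 2 * S.L y - S.gp y y⁻¹ - 2 * q := by
    have e : (u⁻¹ * y⁻¹)⁻¹ * (u⁻¹ * y⁻¹ * u) = u := by group
    have : S.gp (u⁻¹ * y⁻¹) (u⁻¹ * y⁻¹ * u) =
        S.L (u⁻¹ * y⁻¹) + S.L (u⁻¹ * y * u) - S.L u := by
      unfold gp; rw [e, Lyi]
    omega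
  have h1 := S.ultra (u⁻¹ * x * u) (u⁻¹ * x) (u⁻¹ * y⁻¹)
  have h2 := S.ultra (u⁻¹ * x * u) (u⁻¹ * y⁻¹) (u⁻¹ * y⁻¹ * u)
  have h3 : 0 < S.gp (u⁻¹ * x * u) (u⁻¹ * y⁻¹) := by
    rcases min_le_iff.1 h1 with h' | h' <;> omega
  have h4 : 0 < S.gp (u⁻¹ * x * u) (u⁻¹ * y⁻¹ * u) := by
    rcases min_le_iff.1 h2 with h' | h' <;> omega
  have e6 : S.L ((u⁻¹ * x * u)⁻¹ * (u⁻¹ * y⁻¹ * u)) = S.L (u⁻¹ * (y * x) * u) := by
    rw [← S.inv (u⁻¹ * (y * x) * u)]; congr 1; group
  unfold gp at h4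
  rw [e6, Lyi] at h4
  omega

/-- No large cancellation between consecutive factors. -/
def R (y x : G) : Prop := S.gp y⁻¹ x < S.L x ∧ S.gp y⁻¹ x ≤ S.L y

lemma chain_prod (l : List G) : ∀ Q x : G, (S.L x : ℤ) < S.gp Q⁻¹ x⁻¹ →
    List.IsChain S.R (x :: l) → Q * l.prod ≠ 1 := by
  induction l with
  | nil =>
    intro Q x h _ h1
    simp only [List.prod_nil, mul_one] at h1
    subst h1
    rw [inv_one, gp_comm, gp_one] at h
    omega
  | cons x' l ih =>
    intro Q x h hc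
    rw [List.isChain_cons_cons] at hc
    obtain ⟨⟨h1, h2⟩, h3⟩ := hc
    rw [List.prod_cons, ← mul_assoc]
    apply ih (Q * x') x' _ h3
    have h4 : S.gp Q⁻¹ x' ≤ S.gp x⁻¹ x' := by
      by_contra hcon
      push Not at hcon
      have := S.ultra x⁻¹ Q⁻¹ x'
      rw [S.gp_comm x⁻¹ Q⁻¹] at this
      rcases min_le_iff.1 this with h' | h' <;> omega
    have h5 : S.gp (Q * x')⁻¹ x'⁻¹ = S.L (Q * x') + S.L x' - S.L Q := by
      unfold gp
      rw [S.inv, S.inv, inv_inv, mul_inv_cancel_right]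
    have h6 : S.gp Q⁻¹ x' = S.L Q + S.L x' - S.L (Q * x') := by
      unfold gp; rw [S.inv, inv_inv]
    omega

lemma exists_bad (r : G → G → Prop) (l : List G) (h : ¬ List.IsChain r l) :
    ∃ l₁ y x l₂, l = l₁ ++ y :: x :: l₂ ∧ ¬ r y x := by
  induction l with
  | nil => simp at h
  | cons a l ih =>
    cases l with
    | nil => simp at h
    | cons b l =>
      rw [List.isChain_cons_cons] at h
      by_cases h1 : r a b
      · obtain ⟨l₁, y, x, l₂, h2, h3⟩ := ih (fun h2 => h ⟨h1, h2⟩)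
        exact ⟨a :: l₁, y, x, l₂, by rw [h2]; rfl, h3⟩
      · exact ⟨[], a, b, l, rfl, h1⟩

/-- Total length. -/
def tot (l : List G) : ℕ := (l.map S.L).sum

/-- Weighted length. -/
def wt : List G → ℕ
  | [] => 0
  | x :: l => (l.length + 1) * S.L x + wt l

lemma wt_append (l m m' : List G) (hl : m.length = m'.length) (h : S.wt m < S.wt m') :
    S.wt (l ++ m) < S.wt (l ++ m') := by
  induction l with
  | nil => exact h
  | cons a l ih =>
    simp only [List.cons_append, wt, List.length_append, hl]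
    omega

/-- **Main theorem** about products of hyperbolic elements. -/
theorem prod_ne_one (X : Set G) (hconj : ∀ x ∈ X, ∀ g, g * x * g⁻¹ ∈ X)
    (hhyp : ∀ x ∈ X, S.L x + 2 ≤ S.L (x * x))
    (hint : ∀ x ∈ X, ∀ y ∈ X, ∀ u, S.L (u⁻¹ * x * u) + S.L x = S.L (x * x) →
      S.L (u⁻¹ * y * u) + S.L y = S.L (y * y) →
      S.L (u⁻¹ * (y * x) * u) < S.L (u⁻¹ * y * u) + S.L (u⁻¹ * x * u) → y * x ∈ X) :
    ∀ l : List G, l ≠ [] → (∀ x ∈ l, x ∈ X) → l.prod ≠ 1 := by
  let f : List G → ℕ ×ₗ ℕ ×ₗ ℕ := fun l => toLex (l.length, toLex (S.tot l, S.wt l))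
  have wf : WellFounded (InvImage (· < ·) f) := InvImage.wf f wellFounded_lt
  intro l
  induction l using wf.induction with
  | _ l ih =>
  intro hl hX hprod
  have hpos : ∀ x ∈ X, 2 ≤ S.L x := by
    intro x hx
    have h1 := hhyp x hx
    have h2 := S.L_mul_le x x
    omega
  have hlen : ∀ l', l' ≠ [] → (∀ x ∈ l', x ∈ X) → l'.prod = 1 → l'.length < l.length → False := by
    intro l' h1 h2 h3 h4
    refine ih l' ?_ h1 h2 h3
    show f l' < f l
    rw [Prod.Lex.lt_iff]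
    exact Or.inl h4
  have htot : ∀ l', l' ≠ [] → (∀ x ∈ l', x ∈ X) → l'.prod = 1 → l'.length = l.length →
      S.tot l' < S.tot l → False := by
    intro l' h1 h2 h3 h4 h5
    refine ih l' ?_ h1 h2 h3
    show f l' < f l
    rw [Prod.Lex.lt_iff]
    refine Or.inr ⟨h4, ?_⟩
    show toLex (S.tot l', S.wt l') < toLex (S.tot l, S.wt l)
    rw [Prod.Lex.lt_iff]
    exact Or.inl h5
  have hwt : ∀ l', l' ≠ [] → (∀ x ∈ l', x ∈ X) → l'.prod = 1 → l'.length = l.length →
      S.tot l' = S.tot l → S.wt l' < S.wt l → False := by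
    intro l' h1 h2 h3 h4 h5 h6
    refine ih l' ?_ h1 h2 h3
    show f l' < f l
    rw [Prod.Lex.lt_iff]
    refine Or.inr ⟨h4, ?_⟩
    show toLex (S.tot l', S.wt l') < toLex (S.tot l, S.wt l)
    rw [Prod.Lex.lt_iff]
    exact Or.inr ⟨h5, h6⟩
  -- there is a bad pair
  have hbad : ¬ List.IsChain S.R l := by
    intro hc
    cases l with
    | nil => exact hl rfl
    | cons x l =>
      refine S.chain_prod l x x ?_ hc ?_
      · have := hpos x (hX x (by simp))
        unfold gp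
        simp only [inv_inv, mul_inv_cancel, S.one, S.inv]
        omega
      · simpa using hprod
  obtain ⟨l₁, y, x, l₂, rfl, hR⟩ := exists_bad _ _ hbad
  have hx : x ∈ X := hX x (by simp)
  have hy : y ∈ X := hX y (by simp)
  have hmem : ∀ z ∈ l₁ ++ l₂, z ∈ X := by
    intro z hz
    apply hX
    simp only [List.mem_append, List.mem_cons] at hz ⊢
    tauto
  have hP : (S.L x : ℤ) ≤ S.gp y⁻¹ x ∨ (S.L y : ℤ) < S.gp y⁻¹ x := by
    unfold R at hR
    by_contra hcon
    push Not at hcon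
    exact hR hcon
  have h1 : x⁻¹ * y * x ∈ X := by
    have := hconj y hy x⁻¹
    rwa [inv_inv] at this
  have h2 : y * x * y⁻¹ ∈ X := hconj x hx y
  have key1 : (∀ z ∈ l₁ ++ x :: (x⁻¹ * y * x) :: l₂, z ∈ X) := by
    intro z hz
    simp only [List.mem_append, List.mem_cons] at hz
    rcases hz with hz | hz | hz | hz
    · exact hmem z (by simp [hz])
    · rw [hz]; exact hx
    · rw [hz]; exact h1
    · exact hmem z (by simp [hz])
  have prod1 : (l₁ ++ x :: (x⁻¹ * y * x) :: l₂).prod = 1 := by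
    rw [← hprod]
    simp only [List.prod_append, List.prod_cons]
    group
  have m1 : S.L y ≤ S.L (x⁻¹ * y * x) := by
    by_contra hcon
    push Not at hcon
    refine htot (l₁ ++ x :: (x⁻¹ * y * x) :: l₂) (by simp) key1 prod1 (by simp) ?_
    simp only [tot, List.map_append, List.map_cons, List.sum_append, List.sum_cons]
    omega
  have m1' : S.L (x⁻¹ * y * x) = S.L y → S.L y ≤ S.L x := by
    intro he
    by_contra hcon
    push Not at hcon
    refine hwt (l₁ ++ x :: (x⁻¹ * y * x) :: l₂) (by simp) key1 prod1 (by simp) ?_ ?_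
    · simp only [tot, List.map_append, List.map_cons, List.sum_append, List.sum_cons]
      omega
    · apply wt_append
      · simp
      · simp only [wt, List.length_cons, he]
        nlinarith
  have m2 : S.L x ≤ S.L (y * x * y⁻¹) := by
    by_contra hcon
    push Not at hcon
    refine htot (l₁ ++ (y * x * y⁻¹) :: y :: l₂) (by simp) ?_ ?_ (by simp) ?_
    · intro z hz
      simp only [List.mem_append, List.mem_cons] at hz
      rcases hz with hz | hz | hz | hz
      · exact hmem z (by simp [hz])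
      · rw [hz]; exact h2
      · rw [hz]; exact hy
      · exact hmem z (by simp [hz])
    · rw [← hprod]
      simp only [List.prod_append, List.prod_cons]
      group
    · simp only [tot, List.map_append, List.map_cons, List.sum_append, List.sum_cons]
      omega
  obtain ⟨u, hu1, hu2, hu3⟩ := S.pair x y (hhyp x hx) (hhyp y hy) hP m1 m1' m2
  have h3 := hint x hx y hy u hu1 hu2 hu3
  refine hlen (l₁ ++ (y * x) :: l₂) (by simp) ?_ ?_ (by simp)
  · intro z hz
    simp only [List.mem_append, List.mem_cons] at hz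
    rcases hz with hz | hz | hz
    · exact hmem z (by simp [hz])
    · rw [hz]; exact h3
    · exact hmem z (by simp [hz])
  · rw [← hprod]
    simp only [List.prod_append, List.prod_cons]
    group

/-- The displacement of conjugates of an element whose axis passes through the base point. -/
lemma conj_sq (w v : G) (hw : S.L (w * w) = 2 * S.L w) (hw2 : 2 ≤ S.L w) :
    S.L ((v * w * v⁻¹) * (v * w * v⁻¹)) = S.L (v * w * v⁻¹) + S.L w := by
  have hmin : ∀ z, S.L w ≤ S.L (z⁻¹ * w * z) := by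
    intro z
    have := S.sq_le w z
    omega
  set x := v * w * v⁻¹ with hxdef
  have hxw : ∀ z, z⁻¹ * x * z = (v⁻¹ * z)⁻¹ * w * (v⁻¹ * z) := by
    intro z; rw [hxdef]; group
  have hminx : ∀ z, S.L w ≤ S.L (z⁻¹ * x * z) := by
    intro z; rw [hxw]; exact hmin _
  have h1 := S.sq_le x v
  have e1 : v⁻¹ * x * v = w := by rw [hxdef]; group
  rw [e1] at h1
  have h2 : S.L x + S.L w ≤ S.L (x * x) := by
    have eD : S.gp x x⁻¹ = 2 * S.L x - S.L (x * x) := by
      unfold gp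
      rw [S.inv, ← S.inv (x⁻¹ * x⁻¹)]
      simp only [mul_inv_rev, inv_inv]; ring
    have nD := S.gp_nonneg x x⁻¹
    have hx1 := hminx 1
    simp only [inv_one, one_mul, mul_one] at hx1
    -- q = min (ceil (D/2)) (floor (a/2))
    obtain ⟨q, hq1, hq2, hq3⟩ : ∃ q : ℕ, 2 * (q : ℤ) ≤ S.gp x x⁻¹ + 1 ∧ 2 * q ≤ S.L x ∧
        (S.gp x x⁻¹ ≤ 2 * q ∨ (S.L x : ℤ) ≤ 2 * q + 1) := by
      rcases le_or_gt (S.gp x x⁻¹ + 1) (S.L x) with h | h
      · exact ⟨((S.gp x x⁻¹ + 1) / 2).toNat, by omega, by omega, by omega⟩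
      · exact ⟨S.L x / 2, by omega, by omega, by omega⟩
    obtain ⟨u, hu1, hu2⟩ := S.pre x q (by omega)
    have gux : S.gp u x = 2 * q := by unfold gp; omega
    have h := S.four u 1 (x * u) x
    have e1 : S.d u (x * u) = S.L (u⁻¹ * x * u) := by unfold d; congr 2; group
    have e2 : S.d u 1 = S.L u := by rw [d_comm, d_one]
    have e3 : S.d (x * u) x = S.L u := by
      unfold d; rw [← S.inv u]; congr 2; group
    have e4 : S.d u x = S.L x - q := by unfold d; omega
    have e5 : S.d 1 (x * u) = S.L x + S.L u - S.gp x⁻¹ u := by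
      rw [d_one]; unfold gp; rw [S.inv, inv_inv]; ring
    rw [e1, e2, e3, e4, e5, S.d_one] at h
    have h5 := S.ultra x⁻¹ x u
    rw [S.gp_comm x⁻¹ x, S.gp_comm x u, gux] at h5
    have h6 := hminx u
    rcases le_max_iff.1 h with h' | h' <;> rcases min_le_iff.1 h5 with h7 | h7 <;> omega
  omega

end LenFn

end Pool.Agent.TH74.RS
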