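import Mathlib
import Pool.Agent.TH74.RS.Len

set_option autoImplicit false

/-!
# Amalgams: reduced words and the syllable length
-/

namespace Pool.Agent.TH74.RS

variable {G : Type*} [Group G] (F : Bool → Subgroup G)

/-- The edge group. -/
def CC : Subgroup G := F true ⊓ F false

lemma CC_le (b : Bool) : CC F ≤ F b := by
  cases b
  · exact inf_le_right
  · exact inf_le_left

/-- A letter of type `b`. -/
def Lt (b : Bool) (s : G) : Prop := s ∈ F b ∧ s ∉ CC F

/-- `Red b n x`: `x` is a product of `n` alternating letters, the first of type `b`. -/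
inductive Red : Bool → ℕ → G → Prop
  | zero (b : Bool) (c : G) (hc : c ∈ CC F) : Red b 0 c
  | succ (b : Bool) (n : ℕ) (s x : G) (hs : Lt F b s) (hx : Red (!b) n x) : Red b (n + 1) (s * x)

/-- The type of the letter which can follow a word with `n` letters starting with type `b`. -/
def nf : Bool → ℕ → Bool
  | b, 0 => b
  | b, n + 1 => nf (!b) n

@[simp] lemma nf_zero (b : Bool) : nf b 0 = b := rfl
lemma nf_succ (b : Bool) (n : ℕ) : nf b (n + 1) = nf (!b) n := rfl

lemma nf_not (b : Bool) (n : ℕ) : nf (!b) n = !(nf b n) := by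
  induction n generalizing b with
  | zero => rfl
  | succ n ih => rw [nf_succ, nf_succ, ih]

lemma nf_nf (b : Bool) (n : ℕ) : nf (nf b n) n = b := by
  induction n generalizing b with
  | zero => rfl
  | succ n ih =>
    rw [nf_succ, nf_succ, nf_not, ih, Bool.not_not]

variable {F}

lemma Lt.mul_left {b : Bool} {s c : G} (hs : Lt F b s) (hc : c ∈ CC F) : Lt F b (c * s) := by
  refine ⟨(F b).mul_mem (CC_le F b hc) hs.1, fun h => hs.2 ?_⟩
  have := (CC F).mul_mem ((CC F).inv_mem hc) h
  rwa [inv_mul_cancel_left] at this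

lemma Lt.mul_right {b : Bool} {s c : G} (hs : Lt F b s) (hc : c ∈ CC F) : Lt F b (s * c) := by
  refine ⟨(F b).mul_mem hs.1 (CC_le F b hc), fun h => hs.2 ?_⟩
  have := (CC F).mul_mem h ((CC F).inv_mem hc)
  rwa [mul_inv_cancel_right] at this

lemma Lt.inv {b : Bool} {s : G} (hs : Lt F b s) : Lt F b s⁻¹ :=
  ⟨(F b).inv_mem hs.1, fun h => hs.2 (by simpa using (CC F).inv_mem h)⟩

lemma Lt.not_not {b : Bool} {s : G} (hs : Lt F b s) : s ∉ F (!b) := by
  intro h
  apply hs.2
  cases b
  · exact ⟨h, hs.1⟩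
  · exact ⟨hs.1, h⟩

lemma Red.mul_right {b : Bool} {n : ℕ} {x : G} (h : Red F b n x) {c : G} (hc : c ∈ CC F) :
    Red F b n (x * c) := by
  induction h with
  | zero b d hd => exact Red.zero b _ ((CC F).mul_mem hd hc)
  | succ b n s x hs hx ih =>
    rw [mul_assoc]
    exact Red.succ b n s _ hs ih

lemma Red.mul_left {b : Bool} {n : ℕ} {x : G} (h : Red F b n x) {c : G} (hc : c ∈ CC F) :
    Red F b n (c * x) := by
  cases h with
  | zero b d hd => exact Red.zero b _ ((CC F).mul_mem hc hd)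
  | succ b n s x hs hx =>
    rw [← mul_assoc]
    exact Red.succ b n _ _ (hs.mul_left hc) hx

lemma Red.zero' {x : G} {b : Bool} (h : Red F b 0 x) : x ∈ CC F := by
  cases h; assumption

lemma Red.append {b : Bool} {n : ℕ} {x : G} (h : Red F b n x) {m : ℕ} {y : G}
    (hy : Red F (nf b n) m y) : Red F b (n + m) (x * y) := by
  induction h with
  | zero b c hc =>
    rw [zero_add]
    exact hy.mul_left hc
  | succ b n s x hs hx ih =>
    have := Red.succ b (n + m) s _ hs (ih hy)
    rw [mul_assoc]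
    convert this using 1
    ring

lemma Red.one_letter {b : Bool} {s : G} (hs : Lt F b s) : Red F b 1 s := by
  have := Red.succ b 0 s 1 hs (Red.zero _ 1 (CC F).one_mem)
  rwa [mul_one] at this

lemma Red.inv {b : Bool} {n : ℕ} {x : G} (h : Red F b n x) : Red F (!(nf b n)) n x⁻¹ := by
  induction h with
  | zero b c hc => exact Red.zero _ _ ((CC F).inv_mem hc)
  | succ b n s x hs hx ih =>
    rw [mul_inv_rev, nf_succ]
    apply ih.append
    have e : nf (!(nf (!b) n)) n = b := by
      rw [nf_not, nf_nf, Bool.not_not]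
    rw [e]
    exact Red.one_letter hs.inv

lemma Red.split {b : Bool} {n : ℕ} {x : G} (h : Red F b n x) : ∀ q ≤ n, ∃ u v, x = u * v ∧
    Red F b q u ∧ Red F (nf b q) (n - q) v := by
  induction h with
  | zero b c hc =>
    intro q hq
    obtain rfl : q = 0 := by omega
    exact ⟨1, c, by simp, Red.zero _ _ (CC F).one_mem, Red.zero _ _ hc⟩
  | succ b n s x hs hx ih =>
    intro q hq
    rcases Nat.eq_zero_or_pos q with h0 | h0
    · subst h0
      exact ⟨1, s * x, by simp, Red.zero _ _ (CC F).one_mem, Red.succ b n s x hs hx⟩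
    · obtain ⟨q, rfl⟩ : ∃ q', q = q' + 1 := ⟨q - 1, by omega⟩
      obtain ⟨u, v, h1, h2, h3⟩ := ih q (by omega)
      refine ⟨s * u, v, by rw [h1, mul_assoc], Red.succ b q s u hs h2, ?_⟩
      rw [nf_succ]
      convert h3 using 1
      omega

variable (F)

/-- `G` is the free product of `F true` and `F false` amalgamated over their intersection. -/
structure Amalg : Prop where
  NF : ∀ b n x, Red F b (n + 1) x → x ≠ 1
  gen : Subgroup.closure ((F true : Set G) ∪ (F false : Set G)) = ⊤

namespace Amalg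

variable {F} (S : Amalg F)

include S

lemma NF' {b : Bool} {n : ℕ} {x : G} (h : Red F b (n + 1) x) : x ∉ CC F := by
  intro hx
  have := h.mul_right ((CC F).inv_mem hx)
  rw [mul_inv_cancel] at this
  exact S.NF _ _ _ this rfl

/-- Words starting with different types do not cancel. -/
lemma append_ne {b : Bool} {n : ℕ} {x : G} (h : Red F b (n + 1) x) {b' : Bool} {m : ℕ} {y : G}
    (hy : Red F b' (m + 1) y) (hb : b' ≠ b) : x ≠ y := by
  intro he
  have h1 := h.inv
  have e : nf (!(nf b (n + 1))) (n + 1) = b' := by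
    rw [nf_not, nf_nf]
    cases b <;> cases b' <;> simp_all
  have h2 := h1.append (m := m + 1) (y := y) (by rw [e]; exact hy)
  rw [he, inv_mul_cancel] at h2
  exact S.NF _ _ _ h2 rfl

lemma unique {b : Bool} {n : ℕ} {x : G} (h : Red F b n x) : ∀ {b' : Bool} {m : ℕ} {y : G},
    Red F b' m y → x = y → n = m ∧ (n ≠ 0 → b = b') := by
  induction h with
  | zero b c hc =>
    intro b' m y hy he
    cases m with
    | zero => exact ⟨rfl, fun h => absurd rfl h⟩
    | succ m =>
      subst he
      exact absurd hc (S.NF' hy)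
  | succ b n s x hs hx ih =>
    intro b' m y hy he
    cases hy with
    | zero _ _ hc =>
      rw [← he] at hc
      exact absurd hc (S.NF' (Red.succ b n s x hs hx))
    | succ _ m r y' hr hy' =>
      by_cases hb : b' = b
      · subst hb
        have hmem : s⁻¹ * r ∈ F b' := (F b').mul_mem ((F b').inv_mem hs.1) hr.1
        have hxe : x = s⁻¹ * r * y' := by
          rw [mul_assoc, ← he]; group
        by_cases hc : s⁻¹ * r ∈ CC F
        · obtain ⟨h1, h2⟩ := ih (hy'.mul_left hc) hxe
          exact ⟨by rw [h1], fun _ => rfl⟩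
        · obtain ⟨h1, h2⟩ := ih (Red.succ b' m _ _ ⟨hmem, hc⟩ hy') hxe
          have := h2 (by omega)
          cases b' <;> simp at this
      · exact absurd he (S.append_ne (Red.succ b n s x hs hx) (Red.succ b' m r y' hr hy') hb)

lemma exists_red (x : G) : ∃ b n, Red F b n x := by
  have hx : x ∈ Subgroup.closure ((F true : Set G) ∪ (F false : Set G)) := by
    rw [S.gen]; trivial
  have key : ∀ (b' : Bool) (a y : G), a ∈ F b' → (∃ b n, Red F b n y) → ∃ b n, Red F b n (a * y) := by
    rintro b' a y ha ⟨b, n, h⟩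
    by_cases hc : a ∈ CC F
    · exact ⟨b, n, h.mul_left hc⟩
    cases h with
    | zero _ c hc' =>
      exact ⟨b', 1, (Red.one_letter ⟨ha, hc⟩).mul_right hc'⟩
    | succ _ n s y' hs hy' =>
      by_cases hb : b = b'
      · subst hb
        rw [← mul_assoc]
        by_cases hc2 : a * s ∈ CC F
        · exact ⟨_, _, hy'.mul_left hc2⟩
        · exact ⟨b, n + 1, Red.succ b n _ _ ⟨(F b).mul_mem ha hs.1, hc2⟩ hy'⟩
      · refine ⟨b', n + 2, Red.succ b' (n + 1) a _ ⟨ha, hc⟩ ?_⟩
        have e : (!b') = b := by cases b <;> cases b' <;> simp_all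
        rw [e]
        exact Red.succ b n s y' hs hy'
  induction hx using Subgroup.closure_induction_left with
  | one => exact ⟨true, 0, Red.zero _ _ (CC F).one_mem⟩
  | mul_left a ha y hy ih =>
    rcases ha with ha | ha
    · exact key true a y ha ih
    · exact key false a y ha ih
  | inv_mul_cancel a ha y hy ih =>
    rcases ha with ha | ha
    · exact key true _ y ((F true).inv_mem ha) ih
    · exact key false _ y ((F false).inv_mem ha) ih

/-- Syllable length. -/
noncomputable def len (x : G) : ℕ := Classical.choose (Classical.choose_spec (S.exists_red x))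

lemma len_eq {b : Bool} {n : ℕ} {x : G} (h : Red F b n x) : S.len x = n := by
  have h1 := Classical.choose_spec (Classical.choose_spec (S.exists_red x))
  exact (S.unique h1 h rfl).1

lemma len_red (x : G) : ∃ b, Red F b (S.len x) x := by
  obtain ⟨b, n, h⟩ := S.exists_red x
  exact ⟨b, by rw [S.len_eq h]; exact h⟩

lemma len_one : S.len 1 = 0 := S.len_eq (Red.zero true 1 (CC F).one_mem)

lemma len_inv (x : G) : S.len x⁻¹ = S.len x := by
  obtain ⟨b, h⟩ := S.len_red x
  exact S.len_eq h.inv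

/-- No cancellation. -/
lemma len_ne {b b' : Bool} {n m : ℕ} {x y : G} (h : Red F b n x) (h' : Red F b' m y)
    (hne : n = 0 ∨ m = 0 ∨ b' ≠ b) : S.len (x⁻¹ * y) = n + m := by
  rcases Nat.eq_zero_or_pos n with h0 | h0
  · subst h0
    rw [zero_add]
    exact S.len_eq (h'.mul_left ((CC F).inv_mem h.zero'))
  rcases Nat.eq_zero_or_pos m with h1 | h1
  · subst h1
    rw [add_zero]
    exact S.len_eq (h.inv.mul_right h'.zero')
  have hb : b' ≠ b := by
    rcases hne with h | h | h
    · omega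
    · omega
    · exact h
  have e : nf (!(nf b n)) n = b' := by
    rw [nf_not, nf_nf]
    cases b <;> cases b' <;> simp_all
  exact S.len_eq (h.inv.append (by rw [e]; exact h'))

/-- The letters merge. -/
lemma len_merge {b : Bool} {n m : ℕ} {s r x y : G} (hs : Lt F b s) (hr : Lt F b r)
    (hx : Red F (!b) n x) (hy : Red F (!b) m y) (hc : s⁻¹ * r ∉ CC F) :
    S.len ((s * x)⁻¹ * (r * y)) = n + m + 1 := by
  have h1 : Red F b (m + 1) (s⁻¹ * r * y) :=
    Red.succ b m _ _ ⟨(F b).mul_mem ((F b).inv_mem hs.1) hr.1, hc⟩ hy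
  have h2 := S.len_ne hx h1 (by right; right; cases b <;> simp)
  rw [show (s * x)⁻¹ * (r * y) = x⁻¹ * (s⁻¹ * r * y) by group, h2]
  ring

/-- Twice the Gromov product. -/
noncomputable def gp (x y : G) : ℤ := (S.len x : ℤ) + S.len y - S.len (x⁻¹ * y)

/-- The three cases. -/
lemma cases_gp {b b' : Bool} {n m : ℕ} {x y : G} (h : Red F b n x) (h' : Red F b' m y) :
    (S.gp x y = 0 ∧ (n = 0 ∨ m = 0 ∨ b' ≠ b)) ∨
    (b' = b ∧ 1 ≤ n ∧ 1 ≤ m ∧ (S.gp x y = 1 ∨ ∃ s, Lt F b s ∧ Red F (!b) (n - 1) (s⁻¹ * x) ∧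
      Red F (!b) (m - 1) (s⁻¹ * y) ∧ S.gp x y = 2 + S.gp (s⁻¹ * x) (s⁻¹ * y))) := by
  by_cases hne : n = 0 ∨ m = 0 ∨ b' ≠ b
  · left
    refine ⟨?_, hne⟩
    unfold gp
    rw [S.len_ne h h' hne, S.len_eq h, S.len_eq h']
    push_cast; ring
  right
  push Not at hne
  obtain ⟨h0, h1, hb⟩ := hne
  subst hb
  refine ⟨rfl, by omega, by omega, ?_⟩
  cases h with
  | zero => exact absurd rfl h0
  | succ _ n s x hs hx =>
    cases h' with
    | zero => exact absurd rfl h1
    | succ _ m r y hr hy =>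
      by_cases hc : s⁻¹ * r ∈ CC F
      · right
        have e1 : s⁻¹ * (s * x) = x := by group
        have hy2 : Red F (!b') m (s⁻¹ * (r * y)) := by
          rw [← mul_assoc]; exact hy.mul_left hc
        refine ⟨s, hs, by rw [e1]; exact hx, hy2, ?_⟩
        have e2 : (s⁻¹ * (s * x))⁻¹ * (s⁻¹ * (r * y)) = (s * x)⁻¹ * (r * y) := by group
        unfold gp
        rw [e2, S.len_eq (Red.succ b' n s x hs hx), S.len_eq (Red.succ b' m r y hr hy),
          S.len_eq hy2, e1, S.len_eq hx]
        push_cast; ring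
      · left
        unfold gp
        rw [S.len_merge hs hr hx hy hc, S.len_eq (Red.succ b' n s x hs hx),
          S.len_eq (Red.succ b' m r y hr hy)]
        push_cast; ring

lemma gp_nonneg' (n : ℕ) : ∀ (b : Bool) (x : G), Red F b n x → ∀ (b' : Bool) (m : ℕ) (y : G),
    Red F b' m y → 0 ≤ S.gp x y := by
  induction n with
  | zero =>
    intro b x h b' m y h'
    rcases S.cases_gp h h' with ⟨h1, -⟩ | ⟨-, h1, -⟩
    · rw [h1]
    · omega
  | succ n ih =>
    intro b x h b' m y h'
    rcases S.cases_gp h h' with ⟨h1, -⟩ | ⟨-, h1, h2, h3 | ⟨s, hs, hx, hy, h3⟩⟩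
    · rw [h1]
    · rw [h3]; norm_num
    · have := ih _ _ hx _ _ _ hy
      omega

lemma gp_hyp (n : ℕ) : ∀ (b : Bool) (x : G), Red F b n x → ∀ (b' : Bool) (m : ℕ) (y : G),
    Red F b' m y → ∀ (b'' : Bool) (k : ℕ) (z : G), Red F b'' k z →
    min (S.gp x y) (S.gp y z) ≤ S.gp x z := by
  induction n with
  | zero =>
    intro b x h b' m y h' b'' k z h''
    have h3 := S.gp_nonneg' _ _ _ h _ _ _ h''
    rcases S.cases_gp h h' with ⟨h1, -⟩ | ⟨-, h1, -⟩
    · rw [h1]; exact (min_le_left _ _).trans h3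
    · omega
  | succ n ih =>
    intro b x h b' m y h' b'' k z h''
    have h3 := S.gp_nonneg' _ _ _ h _ _ _ h''
    rcases S.cases_gp h h' with ⟨h1, -⟩ | ⟨rfl, -, hm, h1⟩
    · rw [h1]; exact (min_le_left _ _).trans h3
    rcases S.cases_gp h' h'' with ⟨h2, -⟩ | ⟨rfl, -, hk, h2⟩
    · rw [h2]; exact (min_le_right _ _).trans h3
    have h4 : 1 ≤ S.gp x z := by
      rcases S.cases_gp h h'' with ⟨-, h4⟩ | ⟨-, -, -, h4 | ⟨s, hs, hx, hz, h4⟩⟩
      · exfalso
        rcases h4 with h4 | h4 | h4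
        · omega
        · omega
        · exact h4 rfl
      · omega
      · have := S.gp_nonneg' _ _ _ hx _ _ _ hz
        omega
    rcases h1 with h1 | ⟨s, hs, hx, hy, h1⟩
    · rw [h1]; exact (min_le_left _ _).trans h4
    rcases h2 with h2 | ⟨r, hr, hy2, hz, h2⟩
    · rw [h2]; exact (min_le_right _ _).trans h4
    -- `s⁻¹ r ∈ C`
    have hsr : s⁻¹ * r ∈ CC F := by
      by_contra hc
      -- y = s y1 = r y2
      have h5 : Red F b'' (m - 1 + 1) (s⁻¹ * r * (r⁻¹ * y)) :=
        Red.succ _ _ _ _ ⟨(F b'').mul_mem ((F b'').inv_mem hs.1) hr.1, hc⟩ hy2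
      have e : s⁻¹ * r * (r⁻¹ * y) = s⁻¹ * y := by group
      rw [e] at h5
      have := (S.unique h5 hy rfl).1
      omega
    have hz' : Red F (!b'') (k - 1) (s⁻¹ * z) := by
      have := hz.mul_left hsr
      have e : s⁻¹ * r * (r⁻¹ * z) = s⁻¹ * z := by group
      rwa [e] at this
    have e2 : S.gp (r⁻¹ * y) (r⁻¹ * z) = S.gp (s⁻¹ * y) (s⁻¹ * z) := by
      unfold gp
      rw [S.len_eq hy2, S.len_eq hz, S.len_eq hy, S.len_eq hz']
      congr 3; group
    have e3 : S.gp x z = 2 + S.gp (s⁻¹ * x) (s⁻¹ * z) := by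
      unfold gp
      have e4 : (s⁻¹ * x)⁻¹ * (s⁻¹ * z) = x⁻¹ * z := by group
      rw [e4, S.len_eq hx, S.len_eq hz', S.len_eq h, S.len_eq h'']
      omega
    have := ih _ _ (by simpa using hx) _ _ _ hy _ _ _ hz'
    rw [e3, h1, h2, e2]
    rcases min_le_iff.1 this with h5 | h5
    · exact (min_le_left _ _).trans (by omega)
    · exact (min_le_right _ _).trans (by omega)

lemma gp_par (k : ℕ) : ∀ (b b' : Bool) (n m : ℕ) (x y : G), Red F b n x → Red F b' m y →
    1 ≤ k → k < n → k < m → S.gp x y ≠ 2 * k := by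
  induction k with
  | zero => intro b b' n m x y _ _ h; omega
  | succ k ih =>
    intro b b' n m x y h h' _ h1 h2 he
    rcases S.cases_gp h h' with ⟨h3, -⟩ | ⟨rfl, -, -, h3 | ⟨s, hs, hx, hy, h3⟩⟩
    · omega
    · omega
    · rcases Nat.eq_zero_or_pos k with h0 | h0
      · subst h0
        rcases S.cases_gp hx hy with ⟨h4, h5⟩ | ⟨-, -, -, h4 | ⟨r, hr, hx2, hy2, h4⟩⟩
        · rcases h5 with h5 | h5 | h5
          · omega
          · omega
          · exact h5 rfl
        · omega
        · have := S.gp_nonneg' _ _ _ hx2 _ _ _ hy2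
          omega
      · apply ih _ _ _ _ _ _ hx hy h0 (by omega) (by omega)
        push_cast at he
        omega

/-- The syllable length is a length function. -/
noncomputable def lenFn : LenFn G where
  L := S.len
  one := S.len_one
  inv := S.len_inv
  hyp := by
    intro x y z
    obtain ⟨b, hx⟩ := S.len_red x
    obtain ⟨b', hy⟩ := S.len_red y
    obtain ⟨b'', hz⟩ := S.len_red z
    exact S.gp_hyp _ _ _ hx _ _ _ hy _ _ _ hz
  pre := by
    intro x q hq
    obtain ⟨b, hx⟩ := S.len_red x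
    obtain ⟨u, v, h1, h2, h3⟩ := hx.split q hq
    refine ⟨u, S.len_eq h2, ?_⟩
    have e : u⁻¹ * x = v := by
      calc u⁻¹ * x = u⁻¹ * (u * v) := by rw [← h1]
        _ = v := by group
    rw [e, S.len_eq h3]
    omega
  par := by
    intro x z k h1 h2 h3
    obtain ⟨b, hx⟩ := S.len_red x
    obtain ⟨b'', hz⟩ := S.len_red z
    exact S.gp_par k _ _ _ _ _ _ hx hz h1 h2 h3

end Amalg

end Pool.Agent.TH74.RS
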