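import Mathlib
import Pool.Agent.TH74.RS.Amal

set_option autoImplicit false
set_option linter.unusedSectionVars false
set_option linter.unusedSimpArgs false

/-!
# Labelled cyclic words: hyperbolic elements of an amalgam are not generalised torsion

The edge group is relatively torsion free (`RTF`) in the factors: no nonempty product
`c₀ g c₁ g ⋯ g cₖ` with `g` in a factor and outside the edge group `C`, `cᵢ ∈ C`, lies in `C`.
-/

namespace Pool.Agent.TH74.RS

variable {G : Type*} [Group G] {F : Bool → Subgroup G}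

/-- Products `c₀ g c₁ g ⋯ g cₖ`, `k ≥ 1`. -/
inductive Pw (F : Bool → Subgroup G) (g : G) : G → Prop
  | base (c c' : G) (hc : c ∈ CC F) (hc' : c' ∈ CC F) : Pw F g (c * g * c')
  | step (t t' : G) (h : Pw F g t) (h' : Pw F g t') : Pw F g (t * t')

/-- The edge group is relatively torsion free. -/
def RTF (F : Bool → Subgroup G) : Prop := ∀ b g, Lt F b g → ∀ t, Pw F g t → t ∉ CC F

section chains

variable {M : ℕ}

/-- Chains of corners of the cyclic word `s`. -/
inductive Ch (F : Bool → Subgroup G) (s : ZMod M → G) (par : ZMod M → Bool) :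
    G → ZMod M → ZMod M → ℕ → Prop
  | base (i : ZMod M) (c c' : G) (hc : c ∈ CC F) (hc' : c' ∈ CC F) :
      Ch F s par (c * s i * c') i i 0
  | step (t t' : G) (p q p' q' : ZMod M) (k k' : ℕ) (h : Ch F s par t p q k)
      (h' : Ch F s par t' p' q' k') (hp : par p' = par q) :
      Ch F s par (t * t') p q' (k + k' + (q - p').val)

variable {s : ZMod M → G} {par : ZMod M → Bool}

lemma Ch.par_eq (hs : ∀ i, Lt F (par i) (s i)) {t : G} {p q : ZMod M} {k : ℕ}
    (h : Ch F s par t p q k) : par p = par q ∧ t ∈ F (par p) := by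
  induction h with
  | base i c c' hc hc' =>
    exact ⟨rfl, (F _).mul_mem ((F _).mul_mem (CC_le F _ hc) (hs i).1) (CC_le F _ hc')⟩
  | step t t' p q p' q' k k' h h' hp ih ih' =>
    obtain ⟨h1, h2⟩ := ih
    obtain ⟨h3, h4⟩ := ih'
    refine ⟨by rw [h1, ← hp, h3], (F _).mul_mem h2 ?_⟩
    rw [h1, ← hp]; exact h4

lemma Ch.mod [NeZero M] {t : G} {p q : ZMod M} {k : ℕ} (h : Ch F s par t p q k) :
    (k : ZMod M) = p - q := by
  induction h with
  | base i c c' hc hc' => simp
  | step t t' p q p' q' k k' h h' hp ih ih' =>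
    push_cast
    rw [ih, ih', ZMod.natCast_zmod_val]; ring

lemma Ch.zero [NeZero M] {t : G} {p q : ZMod M} {k : ℕ} (h : Ch F s par t p q k) :
    k = 0 → Pw F (s p) t ∧ p = q := by
  induction h with
  | base i c c' hc hc' => intro _; exact ⟨Pw.base c c' hc hc', rfl⟩
  | step t t' p q p' q' k k' h h' hp ih ih' =>
    intro h0
    obtain ⟨h1, h2⟩ := ih (by omega)
    obtain ⟨h3, h4⟩ := ih' (by omega)
    have h5 : (q - p').val = 0 := by omega
    rw [ZMod.val_eq_zero, sub_eq_zero] at h5
    subst h2; subst h4; subst h5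
    exact ⟨Pw.step _ _ h1 h3, rfl⟩

lemma Ch.mul_left {t : G} {p q : ZMod M} {k : ℕ} (h : Ch F s par t p q k) {c : G}
    (hc : c ∈ CC F) : Ch F s par (c * t) p q k := by
  induction h with
  | base i d d' hd hd' =>
    rw [← mul_assoc, ← mul_assoc]
    exact Ch.base i _ _ ((CC F).mul_mem hc hd) hd'
  | step t t' p q p' q' k k' h h' hp ih ih' =>
    rw [← mul_assoc]
    exact Ch.step _ _ _ _ _ _ _ _ ih h' hp

lemma Ch.mul_right {t : G} {p q : ZMod M} {k : ℕ} (h : Ch F s par t p q k) {c : G}
    (hc : c ∈ CC F) : Ch F s par (t * c) p q k := by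
  induction h with
  | base i d d' hd hd' =>
    rw [mul_assoc]
    exact Ch.base i _ _ hd ((CC F).mul_mem hd' hc)
  | step t t' p q p' q' k k' h h' hp ih ih' =>
    rw [mul_assoc]
    exact Ch.step _ _ _ _ _ _ _ _ h ih' hp

lemma val_add [NeZero M] (hM : 2 ≤ M) (δ : ZMod M) (h : δ ≠ 0) :
    (δ - 1).val + (-δ - 1).val + 2 = M := by
  have h1 := ZMod.val_lt (δ - 1)
  have h2 := ZMod.val_lt (-δ - 1)
  have h3 : (((δ - 1).val + (-δ - 1).val + 2 : ℕ) : ZMod M) = 0 := by
    push_cast
    rw [ZMod.natCast_zmod_val, ZMod.natCast_zmod_val]; ring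
  rw [ZMod.natCast_eq_zero_iff] at h3
  obtain ⟨c, hc⟩ := h3
  have hc1 : c ≤ 2 := by
    by_contra hlt
    push Not at hlt
    have : M * 3 ≤ M * c := Nat.mul_le_mul_left _ hlt
    omega
  have hc0 : c ≠ 0 := by rintro rfl; omega
  rcases (by omega : c = 1 ∨ c = 2) with rfl | rfl
  · omega
  · exfalso
    apply h
    have h4 : (δ - 1).val + 1 = M := by omega
    have h5 : (((δ - 1).val + 1 : ℕ) : ZMod M) = 0 := by
      rw [h4]; simp
    push_cast at h5
    rw [ZMod.natCast_zmod_val] at h5
    simpa using h5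

end chains

/-- A labelled letter. -/
structure Ltr (G : Type*) (M : ℕ) where
  t : G
  p : ZMod M
  q : ZMod M
  k : ℕ

variable {M : ℕ}

/-- Consecutive letters. -/
def Lk (a b : Ltr G M) : Prop := b.p = a.q + 1

/-- Cyclic words. -/
def Cyc : List (Ltr G M) → Prop
  | [] => False
  | a :: m => List.IsChain Lk (a :: (m ++ [a]))

/-- The value of a word. -/
def pr (l : List (Ltr G M)) : G := (l.map (fun a => a.t)).prod

/-- The cost of a word. -/
def cst (l : List (Ltr G M)) : ℕ := (l.map (fun a => a.k)).sum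

@[simp] lemma pr_nil : pr ([] : List (Ltr G M)) = 1 := rfl
@[simp] lemma pr_cons (a : Ltr G M) (l : List (Ltr G M)) : pr (a :: l) = a.t * pr l := by simp [pr]
@[simp] lemma pr_append (l m : List (Ltr G M)) : pr (l ++ m) = pr l * pr m := by simp [pr]
@[simp] lemma cst_nil : cst ([] : List (Ltr G M)) = 0 := rfl
@[simp] lemma cst_cons (a : Ltr G M) (l : List (Ltr G M)) : cst (a :: l) = a.k + cst l := by
  simp [cst]
@[simp] lemma cst_append (l m : List (Ltr G M)) : cst (l ++ m) = cst l + cst m := by simp [cst]

lemma chain_replace (m : List (Ltr G M)) : ∀ (a z a' z' : Ltr G M), a'.q = a.q → z'.p = z.p →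
    List.IsChain Lk (a :: (m ++ [z])) → List.IsChain Lk (a' :: (m ++ [z'])) := by
  induction m with
  | nil =>
    intro a z a' z' h1 h2 h
    simp only [List.nil_append, List.isChain_cons_cons, List.isChain_singleton, and_true] at h ⊢
    unfold Lk at h ⊢
    rw [h1, h2]; exact h
  | cons b m ih =>
    intro a z a' z' h1 h2 h
    simp only [List.cons_append, List.isChain_cons_cons] at h ⊢
    refine ⟨?_, ih b z b z' rfl h2 h.2⟩
    have := h.1
    unfold Lk at this ⊢
    rw [h1]; exact this

/-- Good cyclic words. -/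
structure Good (F : Bool → Subgroup G) (s : ZMod M → G) (par : ZMod M → Bool)
    (l : List (Ltr G M)) : Prop where
  cyc : Cyc l
  ch : ∀ a ∈ l, Ch F s par a.t a.p a.q a.k
  cost : cst l + M ≤ l.length

/-- Reduced words. -/
def Rdc (F : Bool → Subgroup G) (l : List (Ltr G M)) : Prop := ∀ a ∈ l, a.t ∉ CC F

variable {s : ZMod M → G} {par : ZMod M → Bool}

lemma Good.rot1 {a : Ltr G M} {m : List (Ltr G M)} (h : Good F s par (a :: m)) :
    Good F s par (m ++ [a]) := by
  refine ⟨?_, ?_, ?_⟩
  · cases m with
    | nil => exact h.cyc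
    | cons b m =>
      have h1 : List.IsChain Lk (a :: (b :: m ++ [a])) := h.cyc
      show List.IsChain Lk (b :: (m ++ [a] ++ [b]))
      have e : b :: (m ++ [a] ++ [b]) = (b :: m) ++ a :: [b] := by simp
      rw [e, List.isChain_split]
      simp only [List.cons_append, List.isChain_cons_cons] at h1
      refine ⟨?_, ?_⟩
      · simpa using h1.2
      · simpa using h1.1
  · intro x hx
    apply h.ch
    simp only [List.mem_append, List.mem_singleton, List.mem_cons] at hx ⊢
    tauto
  · have := h.cost
    simp only [cst_append, cst_cons, cst_nil, List.length_append, List.length_cons,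
      List.length_nil] at this ⊢
    omega

lemma Good.rot {l₁ l₂ : List (Ltr G M)} (h : Good F s par (l₁ ++ l₂)) :
    Good F s par (l₂ ++ l₁) := by
  induction l₁ generalizing l₂ with
  | nil => simpa using h
  | cons a l₁ ih =>
    have h1 : Good F s par (l₁ ++ (l₂ ++ [a])) := by
      have := Good.rot1 (a := a) (m := l₁ ++ l₂) h
      simpa using this
    have h2 := ih h1
    simpa using h2

lemma Rdc.rot {l₁ l₂ : List (Ltr G M)} (h : Rdc F (l₁ ++ l₂)) : Rdc F (l₂ ++ l₁) := by
  intro a ha
  apply h
  simp only [List.mem_append] at ha ⊢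
  tauto

lemma Good.length (hM : 2 ≤ M) {l : List (Ltr G M)} (h : Good F s par l) : 2 ≤ l.length := by
  have := h.cost; omega

/-- Shape of a good word. -/
lemma Good.shape (hM : 2 ≤ M) {l : List (Ltr G M)} (h : Good F s par l) :
    ∃ a m z, l = a :: (m ++ [z]) := by
  have h1 := h.length hM
  rcases l with _ | ⟨a, l⟩
  · simp at h1
  rcases List.eq_nil_or_concat l with h2 | ⟨m, z, h2⟩
  · subst h2; simp at h1
  · exact ⟨a, m, z, by rw [h2, List.concat_eq_append]⟩

variable (hs : ∀ i, Lt F (par i) (s i)) (hpar : ∀ i, par (i + 1) = !(par i))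

include hs hpar

lemma nf_chain (m : List (Ltr G M)) : ∀ a z : Ltr G M, List.IsChain Lk (a :: (m ++ [z])) →
    (∀ x ∈ a :: m, Ch F s par x.t x.p x.q x.k) → nf (par a.p) (m.length + 1) = par z.p := by
  induction m with
  | nil =>
    intro a z h hc
    simp only [List.nil_append, List.isChain_cons_cons, List.isChain_singleton, and_true] at h
    have h1 := ((hc a (by simp)).par_eq hs).1
    unfold Lk at h
    rw [h, hpar, ← h1]; rfl
  | cons b m ih =>
    intro a z h hc
    simp only [List.cons_append, List.isChain_cons_cons] at h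
    have h1 := ((hc a (by simp)).par_eq hs).1
    have h2 := ih b z h.2 (fun x hx => hc x (by simp at hx ⊢; tauto))
    have h3 := h.1
    unfold Lk at h3
    rw [h3, hpar, ← h1] at h2
    rw [List.length_cons, nf_succ]
    exact h2

lemma red_chain (l : List (Ltr G M)) : ∀ a : Ltr G M, List.IsChain Lk (a :: l) →
    (∀ x ∈ a :: l, Ch F s par x.t x.p x.q x.k) → Rdc F (a :: l) →
    Red F (par a.p) (l.length + 1) (pr (a :: l)) := by
  induction l with
  | nil =>
    intro a _ hc hr
    have h1 := (hc a (by simp)).par_eq hs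
    simp only [List.length_nil, zero_add, pr_cons, pr_nil, mul_one]
    exact Red.one_letter ⟨h1.2, hr a (by simp)⟩
  | cons b l ih =>
    intro a h hc hr
    rw [List.isChain_cons_cons] at h
    have h1 := (hc a (by simp)).par_eq hs
    have h2 := ih b h.2 (fun x hx => hc x (by simp at hx ⊢; tauto))
      (fun x hx => hr x (by simp at hx ⊢; tauto))
    have h3 := h.1
    unfold Lk at h3
    rw [h3, hpar, ← h1.1] at h2
    rw [pr_cons, List.length_cons]
    exact Red.succ _ _ _ _ ⟨h1.2, hr a (by simp)⟩ h2

/-- The element of a reduced good word. -/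
lemma Good.red {a : Ltr G M} {m : List (Ltr G M)} (h : Good F s par (a :: m))
    (hr : Rdc F (a :: m)) : Red F (par a.p) (m.length + 1) (pr (a :: m)) ∧
      nf (par a.p) (m.length + 1) = par a.p := by
  have h1 : List.IsChain Lk (a :: (m ++ [a])) := h.cyc
  refine ⟨red_chain hs hpar m a ?_ h.ch hr, nf_chain hs hpar m a a h1 h.ch⟩
  have e : a :: (m ++ [a]) = (a :: m) ++ [a] := rfl
  rw [e] at h1
  exact (List.isChain_append.1 h1).1

variable (S : Amalg F)

lemma Good.len_sq {l : List (Ltr G M)} (h : Good F s par l) (hr : Rdc F l) :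
    S.len (pr l) = l.length ∧ S.len (pr l * pr l) = 2 * l.length := by
  rcases l with _ | ⟨a, m⟩
  · exact absurd h.cyc (by simp [Cyc])
  · obtain ⟨h1, h2⟩ := h.red hs hpar hr
    refine ⟨S.len_eq h1, ?_⟩
    have h3 := h1.append (m := m.length + 1) (y := pr (a :: m)) (by rw [h2]; exact h1)
    rw [S.len_eq h3, List.length_cons]; ring

/-- Conjugates with the same length are rotations. -/
lemma Good.conj (hM : 2 ≤ M) (k : ℕ) : ∀ (z : G) (l : List (Ltr G M)), S.len z = k →
    Good F s par l → Rdc F l → S.len (z⁻¹ * pr l * z) ≤ l.length →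
    ∃ l', Good F s par l' ∧ Rdc F l' ∧ pr l' = z⁻¹ * pr l * z := by
  induction k with
  | zero =>
    intro z l hz h hr _
    obtain ⟨b, hzr⟩ := S.len_red z
    rw [hz] at hzr
    have hzc := hzr.zero'
    have hzc' := (CC F).inv_mem hzc
    obtain ⟨a, m, w, rfl⟩ := h.shape hM
    have ha := h.ch a (by simp)
    have hw := h.ch w (by simp)
    refine ⟨{ a with t := z⁻¹ * a.t } :: (m ++ [{ w with t := w.t * z }]), ⟨?_, ?_, ?_⟩, ?_, ?_⟩
    · have h1 : List.IsChain Lk (a :: (m ++ [w] ++ [a])) := h.cyc
      have e1 : a :: (m ++ [w] ++ [a]) = (a :: m) ++ w :: [a] := by simp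
      rw [e1, List.isChain_split] at h1
      show List.IsChain Lk ({ a with t := z⁻¹ * a.t } :: (m ++ [{ w with t := w.t * z }] ++
        [{ a with t := z⁻¹ * a.t }]))
      have e2 : ({ a with t := z⁻¹ * a.t } : Ltr G M) :: (m ++ [{ w with t := w.t * z }] ++
        [{ a with t := z⁻¹ * a.t }]) = ({ a with t := z⁻¹ * a.t } :: m) ++
          { w with t := w.t * z } :: [{ a with t := z⁻¹ * a.t }] := by simp
      rw [e2, List.isChain_split]
      refine ⟨chain_replace m a w _ _ rfl rfl h1.1, ?_⟩
      have h2 := h1.2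
      simp only [List.isChain_cons_cons, List.isChain_singleton, and_true] at h2 ⊢
      exact h2
    · intro x hx
      simp only [List.mem_cons, List.mem_append, List.not_mem_nil, or_false] at hx
      rcases hx with rfl | hx | rfl
      · exact ha.mul_left hzc'
      · exact h.ch x (by simp [hx])
      · exact hw.mul_right hzc
    · have := h.cost
      simp only [cst_append, cst_cons, cst_nil, List.length_append, List.length_cons,
        List.length_nil] at this ⊢
      omega
    · intro x hx
      simp only [List.mem_cons, List.mem_append, List.not_mem_nil, or_false] at hx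
      rcases hx with rfl | hx | rfl
      · intro hc
        apply hr a (by simp)
        have := (CC F).mul_mem hzc hc
        simpa using this
      · exact hr x (by simp [hx])
      · intro hc
        apply hr w (by simp)
        have := (CC F).mul_mem hc hzc'
        simpa using this
    · simp only [pr_cons, pr_append, pr_nil, mul_one]
      group
  | succ k ih =>
    intro z l hz h hr hlen
    obtain ⟨b, hzr⟩ := S.len_red z
    rw [hz] at hzr
    cases hzr with
    | succ _ _ r z' hrl hz' =>
    obtain ⟨a, m, w, rfl⟩ := h.shape hM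
    obtain ⟨hred, hnf⟩ := h.red hs hpar hr
    have ha := (h.ch a (by simp)).par_eq hs
    have hw := (h.ch w (by simp)).par_eq hs
    have haL : Lt F (par a.p) a.t := ⟨ha.2, hr a (by simp)⟩
    have hwL : Lt F (par w.p) w.t := ⟨hw.2, hr w (by simp)⟩
    have hcyc : List.IsChain Lk (a :: (m ++ [w] ++ [a])) := h.cyc
    have e1 : a :: (m ++ [w] ++ [a]) = (a :: m) ++ w :: [a] := by simp
    rw [e1, List.isChain_split] at hcyc
    have hwa : a.p = w.q + 1 := by
      have h2 := hcyc.2
      simp only [List.isChain_cons_cons, List.isChain_singleton, and_true] at h2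
      exact h2
    have hparw : par w.p = !(par a.p) := by
      rw [hwa, hpar, ← hw.1, Bool.not_not]
    have hzL : S.len z' = k := S.len_eq hz'
    by_cases hb : b = par a.p
    · -- the first letter
      subst hb
      have hmem : r⁻¹ * a.t ∈ F (par a.p) := (F _).mul_mem ((F _).inv_mem hrl.1) ha.2
      by_cases hc : r⁻¹ * a.t ∈ CC F
      · have hrot : Good F s par ((m ++ [w]) ++ [a]) := h.rot1
        have hrrot : Rdc F ((m ++ [w]) ++ [a]) := Rdc.rot (l₁ := [a]) hr
        have e2 : (a.t⁻¹ * (r * z')) = (r⁻¹ * a.t)⁻¹ * z' := by group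
        have h3 : S.len (a.t⁻¹ * (r * z')) = k := by
          rw [e2]
          exact S.len_eq (hz'.mul_left ((CC F).inv_mem hc))
        have e3 : (a.t⁻¹ * (r * z'))⁻¹ * pr ((m ++ [w]) ++ [a]) * (a.t⁻¹ * (r * z')) =
            (r * z')⁻¹ * pr (a :: (m ++ [w])) * (r * z') := by
          simp only [pr_cons, pr_append, pr_nil, mul_one]
          group
        obtain ⟨l', h4, h5, h6⟩ := ih _ _ h3 hrot hrrot (by
          rw [e3]
          refine hlen.trans ?_
          simp)
        exact ⟨l', h4, h5, by rw [h6, e3]⟩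
      · exfalso
        -- z'⁻¹ (r⁻¹ a) m w (r z')
        have h7 : Red F (par a.p) ((m ++ [w]).length + 1) (r⁻¹ * pr (a :: (m ++ [w]))) := by
          have hch : List.IsChain Lk (a :: (m ++ [w])) := hcyc.1
          have h8 := red_chain hs hpar (m ++ [w]) a hch h.ch hr
          rw [pr_cons] at h8 ⊢
          cases h8' : (m ++ [w]) with
          | nil => simp at h8'
          | cons b' l' =>
            rw [h8'] at hch
            rw [List.isChain_cons_cons] at hch
            have h9 := red_chain hs hpar l' b' hch.2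
              (fun x hx => h.ch x (by rw [h8']; simp at hx ⊢; tauto))
              (fun x hx => hr x (by rw [h8']; simp at hx ⊢; tauto))
            have h10 := hch.1
            unfold Lk at h10
            rw [h10, hpar, ← ha.1] at h9
            have := Red.succ _ _ _ _ (⟨hmem, hc⟩ : Lt F (par a.p) (r⁻¹ * a.t)) h9
            rw [← mul_assoc]
            exact this
        have h11 : Red F (par a.p) ((m ++ [w]).length + 1 + (k + 1))
            (r⁻¹ * pr (a :: (m ++ [w])) * (r * z')) := by
          apply h7.append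
          rw [hnf]
          exact Red.succ _ _ _ _ hrl hz'
        have h12 := S.len_ne hz' h11 (by right; right; cases par a.p <;> simp)
        rw [show z'⁻¹ * (r⁻¹ * pr (a :: (m ++ [w])) * (r * z')) =
          (r * z')⁻¹ * pr (a :: (m ++ [w])) * (r * z') by group] at h12
        rw [h12] at hlen
        simp only [List.length_cons] at hlen
        omega
    · -- the last letter
      have hb' : b = par w.p := by
        rw [hparw]
        cases b <;> cases h13 : par a.p <;> simp_all
      subst hb'
      have hmem : w.t * r ∈ F (par w.p) := (F _).mul_mem hw.2 hrl.1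
      by_cases hc : w.t * r ∈ CC F
      · have hrot : Good F s par ([w] ++ (a :: m)) := by
          apply Good.rot (l₁ := a :: m)
          simpa using h
        have hrrot : Rdc F ([w] ++ (a :: m)) := by
          apply Rdc.rot (l₁ := a :: m)
          simpa using hr
        have e2 : (w.t * (r * z')) = (w.t * r) * z' := by group
        have h3 : S.len (w.t * (r * z')) = k := by
          rw [e2]
          exact S.len_eq (hz'.mul_left hc)
        have e3 : (w.t * (r * z'))⁻¹ * pr ([w] ++ (a :: m)) * (w.t * (r * z')) =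
            (r * z')⁻¹ * pr (a :: (m ++ [w])) * (r * z') := by
          simp only [pr_cons, pr_append, pr_nil, mul_one]
          group
        obtain ⟨l', h4, h5, h6⟩ := ih _ _ h3 hrot hrrot (by
          rw [e3]
          refine hlen.trans ?_
          simp)
        exact ⟨l', h4, h5, by rw [h6, e3]⟩
      · exfalso
        -- (r z')⁻¹ a m (w r) z'
        have h7 : Red F (par a.p) (m.length + 1) (pr (a :: m)) := by
          have hch : List.IsChain Lk (a :: (m ++ [w])) := hcyc.1
          have e : a :: (m ++ [w]) = (a :: m) ++ [w] := rfl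
          rw [e] at hch
          exact red_chain hs hpar m a (List.isChain_append.1 hch).1
            (fun x hx => h.ch x (by simp at hx ⊢; tauto))
            (fun x hx => hr x (by simp at hx ⊢; tauto))
        have h8 : nf (par a.p) (m.length + 1) = par w.p :=
          nf_chain hs hpar m a w hcyc.1 (fun x hx => h.ch x (by simp at hx ⊢; tauto))
        have h11 : Red F (par a.p) (m.length + 1 + (k + 1))
            (pr (a :: m) * ((w.t * r) * z')) := by
          apply h7.append
          rw [h8]
          exact Red.succ _ _ _ _ ⟨hmem, hc⟩ hz'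
        have h12 := S.len_ne (Red.succ _ _ _ _ hrl hz') h11
          (by right; right; rw [hparw]; cases par a.p <;> simp)
        rw [show (r * z')⁻¹ * (pr (a :: m) * ((w.t * r) * z')) =
          (r * z')⁻¹ * pr (a :: (m ++ [w])) * (r * z') by
            simp only [pr_cons, pr_append, pr_nil, mul_one]; group] at h12
        rw [h12] at hlen
        simp only [List.length_cons, List.length_append, List.length_nil] at hlen
        omega

/-- Merging two cyclic words. -/
lemma Good.merge (hM : 2 ≤ M) {l l' : List (Ltr G M)} (h : Good F s par l) (h' : Good F s par l')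
    (hr : Rdc F l) (hr' : Rdc F l')
    (hlt : S.len (pr l' * pr l) < S.len (pr l') + S.len (pr l)) :
    ∃ v l'', Good F s par l'' ∧ pr l' * pr l = v * pr l'' * v⁻¹ := by
  have : NeZero M := ⟨by omega⟩
  obtain ⟨a, m, z, rfl⟩ := h.shape hM
  obtain ⟨b, n, w, rfl⟩ := h'.shape hM
  obtain ⟨hred, hnf⟩ := h.red hs hpar hr
  obtain ⟨hred', hnf'⟩ := h'.red hs hpar hr'
  have ha := (h.ch a (by simp)).par_eq hs
  have hz := (h.ch z (by simp)).par_eq hs
  have hb := (h'.ch b (by simp)).par_eq hs
  have hw := (h'.ch w (by simp)).par_eq hs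
  have hcyc : List.IsChain Lk (a :: (m ++ [z] ++ [a])) := h.cyc
  have e1 : a :: (m ++ [z] ++ [a]) = (a :: m) ++ z :: [a] := by simp
  rw [e1, List.isChain_split] at hcyc
  have hza : a.p = z.q + 1 := by
    have h2 := hcyc.2
    simp only [List.isChain_cons_cons, List.isChain_singleton, and_true] at h2
    exact h2
  have hcyc' : List.IsChain Lk (b :: (n ++ [w] ++ [b])) := h'.cyc
  have e1' : b :: (n ++ [w] ++ [b]) = (b :: n) ++ w :: [b] := by simp
  rw [e1', List.isChain_split] at hcyc'
  have hwb : b.p = w.q + 1 := by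
    have h2 := hcyc'.2
    simp only [List.isChain_cons_cons, List.isChain_singleton, and_true] at h2
    exact h2
  have hne : par a.p ≠ par b.p := by
    intro he
    have h3 := hred'.append (m := (m ++ [z]).length + 1) (y := pr (a :: (m ++ [z])))
      (by rw [hnf', ← he]; exact hred)
    rw [S.len_eq h3, S.len_eq hred, S.len_eq hred'] at hlt
    omega
  have hpw : par w.q = !(par b.p) := by rw [hwb, hpar, Bool.not_not]
  have hpz : par z.q = !(par a.p) := by rw [hza, hpar, Bool.not_not]
  have hbool : ∀ x y : Bool, x ≠ y → x = !y := by decide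
  have haw : par a.p = par w.q := by
    rw [hpw]; exact hbool _ _ hne
  have hbz : par b.p = par z.q := by
    rw [hpz]; exact hbool _ _ hne.symm
  have hneq : w.q - z.q ≠ 0 := by
    intro h0
    rw [sub_eq_zero] at h0
    apply hne
    rw [haw, h0, ← hbz]
  have hcost := val_add hM (w.q - z.q) hneq
  let A : Ltr G M := ⟨w.t * a.t, w.p, a.q, w.k + a.k + (w.q - a.p).val⟩
  let B : Ltr G M := ⟨z.t * b.t, z.p, b.q, z.k + b.k + (z.q - b.p).val⟩
  refine ⟨b.t * pr n, A :: (m ++ B :: n), ⟨?_, ?_, ?_⟩, ?_⟩
  · show List.IsChain Lk (A :: (m ++ B :: n ++ [A]))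
    have e2 : A :: (m ++ B :: n ++ [A]) = (A :: m) ++ B :: (n ++ [A]) := by simp
    rw [e2, List.isChain_split]
    exact ⟨chain_replace m a z A B rfl rfl hcyc.1, chain_replace n b w B A rfl rfl hcyc'.1⟩
  · intro x hx
    simp only [List.mem_cons, List.mem_append] at hx
    rcases hx with rfl | hx | rfl | hx
    · exact Ch.step _ _ _ _ _ _ _ _ (h'.ch w (by simp)) (h.ch a (by simp)) haw
    · exact h.ch x (by simp [hx])
    · exact Ch.step _ _ _ _ _ _ _ _ (h.ch z (by simp)) (h'.ch b (by simp)) hbz
    · exact h'.ch x (by simp [hx])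
  · have c1 := h.cost
    have c2 := h'.cost
    simp only [cst_append, cst_cons, cst_nil, List.length_append, List.length_cons,
      List.length_nil] at c1 c2 ⊢
    have e3 : (w.q - a.p).val + (z.q - b.p).val + 2 = M := by
      have e4 : w.q - a.p = w.q - z.q - 1 := by rw [hza]; ring
      have e5 : z.q - b.p = -(w.q - z.q) - 1 := by rw [hwb]; ring
      rw [e4, e5]; exact hcost
    show w.k + a.k + (w.q - a.p).val + (cst m + (z.k + b.k + (z.q - b.p).val + cst n)) + M ≤ _
    omega
  · simp only [pr_cons, pr_append, pr_nil, mul_one, A, B]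
    group

/-- Reducing a cyclic word. -/
lemma Good.reduce (hM : 2 ≤ M) (hRTF : RTF F) (N : ℕ) : ∀ l : List (Ltr G M), l.length ≤ N →
    Good F s par l → ∃ v l', Good F s par l' ∧ Rdc F l' ∧ pr l = v * pr l' * v⁻¹ := by
  have : NeZero M := ⟨by omega⟩
  induction N with
  | zero =>
    intro l hl h
    have := h.length hM
    omega
  | succ N ih =>
    intro l hl h
    by_cases hr : Rdc F l
    · exact ⟨1, l, h, hr, by simp⟩
    unfold Rdc at hr
    push Not at hr
    obtain ⟨c, hc, hcC⟩ := hr
    obtain ⟨l₁, l₂, rfl⟩ := List.append_of_mem hc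
    have hcch := h.ch c (by simp)
    have hpc := (hcch.par_eq hs).1
    have hmod := hcch.mod
    have hk0 : c.k ≠ 0 := by
      intro h0
      have h1 := (hcch.zero h0).1
      exact hRTF _ _ (hs c.p) _ h1 hcC
    have hη : (c.q - c.p) + 1 ≠ 0 := by
      intro h0
      have h1 : c.p = c.q + 1 := by linear_combination (-1 : ZMod M) * h0
      rw [h1, hpar] at hpc
      cases h2 : par c.q <;> simp_all
    have hval := val_add hM _ hη
    rw [add_sub_cancel_right] at hval
    have hdvd : M ≤ c.k + (c.q - c.p).val := by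
      have h1 : ((c.k + (c.q - c.p).val : ℕ) : ZMod M) = 0 := by
        push_cast
        rw [hmod, ZMod.natCast_zmod_val]; ring
      rw [ZMod.natCast_eq_zero_iff] at h1
      exact Nat.le_of_dvd (by omega) h1
    -- rotate
    have h1 : Good F s par (c :: l₂ ++ l₁) := h.rot
    have hlen : 4 ≤ (c :: l₂ ++ l₁).length := by
      have := h1.cost
      simp only [List.cons_append, cst_cons, cst_append] at this ⊢
      omega
    have e0 : pr (l₁ ++ c :: l₂) = (pr l₁) * pr (c :: l₂ ++ l₁) * (pr l₁)⁻¹ := by
      simp only [pr_append, pr_cons]; group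
    have hl' : (c :: l₂ ++ l₁).length ≤ N + 1 := by
      simp only [List.length_append, List.length_cons] at hl ⊢; omega
    rw [e0]
    obtain ⟨m, hm⟩ : ∃ m, m = l₂ ++ l₁ := ⟨_, rfl⟩
    rw [List.cons_append, ← hm] at h1 hlen hl' ⊢
    clear h hl hc e0
    rcases List.eq_nil_or_concat m with h2 | ⟨m', a, h2⟩
    · rw [h2] at hlen; simp at hlen
    rw [List.concat_eq_append] at h2
    rcases m' with _ | ⟨b, m'⟩
    · rw [h2] at hlen; simp at hlen
    rw [h2] at h1 hlen hl' ⊢
    have h3 : Good F s par ([a] ++ (c :: b :: m')) := by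
      apply Good.rot (l₁ := c :: b :: m')
      simpa using h1
    have hch : List.IsChain Lk (a :: c :: b :: (m' ++ [a])) := h3.cyc
    simp only [List.isChain_cons_cons] at hch
    obtain ⟨hac, hcb, hbm⟩ := hch
    unfold Lk at hac hcb
    have hab : par b.p = par a.q := by
      rw [hcb, hpar, ← hpc, hac, hpar, Bool.not_not]
    let A : Ltr G M := ⟨a.t * (c.t * b.t), a.p, b.q, a.k + b.k + (a.q - b.p).val⟩
    have hA : Good F s par (A :: m') := by
      refine ⟨?_, ?_, ?_⟩
      · exact chain_replace m' b a A A rfl rfl hbm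
      · intro x hx
        simp only [List.mem_cons] at hx
        rcases hx with rfl | hx
        · exact Ch.step _ _ _ _ _ _ _ _ (h3.ch a (by simp))
            ((h3.ch b (by simp)).mul_left hcC) hab
        · exact h3.ch x (by simp [hx])
      · have c1 := h3.cost
        simp only [List.singleton_append, cst_cons, List.length_cons] at c1 ⊢
        have e3 : (a.q - b.p).val + (c.q - c.p).val + 2 = M := by
          have e4 : a.q - b.p = -(c.q - c.p + 1) - 1 := by rw [hcb, hac]; ring
          rw [e4]
          omega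
        show a.k + b.k + (a.q - b.p).val + cst m' + M ≤ _
        omega
    obtain ⟨v, l', h5, h6, h7⟩ := ih (A :: m') (by
      simp only [List.length_cons, List.length_append, List.length_nil] at hl' ⊢; omega) hA
    refine ⟨pr l₁ * a.t⁻¹ * v, l', h5, h6, ?_⟩
    have e6 : pr (c :: (b :: m' ++ [a])) = a.t⁻¹ * pr (A :: m') * a.t := by
      simp only [List.cons_append, pr_cons, pr_append, pr_nil, mul_one, A]
      group
    rw [e6, h7]
    group

/-- The set of elements represented by good reduced cyclic words. -/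
def XX (F : Bool → Subgroup G) (s : ZMod M → G) (par : ZMod M → Bool) : Set G :=
  {x | ∃ v l, Good F s par l ∧ Rdc F l ∧ x = v * pr l * v⁻¹}

include S in
/-- No nonempty product of elements of `XX` is trivial. -/
theorem XX_prod_ne_one (hM : 2 ≤ M) (hRTF : RTF F) :
    ∀ l : List G, l ≠ [] → (∀ x ∈ l, x ∈ XX F s par) → l.prod ≠ 1 := by
  apply S.lenFn.prod_ne_one (XX F s par)
  · rintro _ ⟨v, l, h, hr, rfl⟩ g
    exact ⟨g * v, l, h, hr, by group⟩
  · rintro _ ⟨v, l, h, hr, rfl⟩
    obtain ⟨h1, h2⟩ := h.len_sq hs hpar S hr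
    have h3 := h.length hM
    have := S.lenFn.conj_sq (pr l) v (by show S.len _ = 2 * S.len _; rw [h1, h2])
      (by show 2 ≤ S.len _; rw [h1]; exact h3)
    rw [this]
    show S.len _ + 2 ≤ S.len _ + S.len _
    rw [h1]; omega
  · rintro _ ⟨v, l, h, hr, rfl⟩ _ ⟨v', l', h', hr', rfl⟩ u hu hu' hlt
    obtain ⟨h1, h2⟩ := h.len_sq hs hpar S hr
    have h3 := h.length hM
    have h4 := S.lenFn.conj_sq (pr l) v (by show S.len _ = 2 * S.len _; rw [h1, h2])
      (by show 2 ≤ S.len _; rw [h1]; exact h3)
    obtain ⟨h1', h2'⟩ := h'.len_sq hs hpar S hr'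
    have h3' := h'.length hM
    have h4' := S.lenFn.conj_sq (pr l') v' (by show S.len _ = 2 * S.len _; rw [h1', h2'])
      (by show 2 ≤ S.len _; rw [h1']; exact h3')
    have e : u⁻¹ * (v * pr l * v⁻¹) * u = (v⁻¹ * u)⁻¹ * pr l * (v⁻¹ * u) := by group
    have e' : u⁻¹ * (v' * pr l' * v'⁻¹) * u = (v'⁻¹ * u)⁻¹ * pr l' * (v'⁻¹ * u) := by group
    obtain ⟨m, hm, hmr, hmp⟩ := h.conj hs hpar S hM _ (v⁻¹ * u) l rfl hr (by
      rw [← e]
      have : S.len (pr l) = l.length := h1
      change S.lenFn.L _ ≤ _
      rw [h4] at hu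
      have h5 : S.lenFn.L (pr l) = l.length := h1
      omega)
    obtain ⟨m', hm', hmr', hmp'⟩ := h'.conj hs hpar S hM _ (v'⁻¹ * u) l' rfl hr' (by
      rw [← e']
      change S.lenFn.L _ ≤ _
      rw [h4'] at hu'
      have h5 : S.lenFn.L (pr l') = l'.length := h1'
      omega)
    rw [← e] at hmp
    rw [← e'] at hmp'
    have hlt' : S.len (pr m' * pr m) < S.len (pr m') + S.len (pr m) := by
      rw [hmp, hmp']
      have e7 : u⁻¹ * (v' * pr l' * v'⁻¹) * u * (u⁻¹ * (v * pr l * v⁻¹) * u) =
        u⁻¹ * (v' * pr l' * v'⁻¹ * (v * pr l * v⁻¹)) * u := by group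
      rw [e7]
      exact hlt
    obtain ⟨v₁, l₁, h5, h6⟩ := hm.merge hs hpar S hM hm' hmr hmr' hlt'
    obtain ⟨v₂, l₂, h7, h8, h9⟩ := h5.reduce hs hpar hM hRTF _ l₁ le_rfl
    refine ⟨u * v₁ * v₂, l₂, h7, h8, ?_⟩
    have e8 : v' * pr l' * v'⁻¹ * (v * pr l * v⁻¹) = u * (pr m' * pr m) * u⁻¹ := by
      rw [hmp, hmp']; group
    rw [e8, h6, h9]
    group

end Pool.Agent.TH74.RS
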