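import Mathlib
import Pool.Agent.TH74.RS.Lab

set_option autoImplicit false

/-!
# Hyperbolic elements of an amalgam over a relatively torsion free subgroup
-/

namespace Pool.Agent.TH74.RS

variable {G : Type*} [Group G] {F : Bool → Subgroup G}

lemma Red.letters {b : Bool} {n : ℕ} {x : G} (h : Red F b n x) : n ≠ 0 →
    ∃ ls : List G, ls.length = n ∧ ls.prod = x ∧
      ∀ i (hi : i < ls.length), Lt F (if i % 2 = 0 then b else !b) ls[i] := by
  induction h with
  | zero b c hc => intro h; exact absurd rfl h
  | succ b n s x hs hx ih =>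
    intro _
    rcases Nat.eq_zero_or_pos n with h0 | h0
    · subst h0
      refine ⟨[s * x], rfl, by simp, ?_⟩
      intro i hi
      simp only [List.length_singleton] at hi
      obtain rfl : i = 0 := by omega
      simpa using hs.mul_right hx.zero'
    · obtain ⟨ls, h1, h2, h3⟩ := ih (by omega)
      refine ⟨s :: ls, by simp [h1], by simp [h2], ?_⟩
      intro i hi
      cases i with
      | zero => simpa using hs
      | succ i =>
        have h4 := h3 i (by simpa using hi)
        simp only [List.getElem_cons_succ]
        by_cases h5 : i % 2 = 0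
        · rw [if_pos h5] at h4
          rw [if_neg (by omega)]; exact h4
        · rw [if_neg h5, Bool.not_not] at h4
          rw [if_pos (by omega)]; exact h4

/-- **Hyperbolic elements are not generalised torsion.** -/
theorem hyperbolic (S : Amalg F) (hRTF : RTF F) (g : G) (hg : ∀ v b, v⁻¹ * g * v ∉ F b)
    (l : List G) (hl : l ≠ []) : (l.map (fun h => h * g * h⁻¹)).prod ≠ 1 := by
  -- a conjugate of minimal length
  obtain ⟨v, hv⟩ : ∃ v, ∀ u, S.len (v⁻¹ * g * v) ≤ S.len (u⁻¹ * g * u) :=
    ⟨Function.argmin (fun v => S.len (v⁻¹ * g * v)),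
      fun u => Function.argmin_le (fun v => S.len (v⁻¹ * g * v)) u⟩
  obtain ⟨n, hn⟩ : ∃ n, S.len (v⁻¹ * g * v) = n := ⟨_, rfl⟩
  obtain ⟨b, hred⟩ := S.len_red (v⁻¹ * g * v)
  rw [hn] at hred
  have hn2 : 2 ≤ n := by
    by_contra hcon
    push Not at hcon
    rcases (by omega : n = 0 ∨ n = 1) with h0 | h0
    · subst h0
      exact hg v true (CC_le F _ hred.zero')
    · subst h0
      generalize hx : v⁻¹ * g * v = x at hred
      cases hred with
      | succ _ _ s y hs hy =>
        apply hg v b
        rw [hx]
        exact (F b).mul_mem hs.1 (CC_le F b hy.zero')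
  have hnf : ∀ (m : ℕ) (b : Bool), nf b m = if m % 2 = 0 then b else !b := by
    intro m
    induction m with
    | zero => intro b; rfl
    | succ m ih =>
      intro b
      rw [nf_succ, ih]
      by_cases h5 : m % 2 = 0
      · rw [if_pos h5, if_neg (by omega)]
      · rw [if_neg h5, if_pos (by omega), Bool.not_not]
  have heven : n % 2 = 0 := by
    by_contra hodd
    generalize hx : v⁻¹ * g * v = x at hred
    cases hred with
    | zero => omega
    | succ _ m s y hs hy =>
      have h1 := hv (v * s)
      have e1 : (v * s)⁻¹ * g * (v * s) = y * s := by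
        have : (v * s)⁻¹ * g * (v * s) = s⁻¹ * (v⁻¹ * g * v) * s := by group
        rw [this, hx]; group
      rw [hn, e1] at h1
      have h2 := hy.inv
      have e2 : (!(nf (!b) m)) = b := by
        rw [hnf, if_pos (by omega), Bool.not_not]
      rw [e2] at h2
      rcases S.cases_gp h2 (Red.one_letter hs) with ⟨-, h3⟩ | ⟨-, h3, -, h4⟩
      · rcases h3 with h3 | h3 | h3
        · omega
        · omega
        · exact h3 rfl
      · have h5 : 1 ≤ S.gp y⁻¹ s := by
          rcases h4 with h4 | ⟨r, hr, h5, h6, h4⟩
          · omega
          · have := S.gp_nonneg' _ _ _ h5 _ _ _ h6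
            omega
        unfold Amalg.gp at h5
        rw [S.len_eq h2, S.len_eq (Red.one_letter hs), inv_inv] at h5
        omega
  have : NeZero n := ⟨by omega⟩
  obtain ⟨ls, hls1, hls2, hls3⟩ := hred.letters (by omega)
  have hidx : ∀ i : ZMod n, i.val < ls.length := fun i => by rw [hls1]; exact ZMod.val_lt i
  let s : ZMod n → G := fun i => ls[i.val]'(hidx i)
  let par : ZMod n → Bool := fun i => if i.val % 2 = 0 then b else !b
  have hs : ∀ i, Lt F (par i) (s i) := fun i => hls3 i.val (hidx i)
  have hpar : ∀ i, par (i + 1) = !(par i) := by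
    intro i
    have h1 : (i + 1).val % 2 = (i.val + 1) % 2 := by
      rw [ZMod.val_add, ZMod.val_one'' (by omega), Nat.mod_mod_of_dvd _ (Nat.dvd_of_mod_eq_zero heven)]
    simp only [par, h1]
    by_cases h5 : i.val % 2 = 0
    · rw [if_neg (by omega), if_pos h5]
    · rw [if_pos (by omega), if_neg h5, Bool.not_not]
  let f : ℕ → Ltr G n := fun i => ⟨s (i : ZMod n), (i : ZMod n), (i : ZMod n), 0⟩
  have hpr : pr ((List.range n).map f) = v⁻¹ * g * v := by
    rw [← hls2]
    unfold pr
    congr 1
    apply List.ext_getElem
    · simp [hls1]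
    · intro i hi1 hi2
      simp only [List.getElem_map, List.getElem_range, f, s]
      congr 1
      rw [ZMod.val_natCast_of_lt (by omega)]
  have hgood : Good F s par ((List.range n).map f) := by
    refine ⟨?_, ?_, ?_⟩
    · obtain ⟨m, rfl⟩ : ∃ m, n = m + 1 := ⟨n - 1, by omega⟩
      have h1 : List.IsChain Lk ((List.range (m + 1 + 1)).map f) := by
        rw [List.isChain_iff_getElem]
        intro i hi
        simp only [List.getElem_map, List.getElem_range, f, Lk]
        push_cast; ring
      rw [List.range_succ_eq_map, List.map_cons]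
      show List.IsChain Lk (f 0 :: (((List.range m).map Nat.succ).map f ++ [f 0]))
      rw [List.range_succ_eq_map, List.range_succ, List.map_append, List.map_cons, List.map_append] at h1
      have e : f (m + 1) = f 0 := by
        simp only [f]
        have : ((m + 1 : ℕ) : ZMod (m + 1)) = 0 := ZMod.natCast_self _
        rw [this]; simp
      simpa [e] using h1
    · intro a ha
      simp only [List.mem_map, List.mem_range] at ha
      obtain ⟨i, -, rfl⟩ := ha
      have := Ch.base (F := F) (s := s) (par := par) (i : ZMod n) 1 1 (CC F).one_mem (CC F).one_mem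
      simpa [f] using this
    · have : cst ((List.range n).map f) = 0 := by
        unfold cst
        rw [List.map_map]
        apply List.sum_eq_zero
        intro x hx
        simp only [List.mem_map, Function.comp] at hx
        obtain ⟨i, -, rfl⟩ := hx
        rfl
      rw [this]; simp
  have hrdc : Rdc F ((List.range n).map f) := by
    intro a ha
    simp only [List.mem_map, List.mem_range] at ha
    obtain ⟨i, -, rfl⟩ := ha
    exact (hs _).2
  have hmem : ∀ h, h * g * h⁻¹ ∈ XX F s par := by
    intro h
    refine ⟨h * v, (List.range n).map f, hgood, hrdc, ?_⟩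
    rw [hpr]; group
  apply XX_prod_ne_one hs hpar S hn2 hRTF
  · simpa using hl
  · intro x hx
    simp only [List.mem_map] at hx
    obtain ⟨h, -, rfl⟩ := hx
    exact hmem h

end Pool.Agent.TH74.RS
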