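import Mathlib
import Pool.Agent.TH74.RS.Dat
import Pool.Agent.TH74.RS.Hyp

set_option autoImplicit false

/-!
# The amalgamated product and the property `R*`
-/

namespace Pool.Agent.TH74.RS

open Pool.Agent.H17R2 Monoid

section rtf

variable {A P : Type} [Group A] [Group P] (D : Datum A P)

/-- Products `c₀ g c₁ g ⋯ g cₖ`, `k ≥ 1`. -/
inductive PwA (g : A) : A → Prop
  | base (p q : P) : PwA g (D.φ p * g * D.φ q)
  | step (t t' : A) (h : PwA g t) (h' : PwA g t') : PwA g (t * t')

lemma PwA.pow {g t : A} (h : PwA D g t) : ∃ k : ℕ, 0 < k ∧ t⁻¹ * g ^ k ∈ D.N := by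
  have := D.nN
  induction h with
  | base p q =>
    refine ⟨1, Nat.one_pos, ?_⟩
    rw [← QuotientGroup.eq]
    have h1 : ((D.φ p : A) : A ⧸ D.N) = 1 := (QuotientGroup.eq_one_iff _).2 (D.φN p)
    have h2 : ((D.φ q : A) : A ⧸ D.N) = 1 := (QuotientGroup.eq_one_iff _).2 (D.φN q)
    simp [h1, h2]
  | step t t' h h' ih ih' =>
    obtain ⟨k, hk, h1⟩ := ih
    obtain ⟨k', hk', h2⟩ := ih'
    refine ⟨k + k', by omega, ?_⟩
    rw [← QuotientGroup.eq] at h1 h2 ⊢
    rw [QuotientGroup.mk_mul, h1, h2, ← QuotientGroup.mk_mul, pow_add]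

lemma PwA.form {g t : A} (hg : g ∈ D.N) (h : PwA D g t) : t ∈ D.N ∧ ∃ l : List A, l ≠ [] ∧
    t = (l.map (fun h => h * (g * (D.φ (D.ρ g))⁻¹) * h⁻¹)).prod * D.φ (D.ρ t) := by
  induction h with
  | base p q =>
    refine ⟨D.N.mul_mem (D.N.mul_mem (D.φN p) hg) (D.φN q), [D.φ p], by simp, ?_⟩
    rw [D.ρmul _ (D.N.mul_mem (D.φN p) hg) _ (D.φN q), D.ρmul _ (D.φN p) _ hg, D.ρφ, D.ρφ,
      map_mul, map_mul]
    simp only [List.map_cons, List.map_nil, List.prod_cons, List.prod_nil]
    group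
  | step t t' h h' ih ih' =>
    obtain ⟨h0, l, hl, h1⟩ := ih
    obtain ⟨h0', l', hl', h2⟩ := ih'
    refine ⟨D.N.mul_mem h0 h0', l ++ l'.map (fun x => D.φ (D.ρ t) * x), by simp [hl], ?_⟩
    rw [D.ρmul _ h0 _ h0', map_mul]
    have key : ∀ (u v : A) (m : List A), ((m.map (fun x => u * x)).map (fun h => h * v * h⁻¹)).prod =
        u * (m.map (fun h => h * v * h⁻¹)).prod * u⁻¹ := by
      intro u v m
      induction m with
      | nil => simp
      | cons a m ih =>
        simp only [List.map_cons, List.prod_cons]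
        rw [ih]; group
    rw [List.map_append, List.prod_append, key]
    conv_lhs => rw [h1, h2]
    group

/-- Relative torsion freeness in the factor. -/
theorem Datum.rtf (K : Cone A) (g : A) (hg : g ∉ D.φ.range) (t : A) (ht : PwA D g t) :
    t ∉ D.φ.range := by
  rintro ⟨r, hr⟩
  obtain ⟨k, hk, h1⟩ := ht.pow
  have htN : t ∈ D.N := by rw [← hr]; exact D.φN r
  have hgN : g ∈ D.N := by
    apply D.tf g k hk
    have := D.N.mul_mem htN h1
    rwa [mul_inv_cancel_left] at this
  obtain ⟨-, l, hl, h2⟩ := ht.form D hgN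
  have h3 : D.φ (D.ρ t) = t := by
    rw [← hr, D.ρφ]
  rw [h3] at h2
  have h4 := mul_eq_right.1 h2.symm
  by_cases h5 : g * (D.φ (D.ρ g))⁻¹ = 1
  · apply hg
    exact ⟨D.ρ g, (mul_inv_eq_one.1 h5).symm⟩
  · exact K.rstar _ h5 l hl h4

end rtf

section grp

variable {A P : Type} [Group A] [Group P] (DD : Bool → Datum A P)

/-- The amalgamated product. -/
abbrev GG := Monoid.PushoutI (fun b : Bool => (DD b).φ)

/-- The inclusion of the factors. -/
def ii (b : Bool) : A →* GG DD := Monoid.PushoutI.of (φ := fun b : Bool => (DD b).φ) b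

/-- The inclusion of the edge group. -/
def bb : P →* GG DD := Monoid.PushoutI.base (fun b : Bool => (DD b).φ)

lemma ii_phi (b : Bool) (p : P) : ii DD b ((DD b).φ p) = bb DD p :=
  Monoid.PushoutI.of_apply_eq_base (fun b : Bool => (DD b).φ) b p

lemma phi_inj (b : Bool) : Function.Injective (DD b).φ :=
  Function.LeftInverse.injective (g := (DD b).ρ) (DD b).ρφ

lemma ii_inj (b : Bool) : Function.Injective (ii DD b) :=
  Monoid.PushoutI.of_injective (φ := fun b : Bool => (DD b).φ) (phi_inj DD) b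

/-- The factors. -/
def FF (b : Bool) : Subgroup (GG DD) := (ii DD b).range

lemma CC_FF : CC (FF DD) = (bb DD).range :=
  Monoid.PushoutI.inf_of_range_eq_base_range (φ := fun b : Bool => (DD b).φ) (phi_inj DD)
    (by decide)

lemma ii_mem_CC (b : Bool) (a : A) : ii DD b a ∈ CC (FF DD) ↔ a ∈ (DD b).φ.range := by
  rw [CC_FF]
  constructor
  · rintro ⟨p, hp⟩
    rw [← ii_phi DD b] at hp
    exact ⟨p, ii_inj DD b hp⟩
  · rintro ⟨p, rfl⟩
    exact ⟨p, (ii_phi DD b p).symm⟩

lemma lt_iff (b : Bool) (s : GG DD) (h : Lt (FF DD) b s) : ∃ a, a ∉ (DD b).φ.range ∧ ii DD b a = s := by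
  obtain ⟨⟨a, rfl⟩, h2⟩ := h
  exact ⟨a, fun h => h2 ((ii_mem_CC DD b a).2 h), rfl⟩

theorem rtf_FF (K : Cone A) : RTF (FF DD) := by
  intro b s hs t ht
  obtain ⟨a, ha, rfl⟩ := lt_iff DD b s hs
  have key : ∃ x, PwA (DD b) a x ∧ ii DD b x = t := by
    induction ht with
    | base c c' hc hc' =>
      rw [CC_FF] at hc hc'
      obtain ⟨p, rfl⟩ := hc
      obtain ⟨q, rfl⟩ := hc'
      exact ⟨_, PwA.base p q, by rw [map_mul, map_mul, ii_phi, ii_phi]⟩
    | step t t' h h' ih ih' =>
      obtain ⟨x, hx, rfl⟩ := ih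
      obtain ⟨x', hx', rfl⟩ := ih'
      exact ⟨_, PwA.step x x' hx hx', by rw [map_mul]⟩
  obtain ⟨x, hx, rfl⟩ := key
  rw [ii_mem_CC]
  exact (DD b).rtf K a ha x hx

lemma cons_word (b : Bool) (a : A) (ha : a ∉ (DD b).φ.range)
    (w : Monoid.CoprodI.Word (fun _ : Bool => A))
    (hw1 : Monoid.PushoutI.Reduced (fun b : Bool => (DD b).φ) w) (hw2 : w.fstIdx ≠ some b) :
    ∃ w' : Monoid.CoprodI.Word (fun _ : Bool => A),
      Monoid.PushoutI.Reduced (fun b : Bool => (DD b).φ) w' ∧ w'.fstIdx = some b ∧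
      Monoid.PushoutI.ofCoprodI (φ := fun b : Bool => (DD b).φ) w'.prod =
        ii DD b a * Monoid.PushoutI.ofCoprodI (φ := fun b : Bool => (DD b).φ) w.prod := by
  have ha1 : a ≠ 1 := by rintro rfl; exact ha (one_mem _)
  refine ⟨Monoid.CoprodI.Word.cons (M := fun _ : Bool => A) (i := b) a w hw2 ha1, ?_, ?_, ?_⟩
  · intro g hg
    simp only [Monoid.CoprodI.Word.cons, List.mem_cons] at hg
    rcases hg with rfl | hg
    · exact ha
    · exact hw1 g hg
  · rw [Monoid.CoprodI.Word.fstIdx_cons]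
  · rw [Monoid.CoprodI.Word.prod_cons, map_mul, Monoid.PushoutI.ofCoprodI_of]
    rfl

lemma exists_word (b : Bool) (n : ℕ) (x : GG DD) (h : Red (FF DD) b n x) : n ≠ 0 →
    ∃ w : Monoid.CoprodI.Word (fun _ : Bool => A),
      Monoid.PushoutI.Reduced (fun b : Bool => (DD b).φ) w ∧ w.fstIdx = some b ∧
      Monoid.PushoutI.ofCoprodI (φ := fun b : Bool => (DD b).φ) w.prod = x := by
  induction h with
  | zero b c hc => intro h; exact absurd rfl h
  | succ b n s x hs hx ih =>
    intro _
    by_cases hn : n = 0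
    · subst hn
      have hc := hx.zero'
      have hs' := hs.mul_right hc
      obtain ⟨a, ha, hax⟩ := lt_iff DD b _ hs'
      obtain ⟨w', h1, h2, h3⟩ := cons_word DD b a ha Monoid.CoprodI.Word.empty
        (by intro g hg; simp [Monoid.CoprodI.Word.empty] at hg)
        (by simp [Monoid.CoprodI.Word.fstIdx, Monoid.CoprodI.Word.empty])
      refine ⟨w', h1, h2, ?_⟩
      rw [h3, Monoid.CoprodI.Word.prod_empty, map_one, mul_one]
      exact hax
    · obtain ⟨w, hw1, hw2, hw3⟩ := ih hn
      obtain ⟨a, ha, hax⟩ := lt_iff DD b _ hs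
      obtain ⟨w', h1, h2, h3⟩ := cons_word DD b a ha w hw1 (by rw [hw2]; simp)
      refine ⟨w', h1, h2, ?_⟩
      rw [h3, hw3, hax]

theorem amalg_FF : Amalg (FF DD) where
  NF := by
    intro b n x h h1
    obtain ⟨w, hw1, hw2, hw3⟩ := exists_word DD b _ x h (Nat.succ_ne_zero n)
    have := hw1.eq_empty_of_mem_range (phi_inj DD) (by
      rw [hw3, h1]; exact one_mem _)
    rw [this] at hw2
    simp [Monoid.CoprodI.Word.fstIdx, Monoid.CoprodI.Word.empty] at hw2
  gen := by
    rw [eq_top_iff]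
    intro x _
    induction x using Monoid.PushoutI.induction_on with
    | of i g =>
      apply Subgroup.subset_closure
      cases i
      · right; exact ⟨g, rfl⟩
      · left; exact ⟨g, rfl⟩
    | base h =>
      apply Subgroup.subset_closure
      left
      exact ⟨(DD true).φ h, ii_phi DD true h⟩
    | mul x y hx hy => exact Subgroup.mul_mem _ (hx trivial) (hy trivial)

theorem elliptic_GG (K : Cone A) (b : Bool) (a : A) (ha : a ≠ 1) (l : List (GG DD)) (hl : l ≠ []) :
    (l.map (fun h => h * ii DD b a * h⁻¹)).prod ≠ 1 := by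
  refine elliptic (DD b) (DD (!b)) K (ii DD b) ?_ a ha l hl
  intro f g hfg
  have hcomp : ∀ i, ((fun i => if i = b then f else g) i).comp (DD i).φ = f.comp (DD b).φ := by
    intro i
    by_cases hi : i = b
    · subst hi; simp
    · have : i = !b := by cases i <;> cases b <;> simp_all
      subst this
      simp [hfg]
  refine ⟨Monoid.PushoutI.lift (φ := fun b : Bool => (DD b).φ) (fun i => if i = b then f else g)
    (f.comp (DD b).φ) hcomp, ?_, ?_⟩
  · ext x : 1
    have := Monoid.PushoutI.lift_of (φ := fun b : Bool => (DD b).φ)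
      (fun i => if i = b then f else g) (f.comp (DD b).φ) hcomp (i := b) x
    rw [if_pos rfl] at this
    exact this
  · intro Q hf hg
    rintro _ ⟨x, rfl⟩
    induction x using Monoid.PushoutI.induction_on with
    | of i y =>
      rw [Monoid.PushoutI.lift_of]
      split_ifs
      · exact hf ⟨y, rfl⟩
      · exact hg ⟨y, rfl⟩
    | base h =>
      rw [Monoid.PushoutI.lift_base]
      exact hf ⟨_, rfl⟩
    | mul x y hx hy =>
      rw [map_mul]
      exact Subgroup.mul_mem _ hx hy

/-- The amalgamated product is an `R*`-group. -/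
theorem rstar_GG (K : Cone A) (g : GG DD) (hg : g ≠ 1) (l : List (GG DD)) (hl : l ≠ []) :
    (l.map (fun h => h * g * h⁻¹)).prod ≠ 1 := by
  by_cases h : ∃ v b, v⁻¹ * g * v ∈ FF DD b
  · obtain ⟨v, b, a, ha⟩ := h
    have ha1 : a ≠ 1 := by
      rintro rfl
      apply hg
      rw [map_one] at ha
      have : g = v * (v⁻¹ * g * v) * v⁻¹ := by group
      rw [this, ← ha]; group
    have := elliptic_GG DD K b a ha1 (l.map (fun h => h * v)) (by simpa using hl)
    rw [List.map_map, ha] at this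
    convert this using 5
    simp only [Function.comp]
    group
  · push Not at h
    exact hyperbolic (amalg_FF DD) (rtf_FF DD K) g h l hl

end grp

end Pool.Agent.TH74.RS
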