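import Mathlib
import Pool.Agent.TH74.RS.Grp

set_option autoImplicit false

/-!
# An `R*`-group which is not right-orderable
-/

namespace Pool.Agent.TH74.RS

open Pool.Agent.H17R2

/-- The inclusion of the free group on the eight relators. -/
noncomputable def phi : FreeGroup Ix →* FreeGroup Bool := FreeGroup.lift Wb

lemma phi_of (b : Ix) : phi (FreeGroup.of b) = Wb b := by
  unfold phi
  rw [FreeGroup.lift_apply_of]

lemma Wb_mem (b : Ix) : Wb b ∈ NN := by
  have h1 : Wb b ∈ words.toFam.toLines.H (bl b) := (mem_H b _).2 ⟨1, by simp⟩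
  exact (le_iSup (fun x : words.toFam.fam => (trans x.1.1 x.1.2 : Subgroup (FreeGroup Bool))) (bl b)) h1

lemma phi_mem (p : FreeGroup Ix) : phi p ∈ NN := by
  induction p using FreeGroup.induction_on with
  | C1 => rw [map_one]; exact one_mem _
  | of b => rw [phi_of]; exact Wb_mem b
  | inv_of b hb => rw [map_inv]; exact NN.inv_mem hb
  | mul x y hx hy => rw [map_mul]; exact NN.mul_mem hx hy

theorem exists_datum : ∃ D : Datum (FreeGroup Bool) (FreeGroup Ix), D.φ = phi := by
  obtain ⟨ρ, h1, h2, h3⟩ := exists_rho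
  have hN : NN.Normal := words.toFam.N_normal
  have hρ1 : ρ 1 = 1 := by
    have := h1 1 (one_mem _) 1 (one_mem _)
    rw [mul_one] at this
    exact mul_eq_left.1 this.symm
  refine ⟨⟨NN, hN, phi, phi_mem, ρ, h1, ?_, ?_, ?_⟩, rfl⟩
  · let f : FreeGroup Ix →* FreeGroup Ix :=
      { toFun := fun p => ρ (phi p)
        map_one' := by rw [map_one, hρ1]
        map_mul' := fun p q => by rw [map_mul, h1 _ (phi_mem p) _ (phi_mem q)] }
    have : f = MonoidHom.id _ := by
      ext b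
      show ρ (phi (FreeGroup.of b)) = _
      rw [phi_of, h2]; rfl
    intro p
    exact DFunLike.congr_fun this p
  · intro g hg
    let f : FreeGroup Ix →* FreeGroup Ix :=
      { toFun := fun p => ρ (g * phi p * g⁻¹)
        map_one' := by rw [map_one, mul_one, mul_inv_cancel, hρ1]
        map_mul' := fun p q => by
          rw [← h1 _ (hN.conj_mem _ (phi_mem p) g) _ (hN.conj_mem _ (phi_mem q) g), map_mul]
          congr 1; group }
    have : f = 1 := by
      ext b
      show ρ (g * phi (FreeGroup.of b) * g⁻¹) = _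
      rw [phi_of, h3 g hg]; rfl
    intro p
    exact DFunLike.congr_fun this p
  · intro g n hn h
    exact Words.torsion_free words prim n hn _ g le_rfl h

/-- Changing the inclusion by an involution. -/
def Datum.twist {A P : Type} [Group A] [Group P] (D : Datum A P) (τ : P →* P)
    (hτ : ∀ p, τ (τ p) = p) : Datum A P where
  N := D.N
  nN := D.nN
  φ := D.φ.comp τ
  φN := fun p => D.φN (τ p)
  ρ := fun x => τ (D.ρ x)
  ρmul := fun x hx y hy => by rw [D.ρmul x hx y hy, map_mul]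
  ρφ := fun p => by
    show τ (D.ρ (D.φ (τ p))) = p
    rw [D.ρφ, hτ]
  ρ1 := fun g hg p => by
    show τ (D.ρ (g * D.φ (τ p) * g⁻¹)) = 1
    rw [D.ρ1 g hg, map_one]
  tf := D.tf

/-- The involution of the index set. -/
def inx (b : Ix) : Ix := match b with
  | (0, true) => (0, true)
  | (1, true) => (1, true)
  | (2, true) => (0, false)
  | (3, true) => (1, false)
  | (0, false) => (2, true)
  | (1, false) => (3, true)
  | (2, false) => (2, false)
  | (3, false) => (3, false)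

/-- The signs. -/
def sgn (b : Ix) : ℤ := match b.1 with
  | 0 => 1
  | 1 => -1
  | 2 => 1
  | 3 => -1

lemma inx_inx (b : Ix) : inx (inx b) = b := by
  revert b; decide

lemma sgn_mul (b : Ix) : sgn (inx b) * sgn b = 1 := by
  revert b; decide

/-- The involution. -/
def tw : FreeGroup Ix →* FreeGroup Ix := FreeGroup.lift (fun b => FreeGroup.of (inx b) ^ sgn b)

lemma tw_of (b : Ix) : tw (FreeGroup.of b) = FreeGroup.of (inx b) ^ sgn b := by
  unfold tw
  rw [FreeGroup.lift_apply_of]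

lemma tw_tw (p : FreeGroup Ix) : tw (tw p) = p := by
  have : tw.comp tw = MonoidHom.id _ := by
    ext b
    show tw (tw (FreeGroup.of b)) = FreeGroup.of b
    rw [tw_of, map_zpow, tw_of, inx_inx, ← zpow_mul, sgn_mul, zpow_one]
  exact DFunLike.congr_fun this p

/-- The strict positive cone of a right order, as used here. -/
structure RCone {G : Type*} [Group G] (Q : Set G) : Prop where
  mul : ∀ x ∈ Q, ∀ y ∈ Q, x * y ∈ Q
  one : 1 ∉ Q
  tot : ∀ x, x ≠ 1 → x ∈ Q ∨ x⁻¹ ∈ Q

lemma RCone.op {G : Type*} [Group G] {Q : Set G} (h : RCone Q) : RCone {x | x⁻¹ ∈ Q} where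
  mul x hx y hy := by
    show (x * y)⁻¹ ∈ Q
    rw [mul_inv_rev]
    exact h.mul _ hy _ hx
  one := by
    show ¬ ((1 : G)⁻¹ ∈ Q)
    rw [inv_one]; exact h.one
  tot x hx := by
    show x⁻¹ ∈ Q ∨ x⁻¹⁻¹ ∈ Q
    rw [inv_inv]
    exact (h.tot x hx).symm

lemma RCone.comap {G H : Type*} [Group G] [Group H] {Q : Set G} (h : RCone Q) (f : H →* G)
    (hf : Function.Injective f) : RCone {x | f x ∈ Q} where
  mul x hx y hy := by
    show f (x * y) ∈ Q
    rw [map_mul]
    exact h.mul _ hx _ hy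
  one := by
    show ¬ (f 1 ∈ Q)
    rw [map_one]; exact h.one
  tot x hx := by
    show f x ∈ Q ∨ f x⁻¹ ∈ Q
    rw [map_inv]
    exact h.tot _ (fun h1 => hx (hf (by rw [h1, map_one])))

lemma RCone.not_both {G : Type*} [Group G] {Q : Set G} (h : RCone Q) {x : G} (hx : x ∈ Q) :
    x⁻¹ ∉ Q := by
  intro h1
  have := h.mul _ hx _ h1
  rw [mul_inv_cancel] at this
  exact h.one this

/-- A semipositive word is positive. -/
lemma zw_pos {Q : Set (FreeGroup Bool)} (hQ : ∀ x ∈ Q, ∀ y ∈ Q, x * y ∈ Q) (w : ℤ → Bool × Bool)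
    (h : ∀ k, FreeGroup.mk [w k] ∈ Q) (n : ℕ) : zw w ((n : ℤ) + 1) ∈ Q := by
  induction n with
  | zero =>
    rw [zw_succ]
    simpa using h 0
  | succ n ih =>
    rw [zw_succ]
    push_cast
    exact hQ _ ih _ (h _)

lemma Wb_pos {Q : Set (FreeGroup Bool)} (hQ : ∀ x ∈ Q, ∀ y ∈ Q, x * y ∈ Q) (b : Ix)
    (hx : FreeGroup.of false ∈ Q) (hy : FreeGroup.mk [(true, b.2)] ∈ Q) : Wb b ∈ Q := by
  have h1 : ∀ k, FreeGroup.mk [ww b k] ∈ Q := by
    intro k
    unfold ww wd
    split_ifs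
    · exact hy
    · exact hx
  have h2 := pp_lb b
  obtain ⟨n, hn⟩ : ∃ n : ℕ, pp b = (n : ℤ) + 1 := ⟨(pp b - 1).toNat, by omega⟩
  unfold Wb
  rw [hn]
  exact zw_pos hQ _ h1 n

/-- In a right order four of the relators have the same sign. -/
lemma Wb_signs {Q : Set (FreeGroup Bool)} (hQ : RCone Q) :
    ∃ σ : Bool, (∀ i, Wb (i, σ) ∈ Q) ∨ (∀ i, (Wb (i, σ))⁻¹ ∈ Q) := by
  have hx1 : (FreeGroup.of false : FreeGroup Bool) ≠ 1 := FreeGroup.of_ne_one _
  have hy1 : (FreeGroup.of true : FreeGroup Bool) ≠ 1 := FreeGroup.of_ne_one _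
  have key : ∀ Q' : Set (FreeGroup Bool), RCone Q' → FreeGroup.of false ∈ Q' →
      ∃ σ : Bool, ∀ i, Wb (i, σ) ∈ Q' := by
    intro Q' hQ' hx
    rcases hQ'.tot _ hy1 with h | h
    · exact ⟨true, fun i => Wb_pos hQ'.mul _ hx h⟩
    · exact ⟨false, fun i => Wb_pos hQ'.mul _ hx h⟩
  rcases hQ.tot _ hx1 with h | h
  · obtain ⟨σ, hσ⟩ := key Q hQ h
    exact ⟨σ, Or.inl hσ⟩
  · obtain ⟨σ, hσ⟩ := key _ hQ.op h
    exact ⟨σ, Or.inr hσ⟩

theorem main : ∃ (G : Type) (_ : Group G), (∀ g : G, g ≠ 1 → ∀ l : List G, l ≠ [] →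
    (l.map (fun h => h * g * h⁻¹)).prod ≠ 1) ∧ ¬ ∃ Q : Set G, RCone Q := by
  obtain ⟨D, hD⟩ := exists_datum
  obtain ⟨K⟩ := exists_cone
  let DD : Bool → Datum (FreeGroup Bool) (FreeGroup Ix) := fun b => if b then D else D.twist tw tw_tw
  refine ⟨GG DD, inferInstance, fun g hg l hl => rstar_GG DD K g hg l hl, ?_⟩
  rintro ⟨Q, hQ⟩
  obtain ⟨c, hc⟩ : ∃ c : Ix → GG DD, c = fun b => bb DD (FreeGroup.of b) := ⟨_, rfl⟩
  have hA : ∀ b, ii DD true (Wb b) = c b := by
    intro b
    rw [hc, ← phi_of, ← hD]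
    exact ii_phi DD true (FreeGroup.of b)
  have hB : ∀ b, ii DD false (Wb (inx b)) ^ sgn b = c b := by
    intro b
    rw [hc]
    show _ = bb DD (FreeGroup.of b)
    rw [← ii_phi DD false (FreeGroup.of b)]
    show _ = ii DD false (D.φ (tw (FreeGroup.of b)))
    rw [tw_of, hD, map_zpow, phi_of, map_zpow]
  obtain ⟨σ, hσ⟩ := Wb_signs (hQ.comap (ii DD true) (ii_inj DD true))
  obtain ⟨σ', hσ'⟩ := Wb_signs (hQ.comap (ii DD false) (ii_inj DD false))
  have hσ2 : (∀ i, c (i, σ) ∈ Q) ∨ (∀ i, (c (i, σ))⁻¹ ∈ Q) := by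
    rcases hσ with h | h
    · left; intro i; rw [← hA]; exact h i
    · right; intro i
      rw [← hA, ← map_inv]; exact h i
  -- the signs on the other side
  have hB1 : ∀ b, sgn b = 1 → ii DD false (Wb (inx b)) = c b := by
    intro b hb
    have := hB b
    rwa [hb, zpow_one] at this
  have hB2 : ∀ b, sgn b = -1 → (ii DD false (Wb (inx b)))⁻¹ = c b := by
    intro b hb
    have := hB b
    rwa [hb, zpow_neg_one] at this
  have hσ3 : ∀ b, sgn b = 1 → (inx b).2 = σ' → ∀ b', sgn b' = -1 → (inx b').2 = σ' →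
      (c b ∈ Q ∧ (c b')⁻¹ ∈ Q) ∨ ((c b)⁻¹ ∈ Q ∧ c b' ∈ Q) := by
    intro b h1 h2 b' h1' h2'
    rw [← hB1 b h1, ← hB2 b' h1', inv_inv, ← map_inv, ← map_inv]
    rcases hσ' with h | h
    · left
      refine ⟨?_, ?_⟩
      · have := h (inx b).1
        rw [← h2] at this
        exact this
      · have := h (inx b').1
        rw [← h2'] at this
        exact this
    · right
      refine ⟨?_, ?_⟩
      · have := h (inx b).1
        rw [← h2] at this
        exact this
      · have := h (inx b').1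
        rw [← h2'] at this
        exact this
  have fin : ∀ i j : Fin 4, sgn (i, σ) = 1 → (inx (i, σ)).2 = σ' → sgn (j, σ) = -1 →
      (inx (j, σ)).2 = σ' → False := by
    intro i j h1 h2 h3 h4
    rcases hσ3 _ h1 h2 _ h3 h4 with ⟨h5, h6⟩ | ⟨h5, h6⟩
    · rcases hσ2 with h | h
      · exact hQ.not_both (h j) h6
      · exact hQ.not_both h5 (h i)
    · rcases hσ2 with h | h
      · exact hQ.not_both (h i) h5
      · exact hQ.not_both h6 (h j)
  cases σ <;> cases σ'
  · exact fin 2 3 rfl rfl rfl rfl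
  · exact fin 0 1 rfl rfl rfl rfl
  · exact fin 2 3 rfl rfl rfl rfl
  · exact fin 0 1 rfl rfl rfl rfl

/-- There is a group without generalised torsion, and even an `R*`-group, which is not
right-orderable. -/
theorem not_all : ¬ (∀ (G : Type) [Group G],
      (∀ g : G, g ≠ 1 → ∀ l : List G, l ≠ [] →
        (l.map (fun h => h * g * h⁻¹)).prod ≠ 1) →
      ∃ o : LinearOrder G, ∀ a b c : G, a ≤ b → a * c ≤ b * c) := by
  intro H
  obtain ⟨G, iG, h1, h2⟩ := main
  obtain ⟨o, ho⟩ := H G h1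
  apply h2
  have hlt : ∀ a b c : G, a < b → a * c < b * c := by
    intro a b c h
    refine lt_of_le_of_ne (ho a b c h.le) ?_
    intro h3
    exact h.ne (mul_right_cancel h3)
  refine ⟨{x | 1 < x}, ?_, ?_, ?_⟩
  · intro x hx y hy
    have h3 := hlt _ _ y hx
    rw [one_mul] at h3
    exact lt_trans hy h3
  · exact lt_irrefl _
  · intro x hx
    rcases lt_or_gt_of_ne hx with h | h
    · right
      have h3 := hlt _ _ x⁻¹ h
      rw [mul_inv_cancel, one_mul] at h3
      exact h3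
    · left; exact h

end Pool.Agent.TH74.RS
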